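import Mathlib

set_option autoImplicit false

/-!
# A large value of an analytic function forces large values on a set of positive area
-/

open Complex MeasureTheory Set Filter Topology Metric Real

namespace Pool.Agent.Y751.DH

/-- the circle mean of the positive part of the logarithm of an analytic function -/
theorem log_le_circle {f : ℂ → ℂ} {c : ℂ} {R : ℝ} (hR : 0 < R)
    (hf : AnalyticOnNhd ℂ f (closedBall c R)) (h0 : f c ≠ 0) :
    Real.log ‖f c‖ ≤ circleAverage (fun z => Real.log ‖f z‖) c R := by
  have hab : |R| = R := abs_of_pos hR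
  have hf' : AnalyticOnNhd ℂ f (closedBall c |R|) := by rw [hab]; exact hf
  have h := AnalyticOnNhd.circleAverage_log_norm hR.ne' hf' h0
  have h2 : 0 ≤ ∑ᶠ u, (MeromorphicOn.divisor f (closedBall c |R|) u : ℝ) *
      Real.log (R * ‖c - u‖⁻¹) := by
    apply finsum_nonneg
    intro u
    by_cases hu : u ∈ closedBall c |R|
    · have h3 : (0 : ℝ) ≤ (MeromorphicOn.divisor f (closedBall c |R|) u : ℝ) := by
        exact_mod_cast MeromorphicOn.AnalyticOnNhd.divisor_nonneg hf' u
      by_cases huc : u = c
      · rw [huc]; simp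
      · apply mul_nonneg h3
        apply Real.log_nonneg
        have h4 : 0 < ‖c - u‖ := norm_pos_iff.2 (sub_ne_zero.2 (Ne.symm huc))
        rw [← div_eq_mul_inv, one_le_div h4]
        rw [mem_closedBall, dist_eq_norm, hab] at hu
        rw [norm_sub_rev]; exact hu
    · rw [Function.locallyFinsuppWithin.apply_eq_zero_of_notMem _ hu]
      simp
  have h' : circleAverage (fun z => Real.log ‖f z‖) c R =
      ∑ᶠ u, (MeromorphicOn.divisor f (closedBall c |R|) u : ℝ) *
      Real.log (R * ‖c - u‖⁻¹) + Real.log ‖f c‖ := h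
  rw [h']
  linarith

/-- on a circle, a large value at the centre gives a positive proportion of large values -/
theorem circle_large {f : ℂ → ℂ} {c : ℂ} {R L a b A : ℝ} (hR : 0 < R)
    (hf : AnalyticOnNhd ℂ f (closedBall c R)) (hL : 0 < L) (hb : 0 ≤ b) (hA : 0 < A)
    (h0 : Real.exp (a * L) ≤ ‖f c‖) (hup : ∀ z ∈ closedBall c R, ‖f z‖ ≤ Real.exp (A * L)) :
    ENNReal.ofReal (2 * Real.pi * ((a - b) / A)) ≤
      volume {θ : ℝ | θ ∈ Ioc (-Real.pi) Real.pi ∧ Real.exp (b * L) ≤ ‖f (circleMap c R θ)‖} := by
  have hc0 : f c ≠ 0 := norm_pos_iff.1 (lt_of_lt_of_le (Real.exp_pos _) h0)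
  have h1 := log_le_circle hR hf hc0
  have h2 : a * L ≤ Real.log ‖f c‖ := (Real.le_log_iff_exp_le (norm_pos_iff.2 hc0)).2 h0
  have hsph : ∀ θ : ℝ, circleMap c R θ ∈ closedBall c R := fun θ =>
    sphere_subset_closedBall (circleMap_mem_sphere c hR.le θ)
  set E : Set ℝ := {θ : ℝ | θ ∈ Ioc (-Real.pi) Real.pi ∧
    Real.exp (b * L) ≤ ‖f (circleMap c R θ)‖} with hE
  have hcont : Continuous (fun θ : ℝ => f (circleMap c R θ)) := by
    rw [continuous_iff_continuousAt]
    intro θ
    exact ContinuousAt.comp (f := fun θ : ℝ => circleMap c R θ)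
      (hf _ (hsph θ)).continuousAt (continuous_circleMap c R).continuousAt
  have hEm : MeasurableSet E := by
    apply MeasurableSet.inter measurableSet_Ioc
    exact measurableSet_le measurable_const hcont.norm.measurable
  have hEsub : E ⊆ Ioc (-Real.pi) Real.pi := fun θ h => h.1
  have hEfin : volume E ≠ ⊤ := by
    refine ne_top_of_le_ne_top ?_ (measure_mono hEsub)
    rw [Real.volume_Ioc]; exact ENNReal.ofReal_ne_top
  have hint : IntervalIntegrable (fun θ : ℝ => Real.log ‖f (circleMap c R θ)‖) volume 0
      (2 * Real.pi) := by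
    have h3 : CircleIntegrable (fun z => Real.log ‖f z‖) c R := by
      apply MeromorphicOn.circleIntegrable_log_norm
      rw [abs_of_pos hR]
      exact (hf.mono sphere_subset_closedBall).meromorphicOn
    exact h3
  have hper : Function.Periodic (fun θ : ℝ => Real.log ‖f (circleMap c R θ)‖) (2 * Real.pi) := by
    intro θ
    simp only
    rw [periodic_circleMap c R θ]
  have hshift : ∫ θ in (0 : ℝ)..(2 * Real.pi), Real.log ‖f (circleMap c R θ)‖ =
      ∫ θ in (-Real.pi)..Real.pi, Real.log ‖f (circleMap c R θ)‖ := by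
    have := hper.intervalIntegral_add_eq 0 (-Real.pi)
    rw [zero_add, show -Real.pi + 2 * Real.pi = Real.pi by ring] at this
    exact this
  have hint' : IntervalIntegrable (fun θ : ℝ => Real.log ‖f (circleMap c R θ)‖) volume (-Real.pi)
      Real.pi := by
    have := (hper.intervalIntegrable₀ Real.two_pi_pos.ne' hint) (-Real.pi) Real.pi
    exact this
  have h3 : circleAverage (fun z => Real.log ‖f z‖) c R =
      (2 * Real.pi)⁻¹ * ∫ θ in (-Real.pi)..Real.pi, Real.log ‖f (circleMap c R θ)‖ := by
    rw [circleAverage, smul_eq_mul, hshift]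
  have hpi : 0 < 2 * Real.pi := Real.two_pi_pos
  have h4 : a * L * (2 * Real.pi) ≤
      ∫ θ in (-Real.pi)..Real.pi, Real.log ‖f (circleMap c R θ)‖ := by
    have h5 : a * L ≤ (2 * Real.pi)⁻¹ *
        ∫ θ in (-Real.pi)..Real.pi, Real.log ‖f (circleMap c R θ)‖ := by
      rw [← h3]; exact h2.trans h1
    have h6 := mul_le_mul_of_nonneg_right h5 hpi.le
    have h7 : (2 * Real.pi)⁻¹ * (∫ θ in (-Real.pi)..Real.pi,
        Real.log ‖f (circleMap c R θ)‖) * (2 * Real.pi) =
        ∫ θ in (-Real.pi)..Real.pi, Real.log ‖f (circleMap c R θ)‖ := by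
      field_simp
    rwa [h7] at h6
  -- upper bound
  have hbL : 0 ≤ b * L := by positivity
  have hle : ∀ θ ∈ Ioc (-Real.pi) Real.pi, Real.log ‖f (circleMap c R θ)‖ ≤
      b * L + E.indicator (fun _ => A * L) θ := by
    intro θ hθ
    by_cases h : θ ∈ E
    · rw [indicator_of_mem h]
      rcases eq_or_lt_of_le (norm_nonneg (f (circleMap c R θ))) with h8 | h8
      · rw [← h8, Real.log_zero]; positivity
      · have := (Real.log_le_iff_le_exp h8).2 (hup _ (hsph θ))
        linarith
    · rw [indicator_of_notMem h, add_zero]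
      have h9 : ‖f (circleMap c R θ)‖ < Real.exp (b * L) := by
        by_contra hcon
        push Not at hcon
        exact h ⟨hθ, hcon⟩
      rcases eq_or_lt_of_le (norm_nonneg (f (circleMap c R θ))) with h8 | h8
      · rw [← h8, Real.log_zero]; exact hbL
      · exact (Real.log_le_iff_le_exp h8).2 h9.le
  have hpp : -Real.pi ≤ Real.pi := by linarith [Real.pi_pos]
  have h5 : ∫ θ in (-Real.pi)..Real.pi, Real.log ‖f (circleMap c R θ)‖ ≤
      b * L * (2 * Real.pi) + A * L * (volume E).toReal := by
    rw [intervalIntegral.integral_of_le hpp]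
    have hi1 : IntegrableOn (fun θ : ℝ => Real.log ‖f (circleMap c R θ)‖)
        (Ioc (-Real.pi) Real.pi) volume := (intervalIntegrable_iff_integrableOn_Ioc_of_le hpp).1 hint'
    have hi2 : IntegrableOn (fun θ : ℝ => b * L + E.indicator (fun _ => A * L) θ)
        (Ioc (-Real.pi) Real.pi) volume := by
      apply Integrable.add
      · exact integrableOn_const (by rw [Real.volume_Ioc]; exact ENNReal.ofReal_ne_top)
      · apply IntegrableOn.integrable
        exact ((integrableOn_const (by
          rw [Real.volume_Ioc]; exact ENNReal.ofReal_ne_top)).integrable).indicator hEm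
    calc ∫ θ in Ioc (-Real.pi) Real.pi, Real.log ‖f (circleMap c R θ)‖
        ≤ ∫ θ in Ioc (-Real.pi) Real.pi, (b * L + E.indicator (fun _ => A * L) θ) :=
          setIntegral_mono_on hi1 hi2 measurableSet_Ioc hle
      _ = b * L * (2 * Real.pi) + A * L * (volume E).toReal := by
          rw [integral_add]
          · rw [setIntegral_const, setIntegral_indicator hEm, setIntegral_const,
              inter_eq_self_of_subset_right hEsub]
            simp only [Measure.real, Real.volume_Ioc, smul_eq_mul, sub_neg_eq_add]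
            rw [ENNReal.toReal_ofReal (by linarith)]
            ring
          · exact integrableOn_const (by rw [Real.volume_Ioc]; exact ENNReal.ofReal_ne_top)
          · exact ((integrableOn_const (by
              rw [Real.volume_Ioc]; exact ENNReal.ofReal_ne_top)).integrable).indicator hEm
  have h6 : 2 * Real.pi * ((a - b) / A) ≤ (volume E).toReal := by
    have h7 : a * L * (2 * Real.pi) ≤ b * L * (2 * Real.pi) + A * L * (volume E).toReal :=
      h4.trans h5
    have h8 : (a - b) * (2 * Real.pi) ≤ A * (volume E).toReal := by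
      have : L * ((a - b) * (2 * Real.pi)) ≤ L * (A * (volume E).toReal) := by nlinarith
      exact le_of_mul_le_mul_left this hL
    rw [mul_div_assoc', div_le_iff₀ hA]
    linarith
  calc ENNReal.ofReal (2 * Real.pi * ((a - b) / A)) ≤ ENNReal.ofReal (volume E).toReal :=
        ENNReal.ofReal_le_ofReal h6
    _ = volume E := ENNReal.ofReal_toReal hEfin

/-- a large value at the centre of a disc gives large values on a set of positive area -/
theorem area_large {f : ℂ → ℂ} {c : ℂ} {r L a b A : ℝ} (hr : 0 < r)
    (hf : AnalyticOnNhd ℂ f (closedBall c r)) (hL : 0 < L) (hb : 0 ≤ b) (hA : 0 < A)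
    (hab : b ≤ a)
    (h0 : Real.exp (a * L) ≤ ‖f c‖) (hup : ∀ z ∈ closedBall c r, ‖f z‖ ≤ Real.exp (A * L)) :
    ENNReal.ofReal (Real.pi * ((a - b) / A) * r ^ 2) ≤
      volume {z : ℂ | z ∈ closedBall c r ∧ Real.exp (b * L) ≤ ‖f z‖} := by
  set E : Set ℂ := {z : ℂ | z ∈ closedBall c r ∧ Real.exp (b * L) ≤ ‖f z‖} with hE
  have hEcl : IsClosed E := by
    have h1 : ContinuousOn (fun z => ‖f z‖) (closedBall c r) := hf.continuousOn.norm
    have h2 : E = closedBall c r ∩ (fun z => ‖f z‖) ⁻¹' (Ici (Real.exp (b * L))) := rfl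
    rw [h2]
    exact h1.preimage_isClosed_of_isClosed isClosed_closedBall isClosed_Ici
  have hEm : MeasurableSet E := hEcl.measurableSet
  have hτ : 0 ≤ 2 * Real.pi * ((a - b) / A) := by
    have : 0 ≤ (a - b) / A := div_nonneg (by linarith) hA.le
    positivity
  -- polar coordinates
  have h1 : volume E = ∫⁻ z : ℂ, E.indicator (fun _ => (1 : ENNReal)) (c + z) := by
    have h2 : ∫⁻ z : ℂ, E.indicator (fun _ => (1 : ENNReal)) (c + z) =
        ∫⁻ z : ℂ, E.indicator (fun _ => (1 : ENNReal)) z :=
      lintegral_add_left_eq_self (fun z => E.indicator (fun _ => (1 : ENNReal)) z) c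
    rw [h2, lintegral_indicator hEm, setLIntegral_const, one_mul]
  rw [h1, ← Complex.lintegral_comp_polarCoord_symm]
  have hmeas : Measurable (fun p : ℝ × ℝ => ENNReal.ofReal p.1 •
      E.indicator (fun _ => (1 : ENNReal)) (c + Complex.polarCoord.symm p)) := by
    have h3 : Measurable (fun p : ℝ × ℝ => c + Complex.polarCoord.symm p) := by
      have h4 : Continuous (fun p : ℝ × ℝ => c + Complex.polarCoord.symm p) := by
        have : (fun p : ℝ × ℝ => c + Complex.polarCoord.symm p) =
            fun p : ℝ × ℝ => c + (p.1 : ℂ) * ((Real.cos p.2 : ℂ) + (Real.sin p.2 : ℂ) * I) := by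
          funext p
          rw [Complex.polarCoord_symm_apply]
        rw [this]
        fun_prop
      exact h4.measurable
    exact (measurable_fst.ennreal_ofReal).smul
      ((measurable_const.indicator hEm).comp h3)
  have hsub : (Ioc 0 r) ×ˢ (Ioo (-Real.pi) Real.pi) ⊆ polarCoord.target := by
    rintro ⟨x, y⟩ ⟨h2, h3⟩
    exact ⟨h2.1, h3⟩
  refine le_trans ?_ (lintegral_mono_set hsub)
  rw [Measure.volume_eq_prod, ← Measure.prod_restrict, lintegral_prod _ hmeas.aemeasurable]
  have hinner : ∀ R ∈ Ioc (0 : ℝ) r, ENNReal.ofReal R * ENNReal.ofReal (2 * Real.pi * ((a - b) / A)) ≤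
      ∫⁻ y in Ioo (-Real.pi) Real.pi, ENNReal.ofReal (R, y).1 •
        E.indicator (fun _ => (1 : ENNReal)) (c + Complex.polarCoord.symm (R, y)) := by
    intro R hR
    simp only [smul_eq_mul]
    rw [lintegral_const_mul']
    · gcongr
      have hRr : closedBall c R ⊆ closedBall c r := closedBall_subset_closedBall hR.2
      refine (circle_large hR.1 (hf.mono hRr) hL hb hA h0 (fun z hz => hup z (hRr hz))).trans ?_
      have h5 : ∀ θ : ℝ, c + Complex.polarCoord.symm (R, θ) = circleMap c R θ := by
        intro θ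
        rw [Complex.polarCoord_symm_apply, circleMap, Complex.exp_mul_I]
        push_cast
        rfl
      have h6 : ∫⁻ y in Ioo (-Real.pi) Real.pi,
          E.indicator (fun _ => (1 : ENNReal)) (c + Complex.polarCoord.symm (R, y)) =
          ∫⁻ y in Ioc (-Real.pi) Real.pi,
          E.indicator (fun _ => (1 : ENNReal)) (c + Complex.polarCoord.symm (R, y)) := by
        rw [Measure.restrict_congr_set Ioo_ae_eq_Ioc]
      rw [h6]
      simp_rw [h5]
      have h7 : ∀ y : ℝ, E.indicator (fun _ => (1 : ENNReal)) (circleMap c R y) =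
          {θ : ℝ | Real.exp (b * L) ≤ ‖f (circleMap c R θ)‖}.indicator (fun _ => (1 : ENNReal)) y := by
        intro y
        by_cases h : Real.exp (b * L) ≤ ‖f (circleMap c R y)‖
        · rw [indicator_of_mem (show circleMap c R y ∈ E from
            ⟨hRr (sphere_subset_closedBall (circleMap_mem_sphere c hR.1.le y)), h⟩),
            indicator_of_mem (show y ∈ {θ : ℝ | Real.exp (b * L) ≤ ‖f (circleMap c R θ)‖} from h)]
        · rw [indicator_of_notMem (show circleMap c R y ∉ E from fun h' => h h'.2),
            indicator_of_notMem (show y ∉ {θ : ℝ | Real.exp (b * L) ≤ ‖f (circleMap c R θ)‖} from h)]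
      simp_rw [h7]
      have hcont : Continuous (fun θ : ℝ => f (circleMap c R θ)) := by
        rw [continuous_iff_continuousAt]
        intro θ
        exact ContinuousAt.comp (f := fun θ : ℝ => circleMap c R θ)
          (hf _ (hRr (sphere_subset_closedBall (circleMap_mem_sphere c hR.1.le θ)))).continuousAt
          (continuous_circleMap c R).continuousAt
      have hm : MeasurableSet {θ : ℝ | Real.exp (b * L) ≤ ‖f (circleMap c R θ)‖} :=
        measurableSet_le measurable_const hcont.norm.measurable
      rw [lintegral_indicator hm, setLIntegral_const, one_mul, Measure.restrict_apply hm]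
      apply measure_mono
      rintro θ ⟨h8, h9⟩
      exact ⟨h9, h8⟩
    · exact ENNReal.ofReal_ne_top
  calc ENNReal.ofReal (Real.pi * ((a - b) / A) * r ^ 2)
      = ∫⁻ R in Ioc (0 : ℝ) r, ENNReal.ofReal R * ENNReal.ofReal (2 * Real.pi * ((a - b) / A)) := by
        rw [lintegral_mul_const' _ _ ENNReal.ofReal_ne_top]
        have h8 : ∫⁻ R in Ioc (0 : ℝ) r, ENNReal.ofReal R = ENNReal.ofReal (r ^ 2 / 2) := by
          rw [← ofReal_integral_eq_lintegral_ofReal]
          · rw [← intervalIntegral.integral_of_le hr.le, integral_id]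
            congr 1
            ring
          · exact (intervalIntegrable_iff_integrableOn_Ioc_of_le hr.le).1
              (continuous_id.intervalIntegrable 0 r)
          · rw [EventuallyLE, ae_restrict_iff' measurableSet_Ioc]
            exact Eventually.of_forall fun x hx => hx.1.le
        rw [h8, ← ENNReal.ofReal_mul (by positivity)]
        congr 1
        ring
    _ ≤ _ := setLIntegral_mono' measurableSet_Ioc hinner

end Pool.Agent.Y751.DH
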