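import Pool.Agent.Y751.DH.Defs
import Pool.Agent.H31R2.DH.Assemble
import Pool.Agent.H388LH.ZG

set_option autoImplicit false

/-!
# Elementary facts: zeta to the right of the line `Re s = 1`, powers and logarithms, additivity of counts
-/

open Complex MeasureTheory Set Filter Topology

namespace Pool.Agent.Y751.DH

/-- zeta is at most `log T + 6` to the right of the line `Re s = 1` -/
theorem zeta_right {s : ℂ} {T : ℝ} (h1 : 1 ≤ s.re) (h3 : s.re ≤ 2) (h2 : 1 ≤ s.im) (hT : s.im ≤ T) :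
    ‖riemannZeta s‖ ≤ Real.log T + 8 := by
  have hs0 : 0 < s.re := by linarith
  have hs1 : s ≠ 1 := by
    intro h; rw [h] at h2; norm_num at h2
  have hT1 : 1 ≤ T := h2.trans hT
  set N : ℕ := ⌊T⌋₊ with hN
  have hN1 : 1 ≤ N := by rw [hN]; exact Nat.one_le_floor_iff _ |>.2 hT1
  have hNr : (1 : ℝ) ≤ N := by exact_mod_cast hN1
  have hN0 : (0 : ℝ) < N := by linarith
  have hNT : (N : ℝ) ≤ T := Nat.floor_le (by linarith)
  have hTN : T ≤ 2 * N := by
    have := (Nat.lt_floor_add_one T).le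
    rw [← hN] at this
    linarith
  rw [ZU.J_a1.zeta_formula N hN1 s hs0 hs1]
  have hA : ‖ZU.DN N s‖ ≤ 1 + Real.log N := by
    unfold ZU.DN
    refine (norm_sum_le _ _).trans ?_
    have h4 : ∀ n ∈ Finset.Icc 1 N, ‖(n : ℂ) ^ (-s)‖ ≤ (n : ℝ)⁻¹ := by
      intro n hn
      rw [Finset.mem_Icc] at hn
      have hn0 : (0 : ℝ) < n := by exact_mod_cast hn.1
      have hn1 : (1 : ℝ) ≤ n := by exact_mod_cast hn.1
      rw [Complex.norm_natCast_cpow_of_pos (by omega), ← Real.rpow_neg_one]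
      apply Real.rpow_le_rpow_of_exponent_le hn1
      simp; exact h1
    refine (Finset.sum_le_sum h4).trans ?_
    have h5 := harmonic_le_one_add_log N
    have h6 : ((harmonic N : ℚ) : ℝ) = ∑ n ∈ Finset.Icc 1 N, ((n : ℝ))⁻¹ := by
      rw [harmonic_eq_sum_Icc]
      push_cast
      rfl
    rw [← h6]; exact h5
  have hB : ‖(N : ℂ) ^ (1 - s) / (s - 1)‖ ≤ 1 := by
    rw [norm_div, Complex.norm_natCast_cpow_of_pos (by omega)]
    have h4 : 1 ≤ ‖s - 1‖ := by
      have := Complex.im_le_norm (s - 1)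
      simp at this
      linarith
    have h5 : (N : ℝ) ^ (1 - s).re ≤ 1 := by
      apply Real.rpow_le_one_of_one_le_of_nonpos hNr
      simp; exact h1
    rw [div_le_one (by linarith)]
    linarith
  have hC : ‖s * ∫ u in Ioi (N : ℝ), ((Int.fract u : ℝ) : ℂ) * (u : ℂ) ^ (-s - 1)‖ ≤ 4 := by
    have h4 : ‖∫ u in Ioi (N : ℝ), ((Int.fract u : ℝ) : ℂ) * (u : ℂ) ^ (-s - 1)‖ ≤ 1 / N := by
      have h5 : ∫ u in Ioi (N : ℝ), (u : ℝ) ^ (-2 : ℝ) = 1 / N := by
        rw [integral_Ioi_rpow_of_lt (by norm_num) hN0]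
        norm_num
        rw [Real.rpow_neg_one]
      rw [← h5]
      apply norm_integral_le_of_norm_le
      · exact integrableOn_Ioi_rpow_of_lt (by norm_num) hN0
      · rw [ae_restrict_iff' measurableSet_Ioi]
        refine Filter.Eventually.of_forall (fun u hu => ?_)
        have hu1 : (1 : ℝ) ≤ u := hNr.trans (le_of_lt hu)
        have hu0 : (0 : ℝ) < u := by linarith
        rw [norm_mul, Complex.norm_real, Real.norm_eq_abs, Int.abs_fract,
          Complex.norm_cpow_eq_rpow_re_of_pos hu0]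
        have h6 : (-s - 1).re ≤ -2 := by simp; linarith
        calc Int.fract u * u ^ (-s - 1).re ≤ 1 * u ^ (-2 : ℝ) := by
              apply mul_le_mul (Int.fract_lt_one u).le
                (Real.rpow_le_rpow_of_exponent_le hu1 h6) (by positivity) zero_le_one
          _ = _ := one_mul _
    have h7 : ‖s‖ ≤ 4 * N := by
      have h8 : ‖s‖ ≤ |s.re| + |s.im| := Complex.norm_le_abs_re_add_abs_im s
      rw [abs_of_pos hs0, abs_of_pos (by linarith)] at h8
      linarith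
    rw [norm_mul]
    calc ‖s‖ * _ ≤ (4 * N) * (1 / N) := by gcongr
      _ = 4 := by field_simp
  have hlog : Real.log N ≤ Real.log T := Real.log_le_log hN0 hNT
  calc _ ≤ ‖ZU.DN N s + (N : ℂ) ^ (1 - s) / (s - 1)‖ +
        ‖s * ∫ u in Ioi (N : ℝ), ((Int.fract u : ℝ) : ℂ) * (u : ℂ) ^ (-s - 1)‖ := norm_sub_le _ _
    _ ≤ (‖ZU.DN N s‖ + ‖(N : ℂ) ^ (1 - s) / (s - 1)‖) + 4 := by
        gcongr
        exact norm_add_le _ _
    _ ≤ (1 + Real.log N + 1) + 4 := by gcongr
    _ ≤ _ := by linarith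

/-- the set of zeros counted by `N` -/
def zs (σ a b : ℝ) : Set ℂ := {s : ℂ | riemannZeta s = 0 ∧ σ ≤ s.re ∧ a < s.im ∧ s.im ≤ b}

theorem zs_finite (σ a b : ℝ) : (zs σ a b).Finite :=
  (DH31.finite_region σ a b).subset fun _ h => ⟨h.1, h.2.1, h.2.2.1.le, h.2.2.2⟩

theorem N_eq (σ a b : ℝ) : N σ a b = DH31.cnt (zs σ a b) := rfl

theorem N_anti {σ σ' a b : ℝ} (h : σ' ≤ σ) : N σ a b ≤ N σ' a b :=
  DH31.cnt_mono (zs_finite _ _ _) fun _ hs => ⟨hs.1, h.trans hs.2.1, hs.2.2⟩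

theorem N_mono {σ a b a' b' : ℝ} (h : a' ≤ a) (h' : b ≤ b') : N σ a b ≤ N σ a' b' :=
  DH31.cnt_mono (zs_finite _ _ _) fun _ hs =>
    ⟨hs.1, hs.2.1, lt_of_le_of_lt h hs.2.2.1, hs.2.2.2.trans h'⟩

theorem N_add {σ a b c : ℝ} (h : a ≤ b) (h' : b ≤ c) : N σ a c = N σ a b + N σ b c := by
  rw [N_eq, N_eq, N_eq, DH31.cnt_eq (zs_finite _ _ _), DH31.cnt_eq (zs_finite _ _ _),
    DH31.cnt_eq (zs_finite _ _ _)]
  classical
  rw [← Finset.sum_union]
  · apply Finset.sum_congr _ fun _ _ => rfl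
    ext s
    simp only [Finset.mem_union, Set.Finite.mem_toFinset, zs, mem_setOf_eq]
    constructor
    · rintro ⟨h1, h2, h3, h4⟩
      rcases le_or_gt s.im b with h5 | h5
      · exact Or.inl ⟨h1, h2, h3, h5⟩
      · exact Or.inr ⟨h1, h2, h5, h4⟩
    · rintro (⟨h1, h2, h3, h4⟩ | ⟨h1, h2, h3, h4⟩)
      · exact ⟨h1, h2, h3, h4.trans h'⟩
      · exact ⟨h1, h2, lt_of_le_of_lt h h3, h4⟩
  · rw [Finset.disjoint_left]
    intro s h1 h2
    rw [Set.Finite.mem_toFinset] at h1 h2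
    have := h1.2.2.2
    have := h2.2.2.1
    linarith

theorem N_sum (σ : ℝ) (m : ℕ) : N σ 0 m = ∑ n ∈ Finset.range m, N σ n (n + 1) := by
  induction m with
  | zero =>
    have : zs σ 0 ((0 : ℕ) : ℝ) = ∅ := by
      ext s
      simp only [zs, mem_setOf_eq, mem_empty_iff_false, iff_false, Nat.cast_zero]
      rintro ⟨_, _, h1, h2⟩
      linarith
    rw [N_eq, this, Finset.range_zero, Finset.sum_empty]
    simp [DH31.cnt]
  | succ m ih =>
    rw [Finset.sum_range_succ, ← ih]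
    push_cast
    exact N_add (Nat.cast_nonneg m) (by linarith)

/-- the trivial bound for the number of zeros -/
theorem N_trivial : ∃ C : ℝ, 0 < C ∧ ∀ T : ℝ, 3 ≤ T → ∀ σ : ℝ, 1 / 2 ≤ σ →
    (N σ 0 T : ℝ) ≤ C * T * Real.log T := by
  obtain ⟨C, hC, h⟩ := DH31.windows_to_count
  refine ⟨3 * C, by positivity, fun T hT σ hσ => ?_⟩
  have hlog : 1 ≤ Real.log T := by
    rw [Real.le_log_iff_exp_le (by linarith)]
    linarith [Real.exp_one_lt_d9]
  have h1 := h T hT (zs σ 0 T) (fun s hs => ⟨hs.1, hσ.trans hs.2.1, hs.2.2.1, hs.2.2.2⟩)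
    (Finset.range (⌊T⌋₊ + 1)) (by
      intro s hs h3
      refine ⟨⌈s.im⌉₊ - 1, ?_, ?_, ?_⟩
      · rw [Finset.mem_range]
        have h4 : ⌈s.im⌉₊ ≤ ⌊T⌋₊ + 1 := by
          have : ⌈s.im⌉₊ ≤ ⌈T⌉₊ := Nat.ceil_mono hs.2.2.2
          exact this.trans (Nat.ceil_le_floor_add_one T)
        have h5 : 1 ≤ ⌈s.im⌉₊ := Nat.one_le_iff_ne_zero.2 (by
          intro h; rw [Nat.ceil_eq_zero] at h; linarith)
        omega
      · have h5 : 1 ≤ ⌈s.im⌉₊ := Nat.one_le_iff_ne_zero.2 (by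
          intro h; rw [Nat.ceil_eq_zero] at h; linarith)
        have h6 := Nat.ceil_lt_add_one (show 0 ≤ s.im by linarith)
        rw [Nat.cast_sub h5]
        push_cast
        linarith
      · have h5 : 1 ≤ ⌈s.im⌉₊ := Nat.one_le_iff_ne_zero.2 (by
          intro h; rw [Nat.ceil_eq_zero] at h; linarith)
        rw [Nat.cast_sub h5]
        have h6 := Nat.le_ceil s.im
        push_cast
        linarith)
  rw [N_eq]
  refine h1.trans ?_
  rw [Finset.card_range]
  push_cast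
  have h2 : (⌊T⌋₊ : ℝ) ≤ T := Nat.floor_le (by linarith)
  have h3 : (⌊T⌋₊ : ℝ) * (C * Real.log T) ≤ T * (C * Real.log T) := by gcongr
  have h4 : C ≤ C * T * Real.log T := by
    have : 1 ≤ T * Real.log T := by nlinarith
    nlinarith
  have h5 : C * Real.log T ≤ C * T * Real.log T := by
    have : Real.log T ≤ T * Real.log T := by nlinarith
    nlinarith
  nlinarith

/-- a power of the logarithm is smaller than every power -/
theorem ev_pow (A : ℝ) (k : ℕ) {ε : ℝ} (hε : 0 < ε) :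
    ∀ᶠ T : ℝ in atTop, A * Real.log T ^ k ≤ T ^ ε := by
  have h : (fun x : ℝ => Real.log x ^ (k : ℝ)) =o[atTop] fun x => x ^ ε :=
    isLittleO_log_rpow_rpow_atTop k hε
  have h1 := h.bound (show 0 < (|A| + 1)⁻¹ by positivity)
  filter_upwards [h1, eventually_ge_atTop 1] with T hT hT1
  rw [Real.rpow_natCast] at hT
  have hl : 0 ≤ Real.log T := Real.log_nonneg hT1
  rw [Real.norm_of_nonneg (by positivity), Real.norm_of_nonneg (by positivity), inv_mul_eq_div,
    le_div_iff₀ (by positivity)] at hT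
  have : A * Real.log T ^ k ≤ (|A| + 1) * Real.log T ^ k := by
    have := le_abs_self A
    gcongr
    linarith
  linarith

end Pool.Agent.Y751.DH
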