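import Mathlib

set_option autoImplicit false

/-!
# Zero density, dense clusters of zeros, and large values of zeta: definitions
-/

open Complex MeasureTheory Set

namespace Pool.Agent.Y751.DH

/-- the number of zeros of zeta, counted with multiplicity, with real part at least `σ` and
ordinate in `(a, b]` -/
noncomputable def N (σ a b : ℝ) : ℕ :=
  ∑ᶠ s ∈ {s : ℂ | riemannZeta s = 0 ∧ σ ≤ s.re ∧ a < s.im ∧ s.im ≤ b},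
    analyticOrderNatAt riemannZeta s

/-- the smoothed zeta polynomial `∑_{m ≥ 1} m^{-it} e^{-m/M}` of length `M` -/
noncomputable def F (M t : ℝ) : ℂ :=
  ∑' m : ℕ, (Real.exp (-((m + 1) / M)) : ℂ) * ((m : ℂ) + 1) ^ (-(t * I))

/-- zero density: `N(σ, T) = O(T^(φ(σ) + ε))`, uniformly in `1/2 ≤ σ ≤ 1`, for every `ε > 0` -/
def ZeroDensity (φ : ℝ → ℝ) : Prop :=
  ∀ ε : ℝ, 0 < ε → ∃ C : ℝ, 0 < C ∧ ∃ T₀ : ℝ, ∀ T : ℝ, T₀ ≤ T → ∀ σ : ℝ, 1 / 2 ≤ σ → σ ≤ 1 →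
    (N σ 0 T : ℝ) ≤ C * T ^ (φ σ + ε)

/-- the number of the unit intervals `(n, n+1]`, `n + 1 ≤ T`, which contain the ordinates of at
least `η log T` zeros with real part at least `σ` is `O(T^(φ(σ) + ε))` -/
def ClusterDensity (φ : ℝ → ℝ) : Prop :=
  ∀ ε : ℝ, 0 < ε → ∀ η : ℝ, 0 < η → ∃ C : ℝ, 0 < C ∧ ∃ T₀ : ℝ, ∀ T : ℝ, T₀ ≤ T →
    ∀ σ : ℝ, 1 / 2 ≤ σ → σ ≤ 1 →
      (((Finset.range ⌊T⌋₊).filter (fun n : ℕ => η * Real.log T ≤ N σ n (n + 1))).card : ℝ) ≤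
        C * T ^ (φ σ + ε)

open Classical in
/-- for every `δ > 0` the number of the `n < T` such that `T^(-δ) ≤ |ζ(s)| ≤ T^δ` fails for some `s` with
real part at least `σ` and ordinate in `[n, n+1]` is `O(T^(φ(σ) + ε))` -/
def LogDensity (φ : ℝ → ℝ) : Prop :=
  ∀ ε : ℝ, 0 < ε → ∀ δ : ℝ, 0 < δ → ∃ C : ℝ, 0 < C ∧ ∃ T₀ : ℝ, ∀ T : ℝ, T₀ ≤ T →
    ∀ σ : ℝ, 1 / 2 ≤ σ → σ ≤ 1 →
      (((Finset.range ⌊T⌋₊).filter (fun n : ℕ => ∃ s : ℂ, σ ≤ s.re ∧ (n : ℝ) ≤ s.im ∧ s.im ≤ n + 1 ∧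
        ¬ (T ^ (-δ) ≤ ‖riemannZeta s‖ ∧ ‖riemannZeta s‖ ≤ T ^ δ))).card : ℝ) ≤ C * T ^ (φ σ + ε)

/-- the measure of the set of `t ∈ [0, T]` with `|ζ(σ + it)| ≥ T^δ` is `O(T^(φ(σ) + ε))` -/
def LargeZeta (φ : ℝ → ℝ) : Prop :=
  ∀ ε : ℝ, 0 < ε → ∀ δ : ℝ, 0 < δ → ∃ C : ℝ, 0 < C ∧ ∃ T₀ : ℝ, ∀ T : ℝ, T₀ ≤ T →
    ∀ σ : ℝ, 1 / 2 ≤ σ → σ ≤ 1 →
      volume {t : ℝ | 0 ≤ t ∧ t ≤ T ∧ T ^ δ ≤ ‖riemannZeta (σ + t * I)‖} ≤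
        ENNReal.ofReal (C * T ^ (φ σ + ε))

/-- the number of the points of a `1`-separated set in `[0, T]` at which, for some
`T^δ ≤ M ≤ T^2`, the smoothed zeta polynomial of length `M` is at least `M^σ` in modulus is
`O(T^(φ(σ) + ε))` -/
def LargePoly (φ : ℝ → ℝ) : Prop :=
  ∀ ε : ℝ, 0 < ε → ∀ δ : ℝ, 0 < δ → ∃ C : ℝ, 0 < C ∧ ∃ T₀ : ℝ, ∀ T : ℝ, T₀ ≤ T →
    ∀ σ : ℝ, 1 / 2 ≤ σ → σ ≤ 1 → ∀ S : Finset ℝ,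
      (∀ t ∈ S, ∀ u ∈ S, t ≠ u → 1 ≤ |t - u|) →
      (∀ t ∈ S, 0 ≤ t ∧ t ≤ T ∧ ∃ M : ℝ, T ^ δ ≤ M ∧ M ≤ T ^ 2 ∧ M ^ σ ≤ ‖F M t‖) →
      (S.card : ℝ) ≤ C * T ^ (φ σ + ε)

end Pool.Agent.Y751.DH
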