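import Pool.Agent.Y751.DH.Win
import Pool.Agent.H31R2.DH.BackZeta
import Pool.Agent.H31R2.DH.CountB

set_option autoImplicit false

/-!
# Zero density, dense clusters of zeros, large values of zeta
-/

open Complex MeasureTheory Set Filter Topology Metric

namespace Pool.Agent.Y751.DH

theorem unif {φ : ℝ → ℝ} (hc : ContinuousOn φ (Icc (1 / 2) 1)) {ε : ℝ} (hε : 0 < ε) :
    ∃ δ : ℝ, 0 < δ ∧ ∀ x ∈ Icc (1 / 2 : ℝ) 1, ∀ y ∈ Icc (1 / 2 : ℝ) 1, |x - y| < δ →
      |φ x - φ y| < ε := by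
  have h := isCompact_Icc.uniformContinuousOn_of_continuous hc
  rw [Metric.uniformContinuousOn_iff] at h
  obtain ⟨δ, hδ, h1⟩ := h ε hε
  refine ⟨δ, hδ, fun x hx y hy hxy => ?_⟩
  have := h1 x hx y hy (by rw [Real.dist_eq]; exact hxy)
  rwa [Real.dist_eq] at this

theorem log_two_mul {T : ℝ} (hT : 2 ≤ T) : Real.log (2 * T) ≤ 2 * Real.log T := by
  calc Real.log (2 * T) ≤ Real.log (T ^ 2) := Real.log_le_log (by linarith) (by nlinarith)
    _ = 2 * Real.log T := by rw [Real.log_pow]; norm_num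

/-- zero density bounds the number of the dense clusters -/
theorem zd_cd {φ : ℝ → ℝ} (h : ZeroDensity φ) : ClusterDensity φ := by
  intro ε hε η hη
  obtain ⟨C, hC, T₀, h1⟩ := h ε hε
  refine ⟨C / η, by positivity, max T₀ 3, fun T hT σ hσ1 hσ2 => ?_⟩
  have hT₀ : T₀ ≤ T := (le_max_left _ _).trans hT
  have hT3 : 3 ≤ T := (le_max_right _ _).trans hT
  have hlog : 1 ≤ Real.log T := by
    rw [Real.le_log_iff_exp_le (by linarith)]
    linarith [Real.exp_one_lt_d9]
  have h2 := h1 T hT₀ σ hσ1 hσ2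
  have h3 : (N σ 0 ((⌊T⌋₊ : ℕ) : ℝ) : ℝ) ≤ N σ 0 T := by
    exact_mod_cast N_mono le_rfl (Nat.floor_le (by linarith))
  rw [N_sum] at h3
  push_cast at h3
  have h4 : (((Finset.range ⌊T⌋₊).filter (fun n : ℕ => η * Real.log T ≤ N σ n (n + 1))).card : ℝ) *
      (η * Real.log T) ≤ ∑ n ∈ Finset.range ⌊T⌋₊, (N σ n (n + 1) : ℝ) := by
    rw [← nsmul_eq_mul, ← Finset.sum_const]
    refine le_trans (Finset.sum_le_sum (fun n hn => (Finset.mem_filter.1 hn).2)) ?_
    exact Finset.sum_le_sum_of_subset_of_nonneg (Finset.filter_subset _ _)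
      (fun _ _ _ => Nat.cast_nonneg _)
  have h5 : (((Finset.range ⌊T⌋₊).filter
      (fun n : ℕ => η * Real.log T ≤ N σ n (n + 1))).card : ℝ) * η ≤ C * T ^ (φ σ + ε) := by
    refine le_trans ?_ ((h4.trans h3).trans h2)
    have h6 : (0 : ℝ) ≤ (((Finset.range ⌊T⌋₊).filter
      (fun n : ℕ => η * Real.log T ≤ N σ n (n + 1))).card : ℝ) := Nat.cast_nonneg _
    have h7 : η ≤ η * Real.log T := by nlinarith
    exact mul_le_mul_of_nonneg_left h7 h6
  rw [div_mul_eq_mul_div, le_div_iff₀ hη]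
  exact h5

/-- dense clusters bound the large values of zeta (after Backlund) -/
theorem cd_lz {φ : ℝ → ℝ} (hc : ContinuousOn φ (Icc (1 / 2) 1)) (hφ : AntitoneOn φ (Icc (1 / 2) 1))
    (hlow : ∀ σ ∈ Icc (1 / 2 : ℝ) 1, 2 * (1 - σ) ≤ φ σ) (hB : ClusterDensity φ) : LargeZeta φ := by
  intro ε hε δ hδ
  obtain ⟨δ₁, hδ₁, hu⟩ := unif hc (show 0 < ε / 4 by positivity)
  set r : ℝ := min (δ₁ / 3) (1 / 12) with hr
  have hr0 : 0 < r := lt_min (by positivity) (by norm_num)
  have hr1 : r ≤ 1 / 12 := min_le_right _ _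
  have hr2 : 2 * r < δ₁ := by
    have : r ≤ δ₁ / 3 := min_le_left _ _
    linarith
  obtain ⟨η', hη', T₁, hT₁⟩ := DH31.backlund_zeta hr0 hr1 (show 0 < δ / 2 by positivity)
  obtain ⟨C₂, hC₂, T₂, hT₂⟩ := hB (ε / 2) (by positivity) (η' / 8) (by positivity)
  set K : ℝ := (2 : ℝ) ^ (|φ (1 / 2)| + |ε / 2|) with hK
  have hK0 : 0 < K := by positivity
  refine ⟨1 + 5 + 6 * (C₂ * K), by positivity, max (max T₁ T₂) 4, ?_⟩
  intro T hT σ hσ1 hσ2
  have hTT₁ : T₁ ≤ T := (le_max_left _ _).trans ((le_max_left _ _).trans hT)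
  have hTT₂ : T₂ ≤ T := (le_max_right _ _).trans ((le_max_left _ _).trans hT)
  have hT4 : 4 ≤ T := (le_max_right _ _).trans hT
  have hT0 : 0 < T := by linarith
  have hTone : 1 ≤ T := by linarith
  have hσ : σ ∈ Icc (1 / 2 : ℝ) 1 := ⟨hσ1, hσ2⟩
  have hφ0 : 0 ≤ φ σ := le_trans (by linarith) (hlow σ hσ)
  have hpow1 : 1 ≤ T ^ (φ σ + ε) := Real.one_le_rpow hTone (by linarith)
  rcases lt_or_ge σ (1 / 2 + 2 * r) with hcase | hcase
  · -- near the critical line
    have h1 := hu (1 / 2) ⟨le_rfl, by norm_num⟩ σ hσ (by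
      rw [abs_sub_comm, abs_of_nonneg (by linarith)]; linarith)
    have h2 := hlow (1 / 2) ⟨le_rfl, by norm_num⟩
    have h3 : 1 ≤ φ σ + ε := by
      have := (abs_lt.1 h1).2
      linarith
    have h4 : {t : ℝ | 0 ≤ t ∧ t ≤ T ∧ T ^ δ ≤ ‖riemannZeta (σ + t * I)‖} ⊆ Icc 0 T :=
      fun t ht => ⟨ht.1, ht.2.1⟩
    refine (measure_mono h4).trans ?_
    rw [Real.volume_Icc, sub_zero]
    apply ENNReal.ofReal_le_ofReal
    calc T = 1 * T ^ (1 : ℝ) := by rw [Real.rpow_one, one_mul]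
      _ ≤ (1 + 5 + 6 * (C₂ * K)) * T ^ (φ σ + ε) := by
          have h5 : T ^ (1 : ℝ) ≤ T ^ (φ σ + ε) := Real.rpow_le_rpow_of_exponent_le hTone h3
          have h6 : 0 ≤ 5 + 6 * (C₂ * K) := by positivity
          have h7 : 0 < T ^ (φ σ + ε) := by positivity
          nlinarith
  · -- the clusters
    have hσr : σ - 2 * r ∈ Icc (1 / 2 : ℝ) 1 := ⟨by linarith, by linarith⟩
    set G : Finset ℕ := (Finset.range ⌊2 * T⌋₊).filter (fun n : ℕ =>
      η' / 8 * Real.log (2 * T) ≤ N (σ - 2 * r) n (n + 1)) with hG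
    have hGc := hT₂ (2 * T) (by linarith) (σ - 2 * r) hσr.1 hσr.2
    rw [← hG] at hGc
    have hGc2 : (G.card : ℝ) ≤ C₂ * K * T ^ (φ σ + ε) := by
      refine hGc.trans ?_
      have h1 := two_pow hφ (e := ε / 2) hσr hTone
      have h2 := hu (σ - 2 * r) hσr σ hσ (by
        rw [abs_sub_comm, abs_of_nonneg (by linarith)]; linarith)
      have h3 : φ (σ - 2 * r) + ε / 2 ≤ φ σ + ε := by
        have := (abs_lt.1 h2).2
        linarith
      calc C₂ * (2 * T) ^ (φ (σ - 2 * r) + ε / 2) ≤ C₂ * (K * T ^ (φ (σ - 2 * r) + ε / 2)) := by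
            gcongr
        _ ≤ C₂ * (K * T ^ (φ σ + ε)) := by gcongr
        _ = _ := by ring
    have hsub : {t : ℝ | 0 ≤ t ∧ t ≤ T ∧ T ^ δ ≤ ‖riemannZeta (σ + t * I)‖} ⊆
        Icc 0 5 ∪ ⋃ n ∈ G, Icc ((n : ℝ) - 3) (n + 3) := by
      rintro t ⟨ht0, htT, htz⟩
      rcases le_or_gt t 5 with h5 | h5
      · exact Or.inl ⟨ht0, h5⟩
      right
      by_contra hcon
      simp only [mem_iUnion, not_exists] at hcon
      -- no cluster near t
      have hno : ∀ n : ℕ, |t - n| ≤ 3 → (n : ℝ) + 1 ≤ 2 * T →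
          (N (σ - 2 * r) n (n + 1) : ℝ) < η' / 8 * Real.log (2 * T) := by
        intro n hn1 hn2
        by_contra hc2
        push Not at hc2
        refine hcon n ?_ ?_
        · rw [hG, Finset.mem_filter, Finset.mem_range]
          refine ⟨?_, hc2⟩
          have : n + 1 ≤ ⌊2 * T⌋₊ := Nat.le_floor (by push_cast; exact hn2)
          omega
        · obtain ⟨h6, h7⟩ := abs_le.1 hn1
          exact ⟨by linarith, by linarith⟩
      have hfl : (⌊t⌋₊ : ℝ) ≤ t := Nat.floor_le (by linarith)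
      have hfl2 : t < (⌊t⌋₊ : ℝ) + 1 := Nat.lt_floor_add_one t
      have hfl3 : 5 ≤ ⌊t⌋₊ := Nat.le_floor (by push_cast; exact h5.le)
      obtain ⟨m, hm⟩ : ∃ m : ℕ, ⌊t⌋₊ = m + 2 := ⟨⌊t⌋₊ - 2, by omega⟩
      have hmr : (⌊t⌋₊ : ℝ) = m + 2 := by rw [hm]; push_cast; ring
      rw [hmr] at hfl hfl2
      have hcl := hT₁ T hTT₁ t (by linarith) htT σ hσ1 hσ2 (by
        intro S hS
        have h6 : ∑ s ∈ S, analyticOrderNatAt riemannZeta s ≤
            DH31.cnt (zs (σ - 2 * r) m (m + 4)) := by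
          refine DH31.sum_le_cnt (zs_finite _ _ _) S fun z hz => ?_
          obtain ⟨h7, h8⟩ := hS z hz
          rw [mem_closedBall, dist_eq_norm] at h7
          have h9 := (Complex.abs_re_le_norm _).trans h7
          have h10 := (Complex.abs_im_le_norm _).trans h7
          rw [sub_re] at h9
          rw [sub_im] at h10
          simp only at h9 h10
          obtain ⟨h11, h12⟩ := abs_le.1 h9
          obtain ⟨h13, h14⟩ := abs_le.1 h10
          exact ⟨h8, by linarith, by linarith, by linarith⟩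
        have h7 : ((∑ s ∈ S, analyticOrderNatAt riemannZeta s : ℕ) : ℝ) ≤
            N (σ - 2 * r) m (m + 4) := by exact_mod_cast h6
        rw [Nat.cast_sum] at h7
        refine le_trans h7 ?_
        have e1 : N (σ - 2 * r) m (m + 4) = N (σ - 2 * r) m (m + 1) +
            N (σ - 2 * r) (m + 1) (m + 2) + N (σ - 2 * r) (m + 2) (m + 3) +
            N (σ - 2 * r) (m + 3) (m + 4) := by
          rw [← N_add (by linarith) (by linarith), ← N_add (by linarith) (by linarith),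
            ← N_add (by linarith) (by linarith)]
        have g0 := hno m (by rw [abs_le]; constructor <;> linarith) (by linarith)
        have g1 := hno (m + 1) (by rw [abs_le]; push_cast; constructor <;> linarith)
          (by push_cast; linarith)
        have g2 := hno (m + 2) (by rw [abs_le]; push_cast; constructor <;> linarith)
          (by push_cast; linarith)
        have g3 := hno (m + 3) (by rw [abs_le]; push_cast; constructor <;> linarith)
          (by push_cast; linarith)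
        push_cast at g1 g2 g3
        rw [show (m : ℝ) + 1 + 1 = m + 2 by ring] at g1
        rw [show (m : ℝ) + 2 + 1 = m + 3 by ring] at g2
        rw [show (m : ℝ) + 3 + 1 = m + 4 by ring] at g3
        rw [e1]
        push_cast
        have h8 := log_two_mul (show 2 ≤ T by linarith)
        have h9 : η' / 2 * Real.log (2 * T) ≤ η' / 2 * (2 * Real.log T) := by gcongr
        linarith)
      have h6 := hcl (σ + t * I) (by
        rw [mem_closedBall, dist_eq_norm]
        have : ((σ : ℂ) + t * I) - ⟨1 + r, t⟩ = ((σ - (1 + r) : ℝ) : ℂ) := by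
          apply Complex.ext
          · simp
          · simp
        rw [this, Complex.norm_real, Real.norm_eq_abs, abs_sub_comm, abs_of_nonneg (by linarith)]
        linarith)
      have h7 : T ^ (δ / 2) < T ^ δ :=
        Real.rpow_lt_rpow_of_exponent_lt (by linarith) (by linarith)
      linarith
    refine (measure_mono hsub).trans ((measure_union_le _ _).trans ?_)
    have h8 : volume (⋃ n ∈ G, Icc ((n : ℝ) - 3) (n + 3)) ≤ ENNReal.ofReal (6 * G.card) := by
      refine (measure_biUnion_finset_le _ _).trans ?_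
      have : ∀ n ∈ G, volume (Icc ((n : ℝ) - 3) (n + 3)) = ENNReal.ofReal 6 := by
        intro n _
        rw [Real.volume_Icc]
        congr 1
        ring
      rw [Finset.sum_congr rfl this, Finset.sum_const, nsmul_eq_mul,
        ENNReal.ofReal_mul (by norm_num), mul_comm, ENNReal.ofReal_natCast]
    have h9 : volume (Icc (0 : ℝ) 5) = ENNReal.ofReal 5 := by
      rw [Real.volume_Icc, sub_zero]
    rw [h9]
    refine (add_le_add le_rfl h8).trans ?_
    rw [← ENNReal.ofReal_add (by norm_num) (by positivity)]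
    apply ENNReal.ofReal_le_ofReal
    have h10 : 6 * (G.card : ℝ) ≤ 6 * (C₂ * K * T ^ (φ σ + ε)) := by gcongr
    have h11 : 0 < T ^ (φ σ + ε) := by positivity
    nlinarith

open Classical in
/-- the large values of zeta bound the number of zeros -/
theorem lz_zd {φ : ℝ → ℝ} (hc : ContinuousOn φ (Icc (1 / 2) 1)) (hφ : AntitoneOn φ (Icc (1 / 2) 1))
    (hlow : ∀ σ ∈ Icc (1 / 2 : ℝ) 1, 2 * (1 - σ) ≤ φ σ) (hL : LargeZeta φ) : ZeroDensity φ := by
  intro ε hε
  obtain ⟨δ₁, hδ₁, hu⟩ := unif hc (show 0 < ε / 8 by positivity)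
  set r : ℝ := min (δ₁ / 3) (1 / 12) with hr
  have hr0 : 0 < r := lt_min (by positivity) (by norm_num)
  have hr1 : r ≤ 1 / 12 := min_le_right _ _
  have hr2 : 2 * r < δ₁ := by
    have : r ≤ δ₁ / 3 := min_le_left _ _
    linarith
  obtain ⟨η, hη, C₁, hC₁, T₁, hT₁⟩ := DH31.count_a hr0 hr1 (show 0 < ε / 4 by positivity)
  obtain ⟨C₂, hC₂, T₂, hT₂⟩ := win hφ hL hr0 hr1 (show 0 < η / 2 by positivity)
    (show 0 < ε / 8 by positivity)
  obtain ⟨C₃, hC₃, hT₃⟩ := DH31.windows_to_count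
  obtain ⟨C₄, hC₄, hT₄⟩ := N_trivial
  set K : ℝ := (2 : ℝ) ^ (|φ (1 / 2)| + |ε / 8|) with hK
  have hK0 : 0 < K := by positivity
  obtain ⟨T₅, hT₅⟩ := eventually_atTop.1 (ev_pow 1 1 (show (0 : ℝ) < ε / 8 by positivity))
  refine ⟨C₄ + (C₃ + (C₁ + 6 + 4 * (C₂ * K)) * C₃), by positivity,
    max (max (max T₁ T₂) T₅) 10, ?_⟩
  intro T hT σ hσ1 hσ2
  have hTT₁ : T₁ ≤ T := (le_max_left _ _).trans ((le_max_left _ _).trans ((le_max_left _ _).trans hT))
  have hTT₂ : T₂ ≤ T :=
    (le_max_right _ _).trans ((le_max_left _ _).trans ((le_max_left _ _).trans hT))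
  have hTT₅ : T₅ ≤ T := (le_max_right _ _).trans ((le_max_left _ _).trans hT)
  have hT10 : 10 ≤ T := (le_max_right _ _).trans hT
  have hT0 : 0 < T := by linarith
  have hTone : 1 ≤ T := by linarith
  have hσ : σ ∈ Icc (1 / 2 : ℝ) 1 := ⟨hσ1, hσ2⟩
  have hφ0 : 0 ≤ φ σ := le_trans (by linarith) (hlow σ hσ)
  have hlog := hT₅ T hTT₅
  rw [one_mul, pow_one] at hlog
  have hlog0 : 0 ≤ Real.log T := Real.log_nonneg hTone
  have hP0 : 0 < T ^ (φ σ + ε) := by positivity
  rcases lt_or_ge σ (1 / 2 + 2 * r) with hcase | hcase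
  · -- near the critical line
    have h1 := hu (1 / 2) ⟨le_rfl, by norm_num⟩ σ hσ (by
      rw [abs_sub_comm, abs_of_nonneg (by linarith)]; linarith)
    have h2 := hlow (1 / 2) ⟨le_rfl, by norm_num⟩
    have h3 : 1 + ε / 8 ≤ φ σ + ε := by
      have := (abs_lt.1 h1).2
      linarith
    have h4 := hT₄ T (by linarith) σ hσ1
    have h5 : T * Real.log T ≤ T ^ (φ σ + ε) := by
      calc T * Real.log T ≤ T ^ (1 : ℝ) * T ^ (ε / 8) := by rw [Real.rpow_one]; gcongr
        _ = T ^ (1 + ε / 8) := (Real.rpow_add hT0 _ _).symm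
        _ ≤ T ^ (φ σ + ε) := Real.rpow_le_rpow_of_exponent_le hTone h3
    have h6 : 0 ≤ C₃ + (C₁ + 6 + 4 * (C₂ * K)) * C₃ := by positivity
    have h7 : C₄ * (T * Real.log T) ≤ C₄ * T ^ (φ σ + ε) := by gcongr
    nlinarith
  · have hσr : σ - 2 * r ∈ Icc (1 / 2 : ℝ) 1 := ⟨by linarith, by linarith⟩
    -- the windows which contain a zero
    set A : Set ℂ := zs σ 0 T with hA
    have hAsub : A ⊆ DH31.zeros (1 / 2) T := fun s hs => ⟨hs.1, hσ1.trans hs.2.1, hs.2.2.1, hs.2.2.2⟩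
    set good : ℂ → Prop := fun ρ => ∀ z ∈ closedBall (⟨1 + r, ρ.im⟩ : ℂ) (1 + r - ρ.re + r),
      ‖riemannZeta z‖ ≤ T ^ η with hgood
    set P : ℕ → Prop := fun n => ∃ ρ ∈ A, 5 < ρ.im ∧ (n : ℝ) < ρ.im ∧ ρ.im ≤ n + 1 ∧ good ρ with hP
    set Q : ℕ → Prop := fun n => ∃ ρ ∈ A, 5 < ρ.im ∧ (n : ℝ) < ρ.im ∧ ρ.im ≤ n + 1 ∧ ¬ good ρ
      with hQ
    set S₁ : Finset ℕ := (Finset.range (⌊T⌋₊ + 1)).filter P with hS₁
    set S₂ : Finset ℕ := (Finset.range (⌊T⌋₊ + 1)).filter Q with hS₂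
    have hre : ∀ ρ ∈ A, ρ.re ≤ 1 := by
      intro ρ hρ
      by_contra hcon
      push Not at hcon
      exact riemannZeta_ne_zero_of_one_le_re hcon.le hρ.1
    -- good windows
    have h1 : (S₁.card : ℝ) ≤ C₁ * T ^ (2 * (1 - σ) + ε / 4) := by
      have hSP : ∀ n ∈ S₁, P n := fun n hn => (Finset.mem_filter.1 hn).2
      choose! ρ hρA hρ5 hρn hρn1 hρg using hSP
      refine hT₁ T hTT₁ σ hσ1 hσ2 S₁ ρ fun n hn => ?_
      have h2 := hρA n hn
      exact ⟨h2.1, by linarith [hρ5 n hn], h2.2.2.2, h2.2.1, hre _ h2,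
        ⟨(hρn n hn).le, hρn1 n hn⟩, hρg n hn⟩
    -- bad windows
    have h2 : (S₂.card : ℝ) ≤ 4 * (C₂ * (2 * T) ^ (φ (σ - 2 * r) + ε / 8)) := by
      have hbad : ∀ n ∈ S₂, ∃ z : ℂ, σ - r ≤ z.re ∧ z.re ≤ 2 ∧ (n : ℝ) - 1 ≤ z.im ∧
          z.im ≤ n + 2 ∧ 4 ≤ z.im ∧ z.im ≤ 2 * T ∧ (2 * T) ^ (η / 2) ≤ ‖riemannZeta z‖ := by
        intro n hn
        obtain ⟨ρ, hρA, h5, hn1, hn2, hg⟩ := (Finset.mem_filter.1 hn).2
        simp only [hgood, not_forall, not_le] at hg
        obtain ⟨z, hz, hz2⟩ := hg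
        have hβ1 := hre ρ hρA
        have hβ2 := hρA.2.1
        have hγ := hρA.2.2.2
        rw [mem_closedBall, dist_eq_norm] at hz
        have h9 := (Complex.abs_re_le_norm _).trans hz
        have h10 := (Complex.abs_im_le_norm _).trans hz
        rw [sub_re] at h9
        rw [sub_im] at h10
        simp only at h9 h10
        obtain ⟨h11, h12⟩ := abs_le.1 h9
        obtain ⟨h13, h14⟩ := abs_le.1 h10
        refine ⟨z, by linarith, by linarith, by linarith, by linarith, by linarith,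
          by linarith, ?_⟩
        refine le_trans ?_ hz2.le
        calc (2 * T) ^ (η / 2) ≤ (T ^ (2 : ℝ)) ^ (η / 2) := by
              apply Real.rpow_le_rpow (by positivity) _ (by positivity)
              rw [Real.rpow_two]; nlinarith
          _ = T ^ η := by rw [← Real.rpow_mul hT0.le]; congr 1; ring
      choose! z hz1 hz2 hz3 hz4 hz5 hz6 hz7 using hbad
      set W : Finset ℕ := S₂.image (fun n => ⌊(z n).im⌋₊) with hW
      have hWz : ∀ m ∈ W, ∃ n ∈ S₂, ⌊(z n).im⌋₊ = m := fun m hm => by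
        rw [hW, Finset.mem_image] at hm
        exact hm
      choose! g hg1 hg2 using hWz
      have h3 := hT₂ (2 * T) (by linarith) (σ - r) (by linarith) (by linarith) W
        (fun m => z (g m)) (by
          intro m hm
          have k1 := hg1 m hm
          have k2 := hg2 m hm
          have k3 : ((⌊(z (g m)).im⌋₊ : ℕ) : ℝ) ≤ (z (g m)).im :=
            Nat.floor_le (by linarith [hz5 _ k1])
          have k4 := (Nat.lt_floor_add_one (z (g m)).im).le
          rw [k2] at k3 k4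
          exact ⟨hz1 _ k1, hz2 _ k1, k3, k4, by linarith [hz5 _ k1], hz6 _ k1, hz7 _ k1⟩)
      rw [show σ - r - r = σ - 2 * r by ring] at h3
      have h4 : S₂.card ≤ 4 * W.card := by
        refine Finset.card_le_mul_card_image (n := 4) S₂ (f := fun n => ⌊(z n).im⌋₊) ?_
        intro m hm
        have h5 : S₂.filter (fun n => ⌊(z n).im⌋₊ = m) ⊆ Finset.Icc (m - 2) (m + 1) := by
          intro n hn
          rw [Finset.mem_filter] at hn
          have k1 := hz3 n hn.1
          have k2 := hz4 n hn.1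
          have k5 := hz5 n hn.1
          have k3 : ((⌊(z n).im⌋₊ : ℕ) : ℝ) ≤ (z n).im := Nat.floor_le (by linarith)
          have k4 := Nat.lt_floor_add_one (z n).im
          rw [hn.2] at k3 k4
          rw [Finset.mem_Icc]
          constructor
          · have : (m : ℝ) ≤ ((n + 2 : ℕ) : ℝ) := by push_cast; linarith
            have : m ≤ n + 2 := by exact_mod_cast this
            omega
          · have : (n : ℝ) < ((m + 2 : ℕ) : ℝ) := by push_cast; linarith
            have : n < m + 2 := by exact_mod_cast this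
            omega
        refine (Finset.card_le_card h5).trans ?_
        rw [Nat.card_Icc]
        omega
      have h5 : (S₂.card : ℝ) ≤ 4 * W.card := by exact_mod_cast h4
      linarith
    -- all windows
    have h3 := hT₃ T (by linarith) A hAsub (S₁ ∪ S₂ ∪ Finset.range 6) (by
      intro ρ hρ h3
      have hceil : 1 ≤ ⌈ρ.im⌉₊ := Nat.one_le_iff_ne_zero.2 (by
        intro h; rw [Nat.ceil_eq_zero] at h; linarith)
      have e1 : (((⌈ρ.im⌉₊ - 1 : ℕ) : ℝ)) = (⌈ρ.im⌉₊ : ℝ) - 1 := by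
        rw [Nat.cast_sub hceil]; push_cast; ring
      have e2 := Nat.ceil_lt_add_one (show 0 ≤ ρ.im by linarith)
      have e3 := Nat.le_ceil ρ.im
      refine ⟨⌈ρ.im⌉₊ - 1, ?_, by rw [e1]; linarith, by rw [e1]; linarith⟩
      have e4 : ⌈ρ.im⌉₊ - 1 ∈ Finset.range (⌊T⌋₊ + 1) := by
        rw [Finset.mem_range]
        have h4 : ⌈ρ.im⌉₊ ≤ ⌊T⌋₊ + 1 := by
          have : ⌈ρ.im⌉₊ ≤ ⌈T⌉₊ := Nat.ceil_mono hρ.2.2.2
          exact this.trans (Nat.ceil_le_floor_add_one T)
        omega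
      rcases le_or_gt ρ.im 5 with h5 | h5
      · apply Finset.mem_union_right
        rw [Finset.mem_range]
        have : ⌈ρ.im⌉₊ ≤ 5 := Nat.ceil_le.2 (by push_cast; exact h5)
        omega
      · apply Finset.mem_union_left
        by_cases hg : good ρ
        · apply Finset.mem_union_left
          rw [hS₁, Finset.mem_filter]
          exact ⟨e4, ρ, hρ, h5, by rw [e1]; linarith, by rw [e1]; linarith, hg⟩
        · apply Finset.mem_union_right
          rw [hS₂, Finset.mem_filter]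
          exact ⟨e4, ρ, hρ, h5, by rw [e1]; linarith, by rw [e1]; linarith, hg⟩)
    rw [N_eq, ← hA]
    refine h3.trans ?_
    have h4 : (((S₁ ∪ S₂ ∪ Finset.range 6).card : ℕ) : ℝ) ≤ S₁.card + S₂.card + 6 := by
      have h5 := Finset.card_union_le (S₁ ∪ S₂) (Finset.range 6)
      have h6 := Finset.card_union_le S₁ S₂
      rw [Finset.card_range] at h5
      exact_mod_cast (by omega : (S₁ ∪ S₂ ∪ Finset.range 6).card ≤ S₁.card + S₂.card + 6)
    -- the exponents
    set e : ℝ := φ σ + ε / 2 with he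
    have h5 : T ^ (2 * (1 - σ) + ε / 4) ≤ T ^ e := by
      apply Real.rpow_le_rpow_of_exponent_le hTone
      have := hlow σ hσ
      rw [he]; linarith
    have h6 : (2 * T) ^ (φ (σ - 2 * r) + ε / 8) ≤ K * T ^ e := by
      have h7 := two_pow hφ (e := ε / 8) hσr hTone
      have h8 := hu (σ - 2 * r) hσr σ hσ (by
        rw [abs_sub_comm, abs_of_nonneg (by linarith)]; linarith)
      refine h7.trans ?_
      have h9 : φ (σ - 2 * r) + ε / 8 ≤ e := by
        have := (abs_lt.1 h8).2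
        rw [he]; linarith
      gcongr
    have h7 : 1 ≤ T ^ e := Real.one_le_rpow hTone (by rw [he]; linarith)
    have h8 : (((S₁ ∪ S₂ ∪ Finset.range 6).card : ℕ) : ℝ) ≤ (C₁ + 6 + 4 * (C₂ * K)) * T ^ e := by
      have h9 : C₁ * T ^ (2 * (1 - σ) + ε / 4) ≤ C₁ * T ^ e := by gcongr
      have h10 : 4 * (C₂ * (2 * T) ^ (φ (σ - 2 * r) + ε / 8)) ≤ 4 * (C₂ * (K * T ^ e)) := by gcongr
      have h11 : (6 : ℝ) ≤ 6 * T ^ e := by linarith
      nlinarith
    have h9 : T ^ e * Real.log T ≤ T ^ (φ σ + ε) := by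
      calc T ^ e * Real.log T ≤ T ^ e * T ^ (ε / 8) := by gcongr
        _ = T ^ (e + ε / 8) := (Real.rpow_add hT0 _ _).symm
        _ ≤ T ^ (φ σ + ε) := Real.rpow_le_rpow_of_exponent_le hTone (by rw [he]; linarith)
    have h10 : C₃ ≤ C₃ * T ^ (φ σ + ε) := by
      have : 1 ≤ T ^ (φ σ + ε) := Real.one_le_rpow hTone (by linarith)
      nlinarith
    have h11 : (((S₁ ∪ S₂ ∪ Finset.range 6).card : ℕ) : ℝ) * (C₃ * Real.log T) ≤
        (C₁ + 6 + 4 * (C₂ * K)) * C₃ * T ^ (φ σ + ε) := by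
      calc (((S₁ ∪ S₂ ∪ Finset.range 6).card : ℕ) : ℝ) * (C₃ * Real.log T)
          ≤ ((C₁ + 6 + 4 * (C₂ * K)) * T ^ e) * (C₃ * Real.log T) := by gcongr
        _ = (C₁ + 6 + 4 * (C₂ * K)) * C₃ * (T ^ e * Real.log T) := by ring
        _ ≤ _ := by gcongr
    have h12 : 0 ≤ C₄ * T ^ (φ σ + ε) := by positivity
    linarith

end Pool.Agent.Y751.DH
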