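import Pool.Agent.Y751.DH.Poly

set_option autoImplicit false

/-!
# Zeta is small where all smoothed zeta polynomials are small
-/

open Complex MeasureTheory Set Filter Topology

namespace Pool.Agent.Y751.DH

/-- the trivial bound for the smoothed zeta polynomial -/
theorem F_le {v t : ℝ} (hv : 0 < v) : ‖F (1 / v) t‖ ≤ (Real.exp v - 1)⁻¹ := by
  have h2 : Real.exp (-v) < 1 := by
    rw [Real.exp_lt_one_iff]
    linarith
  have h3 : HasSum (fun n : ℕ => Real.exp (-v) * Real.exp (-v) ^ n)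
      (Real.exp (-v) * (1 - Real.exp (-v))⁻¹) :=
    (hasSum_geometric_of_lt_one (Real.exp_pos _).le h2).mul_left _
  have e : Real.exp (-v) * (1 - Real.exp (-v))⁻¹ = (Real.exp v - 1)⁻¹ := by
    have h4 : Real.exp v * Real.exp (-v) = 1 := by rw [← Real.exp_add]; simp
    have h5 : 0 < Real.exp v - 1 := by
      have := Real.add_one_lt_exp hv.ne'
      linarith
    have h6 : 0 < 1 - Real.exp (-v) := by linarith
    rw [← div_eq_mul_inv, div_eq_iff h6.ne', ← div_eq_inv_mul, eq_div_iff h5.ne']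
    linear_combination h4
  rw [← e]
  unfold F
  refine tsum_of_norm_bounded h3 fun n => ?_
  rw [norm_mul, Complex.norm_real, Real.norm_of_nonneg (Real.exp_pos _).le]
  have h1 : ((n : ℂ) + 1) = (((n : ℝ) + 1 : ℝ) : ℂ) := by push_cast; rfl
  rw [h1, Complex.norm_cpow_eq_rpow_re_of_pos (by positivity)]
  have h4 : (-((t : ℂ) * I)).re = 0 := by simp
  rw [h4, Real.rpow_zero, mul_one, ← Real.exp_nat_mul, ← Real.exp_add]
  apply le_of_eq
  congr 1
  field_simp
  ring

/-- the coefficients of the smoothed polynomials decay -/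
theorem exp_summable {M : ℝ} (hM : 0 < M) : Summable (fun n : ℕ => Real.exp (-(((n : ℝ) + 1) / M))) := by
  have h2 : Real.exp (-(1 / M)) < 1 := by
    rw [Real.exp_lt_one_iff]
    have : 0 < 1 / M := by positivity
    linarith
  have h3 := (summable_geometric_of_lt_one (Real.exp_pos _).le h2).mul_left (Real.exp (-(1 / M)))
  refine h3.congr fun n => ?_
  rw [← Real.exp_nat_mul, ← Real.exp_add]
  congr 1
  ring

theorem coef_norm (n : ℕ) (t M : ℝ) :
    ‖(Real.exp (-(((n : ℝ) + 1) / M)) : ℂ) * ((n : ℂ) + 1) ^ (-((t : ℂ) * I))‖ =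
      Real.exp (-(((n : ℝ) + 1) / M)) := by
  rw [norm_mul, Complex.norm_real, Real.norm_of_nonneg (Real.exp_pos _).le]
  have h1 : ((n : ℂ) + 1) = (((n : ℝ) + 1 : ℝ) : ℂ) := by push_cast; rfl
  rw [h1, Complex.norm_cpow_eq_rpow_re_of_pos (by positivity)]
  have h4 : (-((t : ℂ) * I)).re = 0 := by simp
  rw [h4, Real.rpow_zero, mul_one]

/-- the smoothed Dirichlet series as a Mellin transform of the smoothed polynomials -/
theorem mellin_F {σ t M : ℝ} (hσ : 1 / 2 ≤ σ) (hM : 0 < M) :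
    (Complex.Gamma σ) * ∑' n : ℕ, ((n : ℂ) + 1) ^ (-((σ : ℂ) + t * I)) *
      (Real.exp (-(((n : ℝ) + 1) / M)) : ℂ) =
      ∫ u in Ioi (0 : ℝ), (u : ℂ) ^ ((σ : ℂ) - 1) * F (1 / (u + 1 / M)) t := by
  have h := hasSum_mellin (ι := ℕ)
    (a := fun n : ℕ => (Real.exp (-(((n : ℝ) + 1) / M)) : ℂ) * ((n : ℂ) + 1) ^ (-((t : ℂ) * I)))
    (p := fun n : ℕ => (n : ℝ) + 1) (F := fun u => F (1 / (u + 1 / M)) t) (s := (σ : ℂ))
    (fun n => Or.inr (by positivity)) (by simp; linarith)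
    (by
      intro u hu
      have hu0 : (0 : ℝ) < u := hu
      have hv : 0 < u + 1 / M := by positivity
      have hs : Summable (fun m : ℕ => (Real.exp (-(((m : ℝ) + 1) / (1 / (u + 1 / M)))) : ℂ) *
          ((m : ℂ) + 1) ^ (-((t : ℂ) * I))) := by
        refine Summable.of_norm_bounded (exp_summable (M := 1 / (u + 1 / M)) (by positivity))
          fun n => ?_
        rw [coef_norm]
      have h5 := hs.hasSum
      have e : ∀ n : ℕ, (Real.exp (-(((n : ℝ) + 1) / (1 / (u + 1 / M)))) : ℂ) *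
          ((n : ℂ) + 1) ^ (-((t : ℂ) * I)) = (Real.exp (-(((n : ℝ) + 1) / M)) : ℂ) *
          ((n : ℂ) + 1) ^ (-((t : ℂ) * I)) * ((Real.exp (-((n : ℝ) + 1) * u) : ℝ) : ℂ) := by
        intro n
        have h6 : Real.exp (-(((n : ℝ) + 1) / (1 / (u + 1 / M)))) =
            Real.exp (-(((n : ℝ) + 1) / M)) * Real.exp (-((n : ℝ) + 1) * u) := by
          rw [← Real.exp_add]
          congr 1
          field_simp
          ring
        rw [h6]
        push_cast
        ring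
      have h7 : F (1 / (u + 1 / M)) t = ∑' m : ℕ, (Real.exp (-(((m : ℝ) + 1) / (1 / (u + 1 / M)))) : ℂ) *
          ((m : ℂ) + 1) ^ (-((t : ℂ) * I)) := rfl
      rw [← h7] at h5
      simp only [e] at h5
      exact h5)
    (by
      refine Summable.of_nonneg_of_le (fun n => by positivity) (fun n => ?_) (exp_summable hM)
      rw [coef_norm, ofReal_re]
      have h2 : 1 ≤ ((n : ℝ) + 1) ^ σ := by
        apply Real.one_le_rpow _ (by linarith)
        have : (0 : ℝ) ≤ n := Nat.cast_nonneg n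
        linarith
      exact div_le_self (Real.exp_pos _).le h2)
  have h1 := h.tsum_eq
  rw [← tsum_mul_left]
  have h2 : mellin (fun u => F (1 / (u + 1 / M)) t) σ =
      ∫ u in Ioi (0 : ℝ), (u : ℂ) ^ ((σ : ℂ) - 1) * F (1 / (u + 1 / M)) t := by
    simp only [mellin, smul_eq_mul]
  rw [← h2, ← h1]
  apply tsum_congr
  intro n
  have hn0 : ((n : ℂ) + 1) ≠ 0 := Nat.cast_add_one_ne_zero n
  rw [show -((σ : ℂ) + t * I) = -((t : ℂ) * I) - σ by ring, Complex.cpow_sub _ _ hn0]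
  push_cast
  ring

/-- zeta is small where all the smoothed polynomials are small -/
theorem zeta_le_F : ∃ C : ℝ, 0 < C ∧ ∃ T₀ : ℝ, ∀ T : ℝ, T₀ ≤ T → ∀ t σ κ : ℝ, 1 / 2 ≤ σ → σ ≤ 1 →
    Real.log T ^ 2 ≤ t → t ≤ T → 0 < κ → κ ≤ 1 →
    (∀ M : ℝ, T ^ κ ≤ M → M ≤ T ^ 2 → ‖F M t‖ ≤ M ^ σ) →
    ‖riemannZeta (σ + t * I)‖ ≤ C * (T ^ κ * Real.log T) := by
  obtain ⟨C₁, hC₁, T₁, h₁⟩ := zeta_smooth
  obtain ⟨G₀, hG₀, hG⟩ : ∃ G₀ : ℝ, 0 < G₀ ∧ ∀ σ : ℝ, 1 / 2 ≤ σ → σ ≤ 1 → G₀ ≤ Real.Gamma σ := by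
    have hcont : ContinuousOn Real.Gamma (Icc (1 / 2 : ℝ) 1) := by
      intro x hx
      apply ContinuousAt.continuousWithinAt
      apply (Real.differentiableAt_Gamma _).continuousAt
      intro m hm
      have h1 : (0 : ℝ) ≤ m := Nat.cast_nonneg m
      have := hx.1
      linarith
    obtain ⟨x, hx, hmin⟩ := isCompact_Icc.exists_isMinOn (s := Icc (1 / 2 : ℝ) 1)
      ⟨1, by norm_num, le_rfl⟩ hcont
    exact ⟨Real.Gamma x, Real.Gamma_pos_of_pos (by linarith [hx.1]), fun σ h1 h2 => hmin ⟨h1, h2⟩⟩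
  refine ⟨C₁ + 20 / G₀, by positivity, max T₁ 4, ?_⟩
  intro T hT t σ κ hσ1 hσ2 ht1 ht2 hκ0 hκ1 hF
  have hTT₁ : T₁ ≤ T := (le_max_left _ _).trans hT
  have hT4 : 4 ≤ T := (le_max_right _ _).trans hT
  have hT0 : 0 < T := by linarith
  have hTone : 1 ≤ T := by linarith
  have hlog : 1 ≤ Real.log T := by
    rw [Real.le_log_iff_exp_le (by linarith)]
    linarith [Real.exp_one_lt_d9]
  have h2 := h₁ T hTT₁ (σ + t * I) (by simpa using hσ1) (by simpa using hσ2) (by simpa using ht1)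
    (by simpa using ht2)
  set M₁ : ℝ := T ^ 2 with hM₁
  have hM₁0 : 0 < M₁ := by positivity
  have hM₁1 : 4 ≤ M₁ := by rw [hM₁]; nlinarith
  set Sm : ℂ := ∑' n : ℕ, ((n : ℂ) + 1) ^ (-((σ : ℂ) + t * I)) *
      (Real.exp (-(((n : ℝ) + 1) / M₁)) : ℂ) with hSm
  have h3 := mellin_F (t := t) hσ1 hM₁0
  rw [← hSm] at h3
  set P : ℝ := T ^ κ with hP
  have hP1 : 1 ≤ P := Real.one_le_rpow hTone hκ0.le
  have hPT : P ≤ T := by
    calc P ≤ T ^ (1 : ℝ) := Real.rpow_le_rpow_of_exponent_le hTone hκ1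
      _ = T := Real.rpow_one _
  -- the majorant
  set g : ℝ → ℝ := fun u => (Ioc 0 (1 / M₁)).indicator (fun u => M₁ ^ σ * u ^ (σ - 1)) u +
    (Ioc (1 / M₁) 1).indicator (fun u => (3 * P) * u⁻¹) u +
    (Ioi 1).indicator (fun u => 2 * u ^ (-2 : ℝ)) u with hg
  have hu1 : 1 / M₁ ≤ 1 / 4 := one_div_le_one_div_of_le (by norm_num) hM₁1
  have hu0 : 0 < 1 / M₁ := by positivity
  have hmaj : ∀ u ∈ Ioi (0 : ℝ), ‖(u : ℂ) ^ ((σ : ℂ) - 1) * F (1 / (u + 1 / M₁)) t‖ ≤ g u := by
    intro u hu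
    have hu0' : (0 : ℝ) < u := hu
    have hv : 0 < u + 1 / M₁ := by positivity
    rw [norm_mul, Complex.norm_cpow_eq_rpow_re_of_pos hu0']
    have e1 : ((σ : ℂ) - 1).re = σ - 1 := by simp
    rw [e1]
    have hup : 0 < u ^ (σ - 1) := by positivity
    -- the trivial bounds
    have ht := F_le (t := t) hv
    have hexp1 : u + 1 / M₁ ≤ Real.exp (u + 1 / M₁) - 1 := by
      have := Real.add_one_le_exp (u + 1 / M₁)
      linarith
    have hexp2 : (u + 1 / M₁) ^ 2 / 2 ≤ Real.exp (u + 1 / M₁) - 1 := by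
      have := Real.quadratic_le_exp_of_nonneg hv.le
      linarith
    have ht1 : ‖F (1 / (u + 1 / M₁)) t‖ ≤ u⁻¹ := by
      refine ht.trans (inv_anti₀ hu0' ?_)
      linarith
    have ht2 : ‖F (1 / (u + 1 / M₁)) t‖ ≤ 2 * u ^ (-2 : ℝ) := by
      refine ht.trans ?_
      have h5 : 2 * u ^ (-2 : ℝ) = (u ^ 2 / 2)⁻¹ := by
        rw [Real.rpow_neg hu0'.le, Real.rpow_two]
        field_simp
      rw [h5]
      refine inv_anti₀ (by positivity) (le_trans ?_ hexp2)
      have : u ^ 2 ≤ (u + 1 / M₁) ^ 2 := by gcongr; linarith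
      linarith
    -- the hypothesis
    have hhyp : u + 1 / M₁ ≤ 1 / P → ‖F (1 / (u + 1 / M₁)) t‖ ≤ (1 / (u + 1 / M₁)) ^ σ := by
      intro h5
      apply hF
      · rw [le_one_div (by linarith) hv]
        exact h5
      · rw [one_div_le hv hM₁0]
        linarith
    rcases le_or_gt u (1 / M₁) with h5 | h5
    · -- u ≤ 1 / M₁
      have hi1 : u ∈ Ioc 0 (1 / M₁) := ⟨hu0', h5⟩
      have hi2 : u ∉ Ioc (1 / M₁) 1 := fun h => absurd h.1 (not_lt.2 h5)
      have hi3 : u ∉ Ioi (1 : ℝ) := fun h => by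
        have : (1 : ℝ) < u := h
        linarith
      simp only [hg]
      rw [indicator_of_mem hi1, indicator_of_notMem hi2, indicator_of_notMem hi3, add_zero,
        add_zero]
      have h6 : u + 1 / M₁ ≤ 1 / P := by
        have h7 : u + 1 / M₁ ≤ 2 / M₁ := by
          rw [show (2 : ℝ) / M₁ = 1 / M₁ + 1 / M₁ by ring]
          linarith
        refine h7.trans ?_
        rw [div_le_div_iff₀ hM₁0 (by linarith)]
        rw [hM₁]
        nlinarith
      have h7 := hhyp h6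
      have h8 : (1 / (u + 1 / M₁)) ^ σ ≤ M₁ ^ σ := by
        apply Real.rpow_le_rpow (by positivity) _ (by linarith)
        rw [one_div_le hv hM₁0]
        linarith
      calc u ^ (σ - 1) * ‖F (1 / (u + 1 / M₁)) t‖ ≤ u ^ (σ - 1) * M₁ ^ σ := by
            gcongr
            exact h7.trans h8
        _ = M₁ ^ σ * u ^ (σ - 1) := by ring
    rcases le_or_gt u 1 with h6 | h6
    · have hi1 : u ∉ Ioc 0 (1 / M₁) := fun h => absurd h.2 (not_le.2 h5)
      have hi2 : u ∈ Ioc (1 / M₁) 1 := ⟨h5, h6⟩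
      have hi3 : u ∉ Ioi (1 : ℝ) := fun h => absurd h (not_lt.2 h6)
      simp only [hg]
      rw [indicator_of_notMem hi1, indicator_of_mem hi2, indicator_of_notMem hi3, add_zero,
        zero_add]
      rcases le_or_gt (u + 1 / M₁) (1 / P) with h7 | h7
      · have h8 := hhyp h7
        have h9 : (1 / (u + 1 / M₁)) ^ σ ≤ (u⁻¹) ^ σ := by
          apply Real.rpow_le_rpow (by positivity) _ (by linarith)
          rw [one_div]
          exact inv_anti₀ hu0' (by linarith)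
        have h10 : u ^ (σ - 1) * (u⁻¹) ^ σ = u⁻¹ := by
          rw [Real.inv_rpow hu0'.le, ← Real.rpow_neg hu0'.le, ← Real.rpow_add hu0',
            show σ - 1 + -σ = -1 by ring, Real.rpow_neg_one]
        have h11 : 0 < u⁻¹ := inv_pos.2 hu0'
        calc u ^ (σ - 1) * ‖F (1 / (u + 1 / M₁)) t‖ ≤ u ^ (σ - 1) * (u⁻¹) ^ σ := by
              gcongr
              exact h8.trans h9
          _ = u⁻¹ := h10
          _ ≤ (3 * P) * u⁻¹ := by nlinarith
      · -- u is at least of the order 1 / P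
        have h8 : u⁻¹ ≤ 3 * P := by
          rw [inv_le_comm₀ hu0' (by positivity)]
          have h9 : 1 / M₁ ≤ 1 / (4 * P) := by
            apply one_div_le_one_div_of_le (by positivity)
            rw [hM₁]
            nlinarith
          have h10 : 1 / (4 * P) = (1 / 4) * (1 / P) := by
            rw [one_div_mul_one_div]
          have h11 : (3 * P)⁻¹ = (1 / 3) * (1 / P) := by
            rw [mul_inv, one_div, one_div]
          rw [h11]
          have h12 : 0 < 1 / P := by positivity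
          rw [h10] at h9
          linarith
        have h9 : u ^ (σ - 1) ≤ u⁻¹ := by
          rw [← Real.rpow_neg_one]
          exact Real.rpow_le_rpow_of_exponent_ge hu0' h6 (by linarith)
        calc u ^ (σ - 1) * ‖F (1 / (u + 1 / M₁)) t‖ ≤ u⁻¹ * (3 * P) := by
              have h13 : 0 < u⁻¹ := inv_pos.2 hu0'
              exact mul_le_mul h9 (ht1.trans h8) (norm_nonneg _) h13.le
          _ = _ := by ring
    · have hi1 : u ∉ Ioc 0 (1 / M₁) := fun h => absurd h.2 (not_le.2 h5)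
      have hi2 : u ∉ Ioc (1 / M₁) 1 := fun h => absurd h.2 (not_le.2 h6)
      have hi3 : u ∈ Ioi (1 : ℝ) := h6
      simp only [hg]
      rw [indicator_of_notMem hi1, indicator_of_notMem hi2, indicator_of_mem hi3, add_zero,
        zero_add]
      have h7 : u ^ (σ - 1) ≤ 1 := Real.rpow_le_one_of_one_le_of_nonpos h6.le (by linarith)
      calc u ^ (σ - 1) * ‖F (1 / (u + 1 / M₁)) t‖ ≤ 1 * (2 * u ^ (-2 : ℝ)) :=
            mul_le_mul h7 ht2 (norm_nonneg _) zero_le_one
        _ = _ := one_mul _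
  -- the integral of the majorant
  have i1 : IntegrableOn (fun u : ℝ => M₁ ^ σ * u ^ (σ - 1)) (Ioc 0 (1 / M₁)) := by
    apply Integrable.const_mul
    exact (intervalIntegrable_iff_integrableOn_Ioc_of_le hu0.le).1
      (intervalIntegral.intervalIntegrable_rpow' (by linarith))
  have i2 : IntegrableOn (fun u : ℝ => (3 * P) * u⁻¹) (Ioc (1 / M₁) 1) := by
    apply Integrable.const_mul
    apply (intervalIntegrable_iff_integrableOn_Ioc_of_le (by linarith)).1
    apply intervalIntegral.intervalIntegrable_inv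
    · intro x hx
      rw [uIcc_of_le (by linarith)] at hx
      linarith [hx.1]
    · exact continuousOn_id
  have i3 : IntegrableOn (fun u : ℝ => 2 * u ^ (-2 : ℝ)) (Ioi 1) :=
    (integrableOn_Ioi_rpow_of_lt (by norm_num) one_pos).const_mul _
  have j1 : Integrable ((Ioc 0 (1 / M₁)).indicator (fun u : ℝ => M₁ ^ σ * u ^ (σ - 1))) :=
    i1.integrable_indicator measurableSet_Ioc
  have j2 : Integrable ((Ioc (1 / M₁) 1).indicator (fun u : ℝ => (3 * P) * u⁻¹)) :=
    i2.integrable_indicator measurableSet_Ioc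
  have j3 : Integrable ((Ioi 1).indicator (fun u : ℝ => 2 * u ^ (-2 : ℝ))) :=
    i3.integrable_indicator measurableSet_Ioi
  have hgi : Integrable g := (j1.add j2).add j3
  have hg0 : ∀ u, 0 ≤ g u := by
    intro u
    simp only [hg]
    have a1 : 0 ≤ (Ioc 0 (1 / M₁)).indicator (fun u : ℝ => M₁ ^ σ * u ^ (σ - 1)) u :=
      indicator_nonneg (fun x hx => by
        have : (0 : ℝ) < x := hx.1
        positivity) u
    have a2 : 0 ≤ (Ioc (1 / M₁) 1).indicator (fun u : ℝ => (3 * P) * u⁻¹) u :=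
      indicator_nonneg (fun x hx => by
        have : (0 : ℝ) < x := by linarith [hx.1]
        positivity) u
    have a3 : 0 ≤ (Ioi 1).indicator (fun u : ℝ => 2 * u ^ (-2 : ℝ)) u :=
      indicator_nonneg (fun x hx => by
        have : (1 : ℝ) < x := hx
        positivity) u
    linarith
  have hint : ∫ u in Ioi (0 : ℝ), g u ≤ 2 + 3 * P * (2 * Real.log T) + 2 := by
    have k1 : ∫ u : ℝ, (Ioc 0 (1 / M₁)).indicator (fun u : ℝ => M₁ ^ σ * u ^ (σ - 1)) u ≤ 2 := by
      rw [integral_indicator measurableSet_Ioc, integral_const_mul,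
        ← intervalIntegral.integral_of_le hu0.le, integral_rpow (Or.inl (by linarith))]
      rw [Real.zero_rpow (by linarith), sub_add_cancel, sub_zero, one_div,
        Real.inv_rpow hM₁0.le]
      have h5 : 0 < M₁ ^ σ := by positivity
      rw [mul_div_assoc', mul_inv_cancel₀ h5.ne', div_le_iff₀ (by linarith)]
      linarith
    have k2 : ∫ u : ℝ, (Ioc (1 / M₁) 1).indicator (fun u : ℝ => (3 * P) * u⁻¹) u =
        3 * P * (2 * Real.log T) := by
      rw [integral_indicator measurableSet_Ioc, integral_const_mul,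
        ← intervalIntegral.integral_of_le (by linarith),
        integral_inv_of_pos hu0 one_pos, one_div_one_div, hM₁, Real.log_pow]
      norm_num
    have k3 : ∫ u : ℝ, (Ioi 1).indicator (fun u : ℝ => 2 * u ^ (-2 : ℝ)) u = 2 := by
      rw [integral_indicator measurableSet_Ioi, integral_const_mul,
        integral_Ioi_rpow_of_lt (by norm_num) one_pos]
      norm_num
    have k4 : ∫ u in Ioi (0 : ℝ), g u ≤ ∫ u : ℝ, g u :=
      setIntegral_le_integral hgi (Eventually.of_forall hg0)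
    have k5 : ∫ u : ℝ, g u =
        (∫ u : ℝ, (Ioc 0 (1 / M₁)).indicator (fun u : ℝ => M₁ ^ σ * u ^ (σ - 1)) u) +
        (∫ u : ℝ, (Ioc (1 / M₁) 1).indicator (fun u : ℝ => (3 * P) * u⁻¹) u) +
        ∫ u : ℝ, (Ioi 1).indicator (fun u : ℝ => 2 * u ^ (-2 : ℝ)) u := by
      have k6 : ∫ u : ℝ, g u = ∫ u : ℝ,
          ((Ioc 0 (1 / M₁)).indicator (fun u : ℝ => M₁ ^ σ * u ^ (σ - 1)) u +
          (Ioc (1 / M₁) 1).indicator (fun u : ℝ => (3 * P) * u⁻¹) u) +
          (Ioi 1).indicator (fun u : ℝ => 2 * u ^ (-2 : ℝ)) u := rfl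
      have j12 : Integrable (fun u : ℝ =>
          (Ioc 0 (1 / M₁)).indicator (fun u : ℝ => M₁ ^ σ * u ^ (σ - 1)) u +
          (Ioc (1 / M₁) 1).indicator (fun u : ℝ => (3 * P) * u⁻¹) u) := j1.add j2
      rw [k6, integral_add j12 j3, integral_add j1 j2]
    linarith
  have hbound : ‖∫ u in Ioi (0 : ℝ), (u : ℂ) ^ ((σ : ℂ) - 1) * F (1 / (u + 1 / M₁)) t‖ ≤
      2 + 3 * P * (2 * Real.log T) + 2 := by
    refine (norm_integral_le_of_norm_le hgi.integrableOn ?_).trans hint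
    rw [ae_restrict_iff' measurableSet_Ioi]
    exact Eventually.of_forall hmaj
  rw [← h3, norm_mul] at hbound
  have hGn : G₀ ≤ ‖Complex.Gamma (σ : ℂ)‖ := by
    rw [Complex.Gamma_ofReal, Complex.norm_real]
    exact (hG σ hσ1 hσ2).trans (le_abs_self _)
  have hSmb : ‖Sm‖ ≤ (2 + 3 * P * (2 * Real.log T) + 2) / G₀ := by
    rw [le_div_iff₀ hG₀]
    calc ‖Sm‖ * G₀ ≤ ‖Sm‖ * ‖Complex.Gamma (σ : ℂ)‖ := by gcongr
      _ = ‖Complex.Gamma (σ : ℂ)‖ * ‖Sm‖ := mul_comm _ _
      _ ≤ _ := hbound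
  have hPL : 1 ≤ P * Real.log T := by nlinarith
  have h6 : (2 + 3 * P * (2 * Real.log T) + 2) / G₀ ≤ 20 / G₀ * (P * Real.log T) := by
    rw [div_mul_eq_mul_div]
    gcongr
    linarith
  have h7 : ‖riemannZeta (σ + t * I)‖ ≤ ‖riemannZeta (σ + t * I) - Sm‖ + ‖Sm‖ := by
    have := norm_add_le (riemannZeta (σ + t * I) - Sm) Sm
    rwa [sub_add_cancel] at this
  have h8 : ‖riemannZeta (σ + t * I) - Sm‖ ≤ C₁ := h2
  have h9 : C₁ ≤ C₁ * (P * Real.log T) := by nlinarith
  calc ‖riemannZeta (σ + t * I)‖ ≤ C₁ * (P * Real.log T) + 20 / G₀ * (P * Real.log T) := by linarith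
    _ = _ := by ring

end Pool.Agent.Y751.DH
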