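import Pool.Agent.Y751.DH.Eq1
import Pool.Agent.Y751.DH.Poly2

set_option autoImplicit false

/-!
# Large values of zeta and of the smoothed zeta polynomials
-/

open Complex MeasureTheory Set Filter Topology Metric

namespace Pool.Agent.Y751.DH

/-- the number of the points of a separated set in an interval -/
theorem sep_card {S : Finset ℝ} {a b : ℝ} (hab : a ≤ b) (h1 : ∀ t ∈ S, a ≤ t ∧ t ≤ b)
    (h2 : ∀ t ∈ S, ∀ u ∈ S, t ≠ u → 1 ≤ |t - u|) : (S.card : ℝ) ≤ b - a + 1 := by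
  have h3 : S.card ≤ (Finset.range (⌊b - a⌋₊ + 1)).card := by
    apply Finset.card_le_card_of_injOn (fun t => ⌊t - a⌋₊)
    · intro t ht
      have ht' : t ∈ S := ht
      simp only [Finset.coe_range, mem_Iio]
      have : ⌊t - a⌋₊ ≤ ⌊b - a⌋₊ := Nat.floor_mono (by linarith [(h1 t ht').2])
      omega
    · intro t ht u hu htu
      by_contra hne
      have ht' : t ∈ S := ht
      have hu' : u ∈ S := hu
      have h4 := h2 t ht' u hu' hne
      simp only at htu
      have h5 := Nat.floor_le (show 0 ≤ t - a by linarith [(h1 t ht').1])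
      have h6 := Nat.lt_floor_add_one (t - a)
      have h7 := Nat.floor_le (show 0 ≤ u - a by linarith [(h1 u hu').1])
      have h8 := Nat.lt_floor_add_one (u - a)
      rw [htu] at h5 h6
      have h9 : |t - u| < 1 := by rw [abs_lt]; constructor <;> linarith
      linarith
  rw [Finset.card_range] at h3
  have h4 : (S.card : ℝ) ≤ ((⌊b - a⌋₊ + 1 : ℕ) : ℝ) := by exact_mod_cast h3
  push_cast at h4
  have := Nat.floor_le (show 0 ≤ b - a by linarith)
  linarith

open Classical in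
/-- large values of the polynomials bound the large values of zeta -/
theorem lp_lz {φ : ℝ → ℝ} (hlow : ∀ σ ∈ Icc (1 / 2 : ℝ) 1, 2 * (1 - σ) ≤ φ σ) (hP : LargePoly φ) :
    LargeZeta φ := by
  intro ε hε δ hδ
  set κ : ℝ := min (δ / 4) 1 with hκ
  have hκ0 : 0 < κ := lt_min (by positivity) one_pos
  have hκ1 : κ ≤ 1 := min_le_right _ _
  have hκδ : κ ≤ δ / 4 := min_le_left _ _
  obtain ⟨C₁, hC₁, T₁, hT₁⟩ := zeta_le_F
  obtain ⟨C₂, hC₂, T₂, hT₂⟩ := hP ε hε κ hκ0
  have hev1 := ev_pow (C₁ + 1) 1 (show (0 : ℝ) < δ / 2 by positivity)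
  have hev2 := ev_pow 1 2 hε
  obtain ⟨T₃, hT₃⟩ := eventually_atTop.1 (hev1.and hev2)
  refine ⟨1 + 2 * C₂, by positivity, max (max T₁ T₂) (max T₃ 3), ?_⟩
  intro T hT σ hσ1 hσ2
  have hTT₁ : T₁ ≤ T := (le_max_left _ _).trans ((le_max_left _ _).trans hT)
  have hTT₂ : T₂ ≤ T := (le_max_right _ _).trans ((le_max_left _ _).trans hT)
  have hTT₃ : T₃ ≤ T := (le_max_left _ _).trans ((le_max_right _ _).trans hT)
  have hT3 : 3 ≤ T := (le_max_right _ _).trans ((le_max_right _ _).trans hT)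
  obtain ⟨hA, hB⟩ := hT₃ T hTT₃
  rw [pow_one] at hA
  rw [one_mul] at hB
  have hT0 : 0 < T := by linarith
  have hTone : 1 ≤ T := by linarith
  have hlog : 1 ≤ Real.log T := by
    rw [Real.le_log_iff_exp_le (by linarith)]
    linarith [Real.exp_one_lt_d9]
  have hφ0 : 0 ≤ φ σ := le_trans (by linarith) (hlow σ ⟨hσ1, hσ2⟩)
  set L' : Set ℝ := {t : ℝ | Real.log T ^ 2 ≤ t ∧ t ≤ T ∧ T ^ δ ≤ ‖riemannZeta (σ + t * I)‖} with hL'
  -- a large polynomial
  have hpoly : ∀ t ∈ L', ∃ M : ℝ, T ^ κ ≤ M ∧ M ≤ T ^ 2 ∧ M ^ σ ≤ ‖F M t‖ := by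
    rintro t ⟨h1, h2, h3⟩
    by_contra hcon
    push Not at hcon
    have h4 := hT₁ T hTT₁ t σ κ hσ1 hσ2 h1 h2 hκ0 hκ1 (fun M hM1 hM2 => (hcon M hM1 hM2).le)
    have h5 : C₁ * (T ^ κ * Real.log T) < T ^ δ := by
      have h6 : T ^ κ ≤ T ^ (δ / 2) := Real.rpow_le_rpow_of_exponent_le hTone (by linarith)
      have h7 : 0 < T ^ κ := by positivity
      have h8 : C₁ * Real.log T < T ^ (δ / 2) := by
        have : C₁ * Real.log T < (C₁ + 1) * Real.log T := by nlinarith
        linarith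
      calc C₁ * (T ^ κ * Real.log T) = T ^ κ * (C₁ * Real.log T) := by ring
        _ < T ^ κ * T ^ (δ / 2) := by gcongr
        _ ≤ T ^ (δ / 2) * T ^ (δ / 2) := by gcongr
        _ = T ^ δ := by rw [← Real.rpow_add hT0]; congr 1; ring
    linarith
  -- the cells
  set J : Finset ℕ := (Finset.range (⌊T⌋₊ + 1)).filter
    (fun j : ℕ => ∃ t ∈ L', (j : ℝ) ≤ t ∧ t < j + 1) with hJ
  have hJt : ∀ j ∈ J, ∃ t ∈ L', (j : ℝ) ≤ t ∧ t < j + 1 := fun j hj => (Finset.mem_filter.1 hj).2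
  choose! τ hτ1 hτ2 hτ3 using hJt
  have hpar : ∀ e : ℕ, ((J.filter (fun j => j % 2 = e)).card : ℝ) ≤ C₂ * T ^ (φ σ + ε) := by
    intro e
    set Je := J.filter (fun j => j % 2 = e) with hJe
    have hmem : ∀ j ∈ Je, j ∈ J ∧ j % 2 = e := fun j hj => Finset.mem_filter.1 hj
    have hsepj : ∀ j ∈ Je, ∀ k ∈ Je, j < k → 1 ≤ τ k - τ j := by
      intro j hj k hk hjk
      obtain ⟨hj1, hj2⟩ := hmem j hj
      obtain ⟨hk1, hk2⟩ := hmem k hk
      have h5 : j + 2 ≤ k := by omega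
      have h6 : (j : ℝ) + 2 ≤ k := by exact_mod_cast h5
      linarith [hτ3 j hj1, hτ2 k hk1]
    have hinj : Set.InjOn τ Je := by
      intro j hj k hk hjk
      by_contra hne
      have hj' : j ∈ Je := hj
      have hk' : k ∈ Je := hk
      rcases lt_or_gt_of_ne hne with h | h
      · have := hsepj j hj' k hk' h
        rw [hjk] at this
        linarith
      · have := hsepj k hk' j hj' h
        rw [hjk] at this
        linarith
    have h4 := hT₂ T hTT₂ σ hσ1 hσ2 (Je.image τ) (by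
      intro t ht u hu htu
      rw [Finset.mem_image] at ht hu
      obtain ⟨j, hj, rfl⟩ := ht
      obtain ⟨k, hk, rfl⟩ := hu
      have hne : j ≠ k := fun h => htu (by rw [h])
      rcases lt_or_gt_of_ne hne with h | h
      · have := hsepj j hj k hk h
        rw [abs_sub_comm]
        exact this.trans (le_abs_self _)
      · exact (hsepj k hk j hj h).trans (le_abs_self _)) (by
      intro t ht
      rw [Finset.mem_image] at ht
      obtain ⟨j, hj, rfl⟩ := ht
      obtain ⟨hj1, hj2⟩ := hmem j hj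
      have h5 := hτ1 j hj1
      refine ⟨le_trans (by positivity) h5.1, h5.2.1, hpoly _ h5⟩)
    rw [Finset.card_image_of_injOn hinj] at h4
    exact h4
  have hJc : (J.card : ℝ) ≤ 2 * C₂ * T ^ (φ σ + ε) := by
    have h4 : J.card ≤ (J.filter (fun j => j % 2 = 0)).card + (J.filter (fun j => j % 2 = 1)).card := by
      refine le_trans (Finset.card_le_card ?_) (Finset.card_union_le _ _)
      intro j hj
      rcases Nat.mod_two_eq_zero_or_one j with h | h
      · exact Finset.mem_union_left _ (Finset.mem_filter.2 ⟨hj, h⟩)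
      · exact Finset.mem_union_right _ (Finset.mem_filter.2 ⟨hj, h⟩)
    have h5 : (J.card : ℝ) ≤ (J.filter (fun j => j % 2 = 0)).card +
        (J.filter (fun j => j % 2 = 1)).card := by exact_mod_cast h4
    linarith [hpar 0, hpar 1]
  have hsub : {t : ℝ | 0 ≤ t ∧ t ≤ T ∧ T ^ δ ≤ ‖riemannZeta (σ + t * I)‖} ⊆
      Icc 0 (Real.log T ^ 2) ∪ ⋃ j ∈ J, Icc (j : ℝ) (j + 1) := by
    rintro t ⟨h1, h2, h3⟩
    rcases le_or_gt t (Real.log T ^ 2) with h4 | h4
    · exact Or.inl ⟨h1, h4⟩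
    · right
      have h5 := Nat.floor_le h1
      have h6 := Nat.lt_floor_add_one t
      simp only [mem_iUnion]
      refine ⟨⌊t⌋₊, ?_, h5, h6.le⟩
      rw [hJ, Finset.mem_filter, Finset.mem_range]
      refine ⟨?_, t, ⟨h4.le, h2, h3⟩, h5, h6⟩
      have : ⌊t⌋₊ ≤ ⌊T⌋₊ := Nat.floor_mono h2
      omega
  refine (measure_mono hsub).trans ((measure_union_le _ _).trans ?_)
  have h8 : volume (⋃ j ∈ J, Icc (j : ℝ) (j + 1)) ≤ ENNReal.ofReal J.card := by
    refine (measure_biUnion_finset_le _ _).trans ?_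
    have : ∀ j ∈ J, volume (Icc (j : ℝ) (j + 1)) = 1 := by
      intro j _
      rw [Real.volume_Icc]
      simp
    rw [Finset.sum_congr rfl this, Finset.sum_const, nsmul_eq_mul, mul_one, ENNReal.ofReal_natCast]
  rw [Real.volume_Icc, sub_zero]
  refine (add_le_add le_rfl h8).trans ?_
  rw [← ENNReal.ofReal_add (by positivity) (by positivity)]
  apply ENNReal.ofReal_le_ofReal
  have h9 : T ^ ε ≤ T ^ (φ σ + ε) := Real.rpow_le_rpow_of_exponent_le hTone (by linarith)
  linarith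

open Classical in
/-- large values of zeta bound the large values of the polynomials -/
theorem lz_lp {φ : ℝ → ℝ} (hc : ContinuousOn φ (Icc (1 / 2) 1)) (hφ : AntitoneOn φ (Icc (1 / 2) 1))
    (hlow : ∀ σ ∈ Icc (1 / 2 : ℝ) 1, 2 * (1 - σ) ≤ φ σ) (hL : LargeZeta φ) : LargePoly φ := by
  intro ε hε δ hδ
  obtain ⟨δ₁, hδ₁, hu⟩ := unif hc (show 0 < ε / 8 by positivity)
  set r : ℝ := min (δ₁ / 3) (1 / 12) with hr
  have hr0 : 0 < r := lt_min (by positivity) (by norm_num)
  have hr1 : r ≤ 1 / 12 := min_le_right _ _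
  have hr2 : 2 * r < δ₁ := by
    have : r ≤ δ₁ / 3 := min_le_left _ _
    linarith
  obtain ⟨C₁, hC₁, T₁, hT₁1, hT₁⟩ := F_bound
  set η : ℝ := δ * r / 2 with hη
  have hη0 : 0 < η := by positivity
  obtain ⟨C₂, hC₂, T₂, hT₂⟩ := win hφ hL hr0 hr1 (show 0 < η / 2 by positivity)
    (show 0 < ε / 8 by positivity)
  set K : ℝ := (2 : ℝ) ^ (|φ (1 / 2)| + |ε / 8|) with hK
  have hK0 : 0 < K := by positivity
  have hev1 := ev_pow 1 2 (show (0 : ℝ) < 1 by norm_num)
  have hev2 : ∀ᶠ T : ℝ in atTop, 2 * C₁ < T ^ η :=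
    (tendsto_rpow_atTop hη0).eventually_gt_atTop _
  have hev3 := ev_pow 16 2 (show (0 : ℝ) < ε / 4 by positivity)
  obtain ⟨T₃, hT₃⟩ := eventually_atTop.1 (hev1.and (hev2.and hev3))
  refine ⟨2 + C₂ * K, by positivity, max (max T₁ T₂) (max T₃ 20), ?_⟩
  intro T hT σ hσ1 hσ2 S hSsep hS
  have hTT₁ : T₁ ≤ T := (le_max_left _ _).trans ((le_max_left _ _).trans hT)
  have hTT₂ : T₂ ≤ T := (le_max_right _ _).trans ((le_max_left _ _).trans hT)
  have hTT₃ : T₃ ≤ T := (le_max_left _ _).trans ((le_max_right _ _).trans hT)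
  have hT20 : 20 ≤ T := (le_max_right _ _).trans ((le_max_right _ _).trans hT)
  obtain ⟨hA, hB, hD⟩ := hT₃ T hTT₃
  rw [one_mul, Real.rpow_one] at hA
  have hT0 : 0 < T := by linarith
  have hTone : 1 ≤ T := by linarith
  have hlog : 2 ≤ Real.log T := by
    rw [Real.le_log_iff_exp_le hT0]
    have h7 : Real.exp 2 = Real.exp 1 * Real.exp 1 := by rw [← Real.exp_add]; norm_num
    rw [h7]
    nlinarith [Real.exp_one_lt_d9, Real.exp_pos 1]
  set L := Real.log T with hLdef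
  have hL4 : 4 ≤ L ^ 2 := by nlinarith
  have hσ : σ ∈ Icc (1 / 2 : ℝ) 1 := ⟨hσ1, hσ2⟩
  have hφ0 : 0 ≤ φ σ := le_trans (by linarith) (hlow σ hσ)
  have hP0 : 0 < T ^ (φ σ + ε) := by positivity
  rcases lt_or_ge σ (1 / 2 + 2 * r) with hcase | hcase
  · have h1 := hu (1 / 2) ⟨le_rfl, by norm_num⟩ σ hσ (by
      rw [abs_sub_comm, abs_of_nonneg (by linarith)]; linarith)
    have h2 := hlow (1 / 2) ⟨le_rfl, by norm_num⟩
    have h3 : 1 ≤ φ σ + ε := by
      have := (abs_lt.1 h1).2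
      linarith
    have h4 := sep_card hT0.le (fun t ht => ⟨(hS t ht).1, (hS t ht).2.1⟩) hSsep
    have h5 : T ≤ T ^ (φ σ + ε) := by
      calc T = T ^ (1 : ℝ) := (Real.rpow_one _).symm
        _ ≤ T ^ (φ σ + ε) := Real.rpow_le_rpow_of_exponent_le hTone h3
    have h6 : 0 ≤ C₂ * K * T ^ (φ σ + ε) := by positivity
    nlinarith
  · have hσr : σ - 2 * r ∈ Icc (1 / 2 : ℝ) 1 := ⟨by linarith, by linarith⟩
    set S₀ : Finset ℝ := S.filter (fun t => t < L ^ 2 + 10) with hS₀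
    set S₁ : Finset ℝ := S.filter (fun t => ¬ t < L ^ 2 + 10) with hS₁
    have hcard : S.card = S₀.card + S₁.card := (Finset.card_filter_add_card_filter_not _).symm
    have h0 : (S₀.card : ℝ) ≤ L ^ 2 + 11 := by
      have h1 := sep_card (S := S₀) (a := 0) (b := L ^ 2 + 10) (by positivity) (fun t ht => by
        rw [hS₀, Finset.mem_filter] at ht
        exact ⟨(hS t ht.1).1, ht.2.le⟩) (fun t ht u hu htu =>
          hSsep t (Finset.mem_filter.1 ht).1 u (Finset.mem_filter.1 hu).1 htu)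
      linarith
    -- a large value of zeta
    have hlarge : ∀ t ∈ S₁, ∃ v : ℝ, |v| ≤ L ^ 2 / 2 ∧
        T ^ η ≤ ‖riemannZeta (((σ - r : ℝ) : ℂ) + ((t + v : ℝ) : ℂ) * I)‖ := by
      intro t ht
      rw [hS₁, Finset.mem_filter, not_lt] at ht
      obtain ⟨ht0, htT, M, hM1, hM2, hM3⟩ := hS t ht.1
      by_contra hcon
      push Not at hcon
      have hM0 : 1 ≤ M := le_trans (Real.one_le_rpow hTone hδ.le) hM1
      have h1 := hT₁ T hTT₁ t M (σ - r) (T ^ η) (by linarith [ht.2]) htT hM0 hM2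
        (by linarith) (by linarith) (by positivity) (fun v hv => (hcon v hv).le)
      have hM0' : 0 < M := by linarith
      have h2 : 2 * C₁ * T ^ η < M ^ r := by
        calc 2 * C₁ * T ^ η < T ^ η * T ^ η := by gcongr
          _ = (T ^ δ) ^ r := by
              rw [← Real.rpow_add hT0, ← Real.rpow_mul hT0.le, hη]
              congr 1; ring
          _ ≤ M ^ r := Real.rpow_le_rpow (by positivity) hM1 hr0.le
      have h3 : M ^ (σ - r) * M ^ r = M ^ σ := by
        rw [← Real.rpow_add hM0', sub_add_cancel]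
      have h4 : 1 ≤ M ^ (σ - r) := Real.one_le_rpow hM0 (by linarith)
      have h5 : 1 ≤ T ^ η := Real.one_le_rpow hTone hη0.le
      have h6 : C₁ * (1 + M ^ (σ - r) * T ^ η) ≤ M ^ (σ - r) * (2 * C₁ * T ^ η) := by
        have h7 : 1 ≤ M ^ (σ - r) * T ^ η := by nlinarith
        have h8 : C₁ * (1 + M ^ (σ - r) * T ^ η) ≤ C₁ * (2 * (M ^ (σ - r) * T ^ η)) := by
          gcongr
          linarith
        linarith
      have h7 : M ^ (σ - r) * (2 * C₁ * T ^ η) < M ^ (σ - r) * M ^ r := by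
        have : 0 < M ^ (σ - r) := by linarith
        gcongr
      linarith
    choose! v hv1 hv2 using hlarge
    set y : ℝ → ℝ := fun t => t + v t with hy
    have hy1 : ∀ t ∈ S₁, t - L ^ 2 / 2 ≤ y t ∧ y t ≤ t + L ^ 2 / 2 := by
      intro t ht
      obtain ⟨h1, h2⟩ := abs_le.1 (hv1 t ht)
      simp only [hy]
      constructor <;> linarith
    have hy2 : ∀ t ∈ S₁, 8 ≤ y t ∧ y t ≤ 2 * T := by
      intro t ht
      have h1 := hy1 t ht
      have h2 := (Finset.mem_filter.1 ht).2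
      rw [not_lt] at h2
      have h3 := (hS t (Finset.mem_filter.1 ht).1).2.1
      constructor
      · linarith
      · linarith
    set W : Finset ℕ := S₁.image (fun t => ⌊y t⌋₊) with hW
    have hWz : ∀ m ∈ W, ∃ t ∈ S₁, ⌊y t⌋₊ = m := fun m hm => by
      rw [hW, Finset.mem_image] at hm
      exact hm
    choose! g hg1 hg2 using hWz
    have h1 := hT₂ (2 * T) (by linarith) (σ - r) (by linarith) (by linarith) W
      (fun m => ((σ - r : ℝ) : ℂ) + ((y (g m) : ℝ) : ℂ) * I) (by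
        intro m hm
        have k1 := hg1 m hm
        have k2 := hg2 m hm
        have k3 : ((⌊y (g m)⌋₊ : ℕ) : ℝ) ≤ y (g m) := Nat.floor_le (by linarith [(hy2 _ k1).1])
        have k4 := (Nat.lt_floor_add_one (y (g m))).le
        rw [k2] at k3 k4
        have k5 := hy2 _ k1
        have k6 := hv2 _ k1
        have e1 : ((((σ - r : ℝ) : ℂ) + ((y (g m) : ℝ) : ℂ) * I)).re = σ - r := by simp
        have e2 : ((((σ - r : ℝ) : ℂ) + ((y (g m) : ℝ) : ℂ) * I)).im = y (g m) := by simp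
        rw [e1, e2]
        refine ⟨le_rfl, by linarith, k3, k4, by linarith, k5.2, ?_⟩
        refine le_trans ?_ k6
        calc (2 * T) ^ (η / 2) ≤ (T ^ (2 : ℝ)) ^ (η / 2) := by
              apply Real.rpow_le_rpow (by positivity) _ (by positivity)
              rw [Real.rpow_two]; nlinarith
          _ = T ^ η := by rw [← Real.rpow_mul hT0.le]; congr 1; ring)
    rw [show σ - r - r = σ - 2 * r by ring] at h1
    have h2 : S₁.card ≤ ⌊L ^ 2 + 3⌋₊ * W.card := by
      refine Finset.card_le_mul_card_image (n := ⌊L ^ 2 + 3⌋₊) S₁ (f := fun t => ⌊y t⌋₊) ?_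
      intro m hm
      apply Nat.le_floor
      have h3 := sep_card (S := S₁.filter (fun t => ⌊y t⌋₊ = m)) (a := (m : ℝ) - L ^ 2 / 2)
        (b := (m : ℝ) + 1 + L ^ 2 / 2) (by nlinarith) (fun t ht => by
          rw [Finset.mem_filter] at ht
          have k1 := hy1 t ht.1
          have k2 := hy2 t ht.1
          have k3 : ((⌊y t⌋₊ : ℕ) : ℝ) ≤ y t := Nat.floor_le (by linarith)
          have k4 := (Nat.lt_floor_add_one (y t)).le
          rw [ht.2] at k3 k4
          exact ⟨by linarith, by linarith⟩) (fun t ht u hu htu =>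
            hSsep t (Finset.mem_filter.1 (Finset.mem_filter.1 ht).1).1 u
              (Finset.mem_filter.1 (Finset.mem_filter.1 hu).1).1 htu)
      linarith
    have h3 : (S₁.card : ℝ) ≤ (L ^ 2 + 3) * W.card := by
      have h4 : (S₁.card : ℝ) ≤ (⌊L ^ 2 + 3⌋₊ : ℝ) * W.card := by exact_mod_cast h2
      have h5 : (⌊L ^ 2 + 3⌋₊ : ℝ) ≤ L ^ 2 + 3 := Nat.floor_le (by positivity)
      have h6 : (0 : ℝ) ≤ W.card := Nat.cast_nonneg _
      nlinarith
    -- exponents
    have h4 : (W.card : ℝ) ≤ C₂ * K * T ^ (φ σ + ε / 2) := by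
      have h7 := two_pow hφ (e := ε / 8) hσr hTone
      have h8 := hu (σ - 2 * r) hσr σ hσ (by
        rw [abs_sub_comm, abs_of_nonneg (by linarith)]; linarith)
      have h9 : φ (σ - 2 * r) + ε / 8 ≤ φ σ + ε / 2 := by
        have := (abs_lt.1 h8).2
        linarith
      refine h1.trans ?_
      calc C₂ * (2 * T) ^ (φ (σ - 2 * r) + ε / 8) ≤ C₂ * (K * T ^ (φ (σ - 2 * r) + ε / 8)) := by
            gcongr
        _ ≤ C₂ * (K * T ^ (φ σ + ε / 2)) := by gcongr
        _ = _ := by ring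
    have h5 : L ^ 2 + 11 ≤ T ^ (ε / 4) := by nlinarith
    have h6 : (S₁.card : ℝ) ≤ C₂ * K * T ^ (φ σ + ε) := by
      have h7 : L ^ 2 + 3 ≤ T ^ (ε / 4) := by linarith
      have h8 : 0 ≤ L ^ 2 + 3 := by positivity
      calc (S₁.card : ℝ) ≤ (L ^ 2 + 3) * W.card := h3
        _ ≤ T ^ (ε / 4) * (C₂ * K * T ^ (φ σ + ε / 2)) := by gcongr
        _ = C₂ * K * (T ^ (ε / 4) * T ^ (φ σ + ε / 2)) := by ring
        _ = C₂ * K * T ^ (ε / 4 + (φ σ + ε / 2)) := by
            rw [Real.rpow_add hT0 (ε / 4) (φ σ + ε / 2)]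
        _ ≤ C₂ * K * T ^ (φ σ + ε) := by
            have : ε / 4 + (φ σ + ε / 2) ≤ φ σ + ε := by linarith
            gcongr
    have h7 : L ^ 2 + 11 ≤ 2 * T ^ (φ σ + ε) := by
      have : T ^ (ε / 4) ≤ T ^ (φ σ + ε) := Real.rpow_le_rpow_of_exponent_le hTone (by linarith)
      linarith
    rw [hcard]
    push_cast
    nlinarith

/-- **Equivalent forms of zero density.** -/
theorem tfae {φ : ℝ → ℝ} (hc : ContinuousOn φ (Icc (1 / 2) 1)) (hφ : AntitoneOn φ (Icc (1 / 2) 1))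
    (hlow : ∀ σ ∈ Icc (1 / 2 : ℝ) 1, 2 * (1 - σ) ≤ φ σ) :
    List.TFAE [ZeroDensity φ, ClusterDensity φ, LargeZeta φ, LargePoly φ] := by
  tfae_have 1 → 2 := zd_cd
  tfae_have 2 → 3 := cd_lz hc hφ hlow
  tfae_have 3 → 1 := lz_zd hc hφ hlow
  tfae_have 3 → 4 := lz_lp hc hφ hlow
  tfae_have 4 → 3 := lp_lz hlow
  tfae_finish

end Pool.Agent.Y751.DH
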