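import Pool.Agent.Y751.DH.Eq2
import Pool.Agent.Helper242.RK.Log

set_option autoImplicit false

/-!
# The size of the logarithm of zeta
-/

open Complex MeasureTheory Set Filter Topology Metric

namespace Pool.Agent.Y751.DH

/-- the logarithm of zeta is small inside a disc without zeros on which zeta is not large -/
theorem log_small {c : ℂ} {R ρ A X : ℝ} (hρ : ρ < R) (hR : 0 < R) (hA : 1 ≤ A) (hX : 0 ≤ X)
    (h1 : ∀ z ∈ ball c R, z ≠ 1 ∧ riemannZeta z ≠ 0 ∧ ‖riemannZeta z‖ ≤ Real.exp X)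
    (h2 : 1 / A ≤ ‖riemannZeta c‖ ∧ ‖riemannZeta c‖ ≤ A) {z : ℂ} (hz : ‖z - c‖ ≤ ρ) :
    |Real.log ‖riemannZeta z‖| ≤ 2 * (X + Real.log A + 1) * R / (R - ρ) + Real.log A := by
  have hA0 : 0 < A := by linarith
  have hlA : 0 ≤ Real.log A := Real.log_nonneg hA
  have hc0 : riemannZeta c ≠ 0 := (h1 c (mem_ball_self hR)).2.1
  have hd : DifferentiableOn ℂ riemannZeta (ball c R) := fun w hw =>
    (differentiableAt_riemannZeta (h1 w hw).1).differentiableWithinAt
  obtain ⟨L, hLd, hL⟩ := Pool.Agent.Helper242.RK.exists_log (convex_ball c R) isOpen_ball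
    ⟨c, mem_ball_self hR⟩ hd (fun w hw => (h1 w hw).2.1)
  have hre : ∀ w ∈ ball c R, (L w).re = Real.log ‖riemannZeta w‖ := by
    intro w hw
    rw [← hL w hw, Complex.norm_exp, Real.log_exp]
  set f : ℂ → ℂ := fun w => L (c + w) - L c with hf
  have hmem : ∀ w ∈ ball (0 : ℂ) R, c + w ∈ ball c R := by
    intro w hw
    rw [mem_ball, dist_eq_norm] at hw ⊢
    rw [sub_zero] at hw
    simpa using hw
  have hfd : DifferentiableOn ℂ f (ball 0 R) := by
    intro w hw
    have h3 : DifferentiableAt ℂ L (c + w) := (hLd _ (hmem w hw)).differentiableAt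
      (isOpen_ball.mem_nhds (hmem w hw))
    have h4 : DifferentiableAt ℂ (fun w => L (c + w)) w :=
      DifferentiableAt.comp (f := fun w => c + w) w h3 (by fun_prop)
    exact (h4.sub_const _).differentiableWithinAt
  have hM : 0 < X + Real.log A + 1 := by linarith
  have hlc1 : -Real.log A ≤ Real.log ‖riemannZeta c‖ := by
    have h3 := Real.log_le_log (by positivity) h2.1
    rwa [one_div, Real.log_inv] at h3
  have hlc2 : Real.log ‖riemannZeta c‖ ≤ Real.log A :=
    Real.log_le_log (norm_pos_iff.2 hc0) h2.2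
  have hmaps : Set.MapsTo f (ball 0 R) {w | w.re ≤ X + Real.log A + 1} := by
    intro w hw
    have h3 := hmem w hw
    have h4 := hre _ h3
    have h5 := hre c (mem_ball_self hR)
    simp only [hf, mem_setOf_eq, sub_re]
    rw [h4, h5]
    have h6 : Real.log ‖riemannZeta (c + w)‖ ≤ X := by
      have h7 := h1 _ h3
      rw [Real.log_le_iff_le_exp (norm_pos_iff.2 h7.2.1)]
      exact h7.2.2
    linarith
  have hρ0 : 0 ≤ ρ := (norm_nonneg _).trans hz
  have hz' : z - c ∈ ball (0 : ℂ) R := by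
    rw [mem_ball, dist_eq_norm, sub_zero]
    linarith
  have hbc := Complex.borelCaratheodory_zero hM hfd hmaps hR hz' (by simp [hf])
  have hzc : c + (z - c) = z := by ring
  have h3 : ‖f (z - c)‖ ≤ 2 * (X + Real.log A + 1) * R / (R - ρ) := by
    refine hbc.trans ?_
    have h4 : 0 < R - ρ := by linarith
    have h5 : 0 < R - ‖z - c‖ := by linarith
    apply div_le_div₀ (by positivity) _ h4 (by linarith)
    have : ‖z - c‖ ≤ R := by linarith
    gcongr
  have h4 : (f (z - c)).re = Real.log ‖riemannZeta z‖ - Real.log ‖riemannZeta c‖ := by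
    simp only [hf, sub_re]
    rw [hre c (mem_ball_self hR), hzc, hre z (by rw [mem_ball, dist_eq_norm]; linarith)]
  have h5 := (Complex.abs_re_le_norm (f (z - c))).trans h3
  rw [h4] at h5
  obtain ⟨h6, h7⟩ := abs_le.1 h5
  rw [abs_le]
  constructor <;> linarith

open Classical in
/-- windows with a zero -/
theorem zero_windows {σ a : ℝ} (ha : 0 ≤ a) (W : Finset ℕ) (z : ℕ → ℂ)
    (hz : ∀ n ∈ W, riemannZeta (z n) = 0 ∧ σ ≤ (z n).re ∧ (n : ℝ) < (z n).im ∧ (z n).im ≤ n + 1 ∧
      (z n).im ≤ a) : (W.card : ℝ) ≤ N σ 0 a := by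
  have h1 : (W.image z).card = W.card := by
    apply Finset.card_image_of_injOn
    intro n hn m hm hnm
    have hn' : n ∈ W := hn
    have hm' : m ∈ W := hm
    have h2 := hz n hn'
    have h3 := hz m hm'
    rw [hnm] at h2
    have e1 : (n : ℝ) < ((m + 1 : ℕ) : ℝ) := by push_cast; linarith [h2.2.2.1, h3.2.2.2.1]
    have e2 : (m : ℝ) < ((n + 1 : ℕ) : ℝ) := by push_cast; linarith [h3.2.2.1, h2.2.2.2.1]
    have e3 : n < m + 1 := by exact_mod_cast e1
    have e4 : m < n + 1 := by exact_mod_cast e2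
    omega
  have h2 : ∑ s ∈ W.image z, analyticOrderNatAt riemannZeta s ≤ DH31.cnt (zs σ 0 a) := by
    apply DH31.sum_le_cnt (zs_finite _ _ _)
    intro s hs
    rw [Finset.mem_image] at hs
    obtain ⟨n, hn, rfl⟩ := hs
    have h3 := hz n hn
    have : (0 : ℝ) ≤ n := Nat.cast_nonneg n
    exact ⟨h3.1, h3.2.1, by linarith [h3.2.2.1], h3.2.2.2.2⟩
  have h3 : (W.image z).card ≤ ∑ s ∈ W.image z, analyticOrderNatAt riemannZeta s := by
    rw [Finset.card_eq_sum_ones]
    apply Finset.sum_le_sum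
    intro s hs
    rw [Finset.mem_image] at hs
    obtain ⟨n, hn, rfl⟩ := hs
    have h4 := hz n hn
    have hn0 : (0 : ℝ) ≤ n := Nat.cast_nonneg n
    have h5 : z n ≠ 1 := ne_one_of_im (by linarith [h4.2.2.1])
    have h6 : AnalyticAt ℂ riemannZeta (z n) := zeta_an h5
    have h7 : analyticOrderAt riemannZeta (z n) ≠ 0 := by
      rw [Ne, h6.analyticOrderAt_eq_zero, not_not]
      exact h4.1
    have h8 : analyticOrderAt riemannZeta (z n) ≠ ⊤ := by
      intro htop
      rw [analyticOrderAt_eq_top] at htop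
      have hU : IsPreconnected ({1}ᶜ : Set ℂ) := by
        refine (isConnected_compl_singleton_of_one_lt_rank ?_ 1).isPreconnected
        rw [Complex.rank_real_complex]
        norm_num
      have hz0 := AnalyticOnNhd.eqOn_zero_of_preconnected_of_eventuallyEq_zero
        (f := riemannZeta) (U := ({1}ᶜ : Set ℂ)) (fun s hs => zeta_an hs) hU
        (show z n ∈ ({1}ᶜ : Set ℂ) from h5) htop
      exact riemannZeta_ne_zero_of_one_le_re (s := 2) (by simp)
        (hz0 (show (2 : ℂ) ∈ ({1}ᶜ : Set ℂ) by simp))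
    rw [Nat.one_le_iff_ne_zero]
    intro h9
    rcases ENat.toNat_eq_zero.1 h9 with h10 | h10
    · exact h7 h10
    · exact h8 h10
  rw [N_eq]
  rw [h1] at h3
  exact_mod_cast h3.trans h2

open Classical in
/-- from points near the windows to points in the windows -/
theorem shift_card {U W : Finset ℕ} (y : ℕ → ℝ) (hy : ∀ n ∈ U, (n : ℝ) - 2 ≤ y n ∧ y n ≤ n + 3 ∧ 0 ≤ y n)
    (hW : ∀ n ∈ U, ⌊y n⌋₊ ∈ W) : U.card ≤ 6 * W.card := by
  have h1 : U.card ≤ 6 * (U.image (fun n => ⌊y n⌋₊)).card := by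
    refine Finset.card_le_mul_card_image (n := 6) U (f := fun n => ⌊y n⌋₊) ?_
    intro m hm
    have h5 : U.filter (fun n => ⌊y n⌋₊ = m) ⊆ Finset.Icc (m - 3) (m + 2) := by
      intro n hn
      rw [Finset.mem_filter] at hn
      obtain ⟨k1, k2, k3⟩ := hy n hn.1
      have k4 : ((⌊y n⌋₊ : ℕ) : ℝ) ≤ y n := Nat.floor_le k3
      have k5 := Nat.lt_floor_add_one (y n)
      rw [hn.2] at k4 k5
      rw [Finset.mem_Icc]
      constructor
      · have : (m : ℝ) ≤ ((n + 3 : ℕ) : ℝ) := by push_cast; linarith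
        have : m ≤ n + 3 := by exact_mod_cast this
        omega
      · have : (n : ℝ) < ((m + 3 : ℕ) : ℝ) := by push_cast; linarith
        have : n < m + 3 := by exact_mod_cast this
        omega
    refine (Finset.card_le_card h5).trans ?_
    rw [Nat.card_Icc]
    omega
  have h2 : (U.image (fun n => ⌊y n⌋₊)).card ≤ W.card := by
    apply Finset.card_le_card
    intro m hm
    rw [Finset.mem_image] at hm
    obtain ⟨n, hn, rfl⟩ := hm
    exact hW n hn
  omega

open Classical in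
/-- windows in which zeta is neither large nor small -/
theorem lz_ld {φ : ℝ → ℝ} (hc : ContinuousOn φ (Icc (1 / 2) 1)) (hφ : AntitoneOn φ (Icc (1 / 2) 1))
    (hlow : ∀ σ ∈ Icc (1 / 2 : ℝ) 1, 2 * (1 - σ) ≤ φ σ) (hL : LargeZeta φ) : LogDensity φ := by
  intro ε hε δ hδ
  obtain ⟨δ₁, hδ₁, hu⟩ := unif hc (show 0 < ε / 8 by positivity)
  set r : ℝ := min (δ₁ / 3) (1 / 12) with hr
  have hr0 : 0 < r := lt_min (by positivity) (by norm_num)
  have hr1 : r ≤ 1 / 12 := min_le_right _ _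
  have hr2 : 2 * r < δ₁ := by
    have : r ≤ δ₁ / 3 := min_le_left _ _
    linarith
  obtain ⟨A, hA1, hA⟩ := DH31.zeta_bounds (a := 2) (by norm_num)
  have hA0 : 0 < A := by linarith
  have hlA : 0 ≤ Real.log A := Real.log_nonneg hA1
  set η : ℝ := δ * r / 16 with hη
  have hη0 : 0 < η := by positivity
  obtain ⟨C₁, hC₁, T₁, hT₁⟩ := lz_zd hc hφ hlow hL (ε / 8) (by positivity)
  obtain ⟨C₂, hC₂, T₂, hT₂⟩ := win hφ hL hr0 hr1 (show 0 < η / 2 by positivity)
    (show 0 < ε / 8 by positivity)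
  set K : ℝ := (2 : ℝ) ^ (|φ (1 / 2)| + |ε / 8|) with hK
  have hK0 : 0 < K := by positivity
  have hev1 : ∀ᶠ T : ℝ in atTop, 16 * (Real.log A + 1) / r + 2 * Real.log A ≤ δ / 2 * Real.log T := by
    have := (Real.tendsto_log_atTop.const_mul_atTop (show 0 < δ / 2 by positivity))
    exact this.eventually_ge_atTop _
  have hev2 : ∀ᶠ T : ℝ in atTop, A ≤ T ^ η := (tendsto_rpow_atTop hη0).eventually_ge_atTop _
  have hev3 : ∀ᶠ T : ℝ in atTop, A ≤ T ^ δ := (tendsto_rpow_atTop hδ).eventually_ge_atTop _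
  obtain ⟨T₃, hT₃⟩ := eventually_atTop.1 (hev1.and (hev2.and hev3))
  refine ⟨1 + 6 + 6 * (C₁ * K) + 6 * (C₂ * K), by positivity, max (max T₁ T₂) (max T₃ 20), ?_⟩
  intro T hT σ hσ1 hσ2
  have hTT₁ : T₁ ≤ T := (le_max_left _ _).trans ((le_max_left _ _).trans hT)
  have hTT₂ : T₂ ≤ T := (le_max_right _ _).trans ((le_max_left _ _).trans hT)
  have hTT₃ : T₃ ≤ T := (le_max_left _ _).trans ((le_max_right _ _).trans hT)
  have hT20 : 20 ≤ T := (le_max_right _ _).trans ((le_max_right _ _).trans hT)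
  obtain ⟨hE, hF, hG⟩ := hT₃ T hTT₃
  have hT0 : 0 < T := by linarith
  have hTone : 1 ≤ T := by linarith
  have hlog0 : 0 ≤ Real.log T := Real.log_nonneg hTone
  have hσ : σ ∈ Icc (1 / 2 : ℝ) 1 := ⟨hσ1, hσ2⟩
  have hφ0 : 0 ≤ φ σ := le_trans (by linarith) (hlow σ hσ)
  have hP1 : 1 ≤ T ^ (φ σ + ε) := Real.one_le_rpow hTone (by linarith)
  set U : Finset ℕ := (Finset.range ⌊T⌋₊).filter (fun n : ℕ => ∃ s : ℂ, σ ≤ s.re ∧ (n : ℝ) ≤ s.im ∧
    s.im ≤ n + 1 ∧ ¬ (T ^ (-δ) ≤ ‖riemannZeta s‖ ∧ ‖riemannZeta s‖ ≤ T ^ δ)) with hU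
  have hUT : ∀ n ∈ U, (n : ℝ) + 1 ≤ T := by
    intro n hn
    rw [hU, Finset.mem_filter, Finset.mem_range] at hn
    have h1 : n + 1 ≤ ⌊T⌋₊ := hn.1
    have h2 : ((n + 1 : ℕ) : ℝ) ≤ T := (Nat.cast_le.2 h1).trans (Nat.floor_le hT0.le)
    push_cast at h2
    exact h2
  have hUc : (U.card : ℝ) ≤ T := by
    have h1 : U.card ≤ ⌊T⌋₊ := (Finset.card_filter_le _ _).trans (by rw [Finset.card_range])
    exact (Nat.cast_le.2 h1).trans (Nat.floor_le hT0.le)
  rcases lt_or_ge σ (1 / 2 + 2 * r) with hcase | hcase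
  · have h1 := hu (1 / 2) ⟨le_rfl, by norm_num⟩ σ hσ (by
      rw [abs_sub_comm, abs_of_nonneg (by linarith)]; linarith)
    have h2 := hlow (1 / 2) ⟨le_rfl, by norm_num⟩
    have h3 : 1 ≤ φ σ + ε := by
      have := (abs_lt.1 h1).2
      linarith
    have h5 : T ≤ T ^ (φ σ + ε) := by
      calc T = T ^ (1 : ℝ) := (Real.rpow_one _).symm
        _ ≤ T ^ (φ σ + ε) := Real.rpow_le_rpow_of_exponent_le hTone h3
    have h6 : 0 ≤ 6 + 6 * (C₁ * K) + 6 * (C₂ * K) := by positivity
    nlinarith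
  · have hσr : σ - 2 * r ∈ Icc (1 / 2 : ℝ) 1 := ⟨by linarith, by linarith⟩
    have hσr1 : σ - r ∈ Icc (1 / 2 : ℝ) 1 := ⟨by linarith, by linarith⟩
    set U₀ : Finset ℕ := U.filter (fun n => n < 6) with hU₀
    set U₁ : Finset ℕ := U.filter (fun n => 6 ≤ n ∧ ∃ z : ℂ, riemannZeta z = 0 ∧ σ - r ≤ z.re ∧
      (n : ℝ) - 2 < z.im ∧ z.im ≤ n + 3) with hU₁
    set U₂ : Finset ℕ := U.filter (fun n => 6 ≤ n ∧ ∃ z : ℂ, σ - r ≤ z.re ∧ z.re ≤ 2 ∧
      (n : ℝ) - 2 ≤ z.im ∧ z.im ≤ n + 3 ∧ T ^ η ≤ ‖riemannZeta z‖) with hU₂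
    have hcover : U ⊆ U₀ ∪ U₁ ∪ U₂ := by
      intro n hn
      by_contra hcon
      rw [Finset.mem_union, Finset.mem_union, not_or, not_or] at hcon
      obtain ⟨⟨hc0, hc1⟩, hc2⟩ := hcon
      have hn6 : 6 ≤ n := by
        by_contra h
        exact hc0 (Finset.mem_filter.2 ⟨hn, by omega⟩)
      have hn6r : (6 : ℝ) ≤ n := by exact_mod_cast hn6
      have hz0 : ∀ z : ℂ, σ - r ≤ z.re → (n : ℝ) - 2 < z.im → z.im ≤ n + 3 → riemannZeta z ≠ 0 := by
        intro z h1 h2 h3 h4
        exact hc1 (Finset.mem_filter.2 ⟨hn, hn6, z, h4, h1, h2, h3⟩)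
      have hz1 : ∀ z : ℂ, σ - r ≤ z.re → (n : ℝ) - 2 ≤ z.im → z.im ≤ n + 3 →
          ‖riemannZeta z‖ ≤ T ^ η := by
        intro z h1 h2 h3
        rcases le_or_gt z.re 2 with h4 | h4
        · by_contra h5
          push Not at h5
          exact hc2 (Finset.mem_filter.2 ⟨hn, hn6, z, h1, h4, h2, h3, h5.le⟩)
        · exact ((hA z h4.le).1).trans hF
      rw [hU, Finset.mem_filter] at hn
      obtain ⟨-, s, hs1, hs2, hs3, hs4⟩ := hn
      apply hs4
      have hpos : 0 < ‖riemannZeta s‖ := norm_pos_iff.2 (hz0 s (by linarith) (by linarith) (by linarith))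
      suffices h : |Real.log ‖riemannZeta s‖| ≤ δ * Real.log T by
        obtain ⟨h5, h6⟩ := abs_le.1 h
        constructor
        · rw [Real.rpow_def_of_pos hT0, ← Real.le_log_iff_exp_le hpos]
          linarith
        · rw [Real.rpow_def_of_pos hT0, ← Real.log_le_iff_le_exp hpos]
          linarith
      rcases le_or_gt s.re 2 with h4 | h4
      · have h7 := log_small (c := (2 : ℂ) + s.im * I) (R := 2 - (σ - r)) (ρ := 2 - σ)
          (A := A) (X := η * Real.log T) (by linarith) (by linarith) hA1 (by positivity) (by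
            intro z hz
            rw [mem_ball, dist_eq_norm] at hz
            have k1 := (Complex.abs_re_le_norm _).trans hz.le
            have k2 := (Complex.abs_im_le_norm _).trans_lt hz
            simp only [sub_re, sub_im, add_re, add_im, re_ofNat, im_ofNat, mul_re, mul_im,
              ofReal_re, ofReal_im, I_re, I_im, mul_zero, mul_one, sub_zero, add_zero, zero_add,
              zero_mul] at k1 k2
            obtain ⟨k3, k4⟩ := abs_le.1 k1
            obtain ⟨k5, k6⟩ := abs_lt.1 k2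
            refine ⟨ne_one_of_im (by linarith), hz0 z (by linarith) (by linarith) (by linarith), ?_⟩
            have k7 := hz1 z (by linarith) (by linarith) (by linarith)
            rwa [Real.rpow_def_of_pos hT0, mul_comm] at k7)
          (by
            have := hA ((2 : ℂ) + s.im * I) (by simp)
            exact ⟨this.2, this.1⟩) (z := s) (by
            have e : s - ((2 : ℂ) + s.im * I) = ((s.re - 2 : ℝ) : ℂ) := by
              apply Complex.ext <;> simp
            rw [e, Complex.norm_real, Real.norm_eq_abs, abs_sub_comm, abs_of_nonneg (by linarith)]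
            linarith)
        have h8 : 2 - (σ - r) - (2 - σ) = r := by ring
        rw [h8] at h7
        refine h7.trans ?_
        have h9 : 2 - (σ - r) ≤ 2 := by linarith
        have h10 : 0 ≤ η * Real.log T + Real.log A + 1 := by positivity
        have h11 : 2 * (η * Real.log T + Real.log A + 1) * (2 - (σ - r)) / r ≤
            4 * (η * Real.log T + Real.log A + 1) / r := by
          apply div_le_div_of_nonneg_right _ hr0.le
          nlinarith
        have h12 : 4 * (η * Real.log T + Real.log A + 1) / r =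
            δ / 4 * Real.log T + 4 * (Real.log A + 1) / r := by
          rw [hη]
          field_simp
          ring
        have h13 : 4 * (Real.log A + 1) / r ≤ 16 * (Real.log A + 1) / r := by
          gcongr
          norm_num
        have h14 : 0 ≤ δ * Real.log T := by positivity
        linarith
      · obtain ⟨h7, h8⟩ := hA s h4.le
        have h9 : Real.log A ≤ δ * Real.log T := by
          have := Real.log_le_log hA0 hG
          rwa [Real.log_rpow hT0] at this
        have h10 : Real.log ‖riemannZeta s‖ ≤ Real.log A := Real.log_le_log hpos h7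
        have h11 := Real.log_le_log (by positivity) h8
        rw [one_div, Real.log_inv] at h11
        rw [abs_le]
        constructor <;> linarith
    -- counting
    have hc0 : (U₀.card : ℝ) ≤ 6 := by
      have : U₀ ⊆ Finset.range 6 := fun n hn => Finset.mem_range.2 (Finset.mem_filter.1 hn).2
      have := Finset.card_le_card this
      rw [Finset.card_range] at this
      exact_mod_cast this
    have hc1 : (U₁.card : ℝ) ≤ 6 * (C₁ * (2 * T) ^ (φ (σ - r) + ε / 8)) := by
      have h1 : ∀ n ∈ U₁, ∃ z : ℂ, riemannZeta z = 0 ∧ σ - r ≤ z.re ∧ (n : ℝ) - 2 < z.im ∧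
          z.im ≤ n + 3 ∧ 4 < z.im ∧ z.im ≤ 2 * T := by
        intro n hn
        rw [hU₁, Finset.mem_filter] at hn
        obtain ⟨hnU, hn6, z, h1, h2, h3, h4⟩ := hn
        have h5 := hUT n hnU
        have hn6r : (6 : ℝ) ≤ n := by exact_mod_cast hn6
        exact ⟨z, h1, h2, h3, h4, by linarith, by linarith⟩
      choose! z hz1 hz2 hz3 hz4 hz5 hz6 using h1
      -- the windows of the zeros
      set W : Finset ℕ := U₁.image (fun n => ⌈(z n).im⌉₊ - 1) with hW
      have hWz : ∀ m ∈ W, ∃ n ∈ U₁, ⌈(z n).im⌉₊ - 1 = m := fun m hm => by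
        rw [hW, Finset.mem_image] at hm
        exact hm
      choose! g hg1 hg2 using hWz
      have hceil : ∀ n ∈ U₁, ((⌈(z n).im⌉₊ - 1 : ℕ) : ℝ) = (⌈(z n).im⌉₊ : ℝ) - 1 := by
        intro n hn
        have h2 : 1 ≤ ⌈(z n).im⌉₊ := Nat.one_le_iff_ne_zero.2 (by
          intro h; rw [Nat.ceil_eq_zero] at h; linarith [hz5 n hn])
        rw [Nat.cast_sub h2]; push_cast; ring
      have h2 := zero_windows (σ := σ - r) (a := 2 * T) (by linarith) W (fun m => z (g m)) (by
        intro m hm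
        have k1 := hg1 m hm
        have k2 := hg2 m hm
        have k3 := hceil _ k1
        rw [k2] at k3
        have k4 := Nat.ceil_lt_add_one (show 0 ≤ (z (g m)).im by linarith [hz5 _ k1])
        have k5 := Nat.le_ceil (z (g m)).im
        exact ⟨hz1 _ k1, hz2 _ k1, by linarith, by linarith, hz6 _ k1⟩)
      have h3 := hT₁ (2 * T) (by linarith) (σ - r) hσr1.1 hσr1.2
      have h4 : U₁.card ≤ 6 * W.card := by
        refine Finset.card_le_mul_card_image (n := 6) U₁ (f := fun n => ⌈(z n).im⌉₊ - 1) ?_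
        intro m hm
        have h5 : U₁.filter (fun n => ⌈(z n).im⌉₊ - 1 = m) ⊆ Finset.Icc (m - 2) (m + 2) := by
          intro n hn
          rw [Finset.mem_filter] at hn
          have k1 := hz3 n hn.1
          have k2 := hz4 n hn.1
          have k3 := hceil _ hn.1
          rw [hn.2] at k3
          have k4 := Nat.ceil_lt_add_one (show 0 ≤ (z n).im by linarith [hz5 _ hn.1])
          have k5 := Nat.le_ceil (z n).im
          rw [Finset.mem_Icc]
          constructor
          · have : (m : ℝ) < ((n + 3 : ℕ) : ℝ) := by push_cast; linarith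
            have : m < n + 3 := by exact_mod_cast this
            omega
          · have : (n : ℝ) < ((m + 3 : ℕ) : ℝ) := by push_cast; linarith
            have : n < m + 3 := by exact_mod_cast this
            omega
        refine (Finset.card_le_card h5).trans ?_
        rw [Nat.card_Icc]
        omega
      have h5 : (U₁.card : ℝ) ≤ 6 * W.card := by exact_mod_cast h4
      linarith
    have hc2 : (U₂.card : ℝ) ≤ 6 * (C₂ * (2 * T) ^ (φ (σ - 2 * r) + ε / 8)) := by
      have h1 : ∀ n ∈ U₂, ∃ z : ℂ, σ - r ≤ z.re ∧ z.re ≤ 2 ∧ (n : ℝ) - 2 ≤ z.im ∧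
          z.im ≤ n + 3 ∧ 4 ≤ z.im ∧ z.im ≤ 2 * T ∧ (2 * T) ^ (η / 2) ≤ ‖riemannZeta z‖ := by
        intro n hn
        rw [hU₂, Finset.mem_filter] at hn
        obtain ⟨hnU, hn6, z, h1, h2, h3, h4, h5⟩ := hn
        have h6 := hUT n hnU
        have hn6r : (6 : ℝ) ≤ n := by exact_mod_cast hn6
        refine ⟨z, h1, h2, h3, h4, by linarith, by linarith, le_trans ?_ h5⟩
        calc (2 * T) ^ (η / 2) ≤ (T ^ (2 : ℝ)) ^ (η / 2) := by
              apply Real.rpow_le_rpow (by positivity) _ (by positivity)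
              rw [Real.rpow_two]; nlinarith
          _ = T ^ η := by rw [← Real.rpow_mul hT0.le]; congr 1; ring
      choose! z hz1 hz2 hz3 hz4 hz5 hz6 hz7 using h1
      set W : Finset ℕ := U₂.image (fun n => ⌊(z n).im⌋₊) with hW
      have hWz : ∀ m ∈ W, ∃ n ∈ U₂, ⌊(z n).im⌋₊ = m := fun m hm => by
        rw [hW, Finset.mem_image] at hm
        exact hm
      choose! g hg1 hg2 using hWz
      have h2 := hT₂ (2 * T) (by linarith) (σ - r) (by linarith) (by linarith) W
        (fun m => z (g m)) (by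
          intro m hm
          have k1 := hg1 m hm
          have k2 := hg2 m hm
          have k3 : ((⌊(z (g m)).im⌋₊ : ℕ) : ℝ) ≤ (z (g m)).im :=
            Nat.floor_le (by linarith [hz5 _ k1])
          have k4 := (Nat.lt_floor_add_one (z (g m)).im).le
          rw [k2] at k3 k4
          exact ⟨hz1 _ k1, hz2 _ k1, k3, k4, by linarith [hz5 _ k1], hz6 _ k1, hz7 _ k1⟩)
      rw [show σ - r - r = σ - 2 * r by ring] at h2
      have h4 : U₂.card ≤ 6 * W.card := shift_card (fun n => (z n).im)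
        (fun n hn => ⟨hz3 n hn, hz4 n hn, by linarith [hz5 n hn]⟩)
        (fun n hn => Finset.mem_image_of_mem _ hn)
      have h5 : (U₂.card : ℝ) ≤ 6 * W.card := by exact_mod_cast h4
      linarith
    have h1 : (U.card : ℝ) ≤ U₀.card + U₁.card + U₂.card := by
      have h2 := Finset.card_le_card hcover
      have h3 := Finset.card_union_le (U₀ ∪ U₁) U₂
      have h4 := Finset.card_union_le U₀ U₁
      exact_mod_cast (by omega : U.card ≤ U₀.card + U₁.card + U₂.card)
    have h2 : (2 * T) ^ (φ (σ - r) + ε / 8) ≤ K * T ^ (φ σ + ε) := by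
      have h7 := two_pow hφ (e := ε / 8) hσr1 hTone
      have h8 := hu (σ - r) hσr1 σ hσ (by
        rw [abs_sub_comm, abs_of_nonneg (by linarith)]; linarith)
      refine h7.trans ?_
      have h9 : φ (σ - r) + ε / 8 ≤ φ σ + ε := by
        have := (abs_lt.1 h8).2
        linarith
      gcongr
    have h3 : (2 * T) ^ (φ (σ - 2 * r) + ε / 8) ≤ K * T ^ (φ σ + ε) := by
      have h7 := two_pow hφ (e := ε / 8) hσr hTone
      have h8 := hu (σ - 2 * r) hσr σ hσ (by
        rw [abs_sub_comm, abs_of_nonneg (by linarith)]; linarith)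
      refine h7.trans ?_
      have h9 : φ (σ - 2 * r) + ε / 8 ≤ φ σ + ε := by
        have := (abs_lt.1 h8).2
        linarith
      gcongr
    have h4 : 6 * (C₁ * (2 * T) ^ (φ (σ - r) + ε / 8)) ≤ 6 * (C₁ * (K * T ^ (φ σ + ε))) := by gcongr
    have h5 : 6 * (C₂ * (2 * T) ^ (φ (σ - 2 * r) + ε / 8)) ≤ 6 * (C₂ * (K * T ^ (φ σ + ε))) := by
      gcongr
    nlinarith

open Classical in
/-- and conversely -/
theorem ld_lz {φ : ℝ → ℝ} (hlow : ∀ σ ∈ Icc (1 / 2 : ℝ) 1, 2 * (1 - σ) ≤ φ σ)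
    (hD : LogDensity φ) : LargeZeta φ := by
  intro ε hε δ hδ
  obtain ⟨C₁, hC₁, T₁, hT₁⟩ := hD ε hε (δ / 2) (by positivity)
  refine ⟨1 + C₁, by positivity, max T₁ 3, ?_⟩
  intro T hT σ hσ1 hσ2
  have hTT₁ : T₁ ≤ T := (le_max_left _ _).trans hT
  have hT3 : 3 ≤ T := (le_max_right _ _).trans hT
  have hT0 : 0 < T := by linarith
  have hTone : 1 ≤ T := by linarith
  have hφ0 : 0 ≤ φ σ := le_trans (by linarith) (hlow σ ⟨hσ1, hσ2⟩)
  have hP1 : 1 ≤ T ^ (φ σ + ε) := Real.one_le_rpow hTone (by linarith)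
  have h1 := hT₁ T hTT₁ σ hσ1 hσ2
  set U : Finset ℕ := (Finset.range ⌊T⌋₊).filter (fun n : ℕ => ∃ s : ℂ, σ ≤ s.re ∧ (n : ℝ) ≤ s.im ∧
    s.im ≤ n + 1 ∧ ¬ (T ^ (-(δ / 2)) ≤ ‖riemannZeta s‖ ∧ ‖riemannZeta s‖ ≤ T ^ (δ / 2))) with hU
  have hsub : {t : ℝ | 0 ≤ t ∧ t ≤ T ∧ T ^ δ ≤ ‖riemannZeta (σ + t * I)‖} ⊆
      Icc (⌊T⌋₊ : ℝ) (⌊T⌋₊ + 1) ∪ ⋃ j ∈ U, Icc (j : ℝ) (j + 1) := by
    rintro t ⟨h2, h3, h4⟩
    have h5 := Nat.floor_le h2
    have h6 := Nat.lt_floor_add_one t
    rcases lt_or_ge t (⌊T⌋₊ : ℝ) with h7 | h7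
    · right
      simp only [mem_iUnion]
      refine ⟨⌊t⌋₊, ?_, h5, h6.le⟩
      rw [hU, Finset.mem_filter, Finset.mem_range]
      refine ⟨(Nat.floor_lt h2).2 h7, σ + t * I, by simp, by simpa using h5, by simpa using h6.le, ?_⟩
      rintro ⟨-, h8⟩
      have h9 : T ^ (δ / 2) < T ^ δ :=
        Real.rpow_lt_rpow_of_exponent_lt (by linarith) (by linarith)
      linarith
    · left
      exact ⟨h7, h3.trans (Nat.lt_floor_add_one T).le⟩
  refine (measure_mono hsub).trans ((measure_union_le _ _).trans ?_)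
  have h8 : volume (⋃ j ∈ U, Icc (j : ℝ) (j + 1)) ≤ ENNReal.ofReal U.card := by
    refine (measure_biUnion_finset_le _ _).trans ?_
    have : ∀ j ∈ U, volume (Icc (j : ℝ) (j + 1)) = 1 := by
      intro j _
      rw [Real.volume_Icc]
      simp
    rw [Finset.sum_congr rfl this, Finset.sum_const, nsmul_eq_mul, mul_one, ENNReal.ofReal_natCast]
  have h9 : volume (Icc (⌊T⌋₊ : ℝ) (⌊T⌋₊ + 1)) = ENNReal.ofReal 1 := by
    rw [Real.volume_Icc]
    simp
  rw [h9]
  refine (add_le_add le_rfl h8).trans ?_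
  rw [← ENNReal.ofReal_add (by norm_num) (by positivity)]
  apply ENNReal.ofReal_le_ofReal
  linarith

/-- **Equivalent forms of zero density.** -/
theorem tfae' {φ : ℝ → ℝ} (hc : ContinuousOn φ (Icc (1 / 2) 1)) (hφ : AntitoneOn φ (Icc (1 / 2) 1))
    (hlow : ∀ σ ∈ Icc (1 / 2 : ℝ) 1, 2 * (1 - σ) ≤ φ σ) :
    List.TFAE [ZeroDensity φ, ClusterDensity φ, LogDensity φ, LargeZeta φ, LargePoly φ] := by
  tfae_have 1 → 2 := zd_cd
  tfae_have 2 → 4 := cd_lz hc hφ hlow
  tfae_have 4 → 1 := lz_zd hc hφ hlow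
  tfae_have 4 → 3 := lz_ld hc hφ hlow
  tfae_have 3 → 4 := ld_lz hlow
  tfae_have 4 → 5 := lz_lp hc hφ hlow
  tfae_have 5 → 4 := lp_lz hlow
  tfae_finish

end Pool.Agent.Y751.DH
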