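import Pool.Agent.Y751.DH.Defs
import Pool.Agent.H777R2.SM_T6F
import Pool.Agent.Helper242.KK.Gam1
import Pool.Agent.H388LH.ZG

set_option autoImplicit false

/-!
# The smoothed zeta polynomial and the size of zeta on a vertical segment
-/

open Complex MeasureTheory Set Filter Topology

namespace Pool.Agent.Y751.DH

/-- exponential decay of the Gamma function in a strip -/
theorem gamma_decay : ∃ C : ℝ, 1 ≤ C ∧ ∀ x y : ℝ, 1 / 2 ≤ x → x ≤ 2 →
    ‖Complex.Gamma ((x : ℂ) + (y : ℂ) * I)‖ ≤ C * Real.exp (-|y|) := by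
  obtain ⟨B, hB⟩ := (isCompact_Icc (a := (1 / 2 : ℝ)) (b := 2)).exists_bound_of_continuousOn
    (f := fun x : ℝ => Real.Gamma x) (by
      intro x hx
      apply ContinuousAt.continuousWithinAt
      apply (Real.differentiableAt_Gamma _).continuousAt
      intro m hm
      have h1 : (0 : ℝ) ≤ m := Nat.cast_nonneg m
      have := hx.1
      linarith)
  have hc : 0 < Real.cos 1 := Real.cos_one_pos
  have hc1 : Real.cos 1 ≤ 1 := Real.cos_le_one 1
  have hB0 : 0 ≤ B := (norm_nonneg _).trans (hB 1 ⟨by norm_num, by norm_num⟩)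
  refine ⟨max 1 (B / (Real.cos 1) ^ (2 : ℝ)), le_max_left _ _, ?_⟩
  intro x y hx1 hx2
  have h := Pool.Agent.Helper242.KK.norm_Gamma_le_of_angle (σ := x) (v := y) (θ := 1)
    (by linarith) (by norm_num) (by linarith [Real.pi_gt_three])
  have h1 : Real.Gamma x ≤ B := by
    have := hB x ⟨hx1, hx2⟩
    exact (le_abs_self _).trans this
  have hG : 0 < Real.Gamma x := Real.Gamma_pos_of_pos (by linarith)
  have h2 : (Real.cos 1) ^ (2 : ℝ) ≤ (Real.cos 1) ^ x :=
    Real.rpow_le_rpow_of_exponent_ge hc hc1 hx2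
  have h3 : 0 < (Real.cos 1) ^ (2 : ℝ) := Real.rpow_pos_of_pos hc _
  refine h.trans ?_
  have e : Real.exp (-1 * |y|) = Real.exp (-|y|) := by ring_nf
  rw [e]
  calc Real.exp (-|y|) * Real.Gamma x / Real.cos 1 ^ x
      ≤ Real.exp (-|y|) * B / Real.cos 1 ^ (2 : ℝ) := by gcongr
    _ = (B / Real.cos 1 ^ (2 : ℝ)) * Real.exp (-|y|) := by ring
    _ ≤ _ := by
        gcongr
        exact le_max_right _ _

theorem exp_abs_integrable : Integrable (fun y : ℝ => Real.exp (-|y|)) := by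
  rw [← integrableOn_univ, ← Iic_union_Ioi (a := (0 : ℝ))]
  refine IntegrableOn.union ?_ ?_
  · refine (integrableOn_exp_Iic 0).congr_fun (fun y hy => ?_) measurableSet_Iic
    simp only [abs_of_nonpos (show y ≤ 0 from hy), neg_neg]
  · refine (integrableOn_exp_neg_Ioi 0).congr_fun (fun y hy => ?_) measurableSet_Ioi
    simp only [abs_of_pos (show 0 < y from hy)]

theorem integral_exp_abs : ∫ y : ℝ, Real.exp (-|y|) = 2 := by
  have h := integral_comp_abs (f := fun y : ℝ => Real.exp (-y))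
  rw [h, integral_exp_neg_Ioi_zero]
  norm_num

/-- outside `[-W, W]` -/
theorem tail_exp_abs {W : ℝ} : ∀ y : ℝ, W ≤ |y| →
    Real.exp (-|y|) ≤ Real.exp (-(W / 2)) * Real.exp (-(|y| / 2)) := by
  intro y hy
  rw [← Real.exp_add]
  apply Real.exp_le_exp.2
  linarith

/-- the integrand of the Mellin representation -/
noncomputable def Th (M t : ℝ) (s : ℂ) : ℂ :=
  riemannZeta (s + t * I) * (M : ℂ) ^ s * Complex.Gamma s

theorem gamma_line_cont (x : ℝ) (hx : 0 < x) :
    Continuous (fun y : ℝ => Complex.Gamma ((x : ℂ) + (y : ℂ) * I)) := by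
  rw [continuous_iff_continuousAt]
  intro y
  have h1 : ContinuousAt Complex.Gamma ((x : ℂ) + (y : ℂ) * I) := by
    apply (Complex.differentiableAt_Gamma _ ?_).continuousAt
    intro m hm
    have h2 := congrArg Complex.re hm
    simp at h2
    have : (0 : ℝ) ≤ m := Nat.cast_nonneg m
    linarith
  exact ContinuousAt.comp (f := fun y : ℝ => (x : ℂ) + (y : ℂ) * I) h1 (by fun_prop)

/-- The Mellin representation on the line `Re s = 2`. -/
theorem F_eq (M t : ℝ) (hM : 0 < M) :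
    F M t = (1 / (2 * Real.pi) : ℝ) • ∫ y : ℝ, Th M t ((2 : ℝ) + y * I) := by
  obtain ⟨Cg, hCg1, hCg⟩ := gamma_decay
  set G : ℕ → ℝ → ℂ := fun n y => ((n : ℂ) + 1) ^ (-(((2 : ℝ) : ℂ) + (y : ℂ) * I + t * I)) *
    (M : ℂ) ^ (((2 : ℝ) : ℂ) + (y : ℂ) * I) * Complex.Gamma (((2 : ℝ) : ℂ) + (y : ℂ) * I) with hG
  have hn0 : ∀ n : ℕ, ((n : ℂ) + 1) ≠ 0 := fun n => Nat.cast_add_one_ne_zero n
  have hMc : (M : ℂ) ≠ 0 := by exact_mod_cast hM.ne'
  have hnormG : ∀ (n : ℕ) (y : ℝ), ‖G n y‖ =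
      ((n : ℝ) + 1) ^ (-2 : ℝ) * M ^ (2 : ℝ) * ‖Complex.Gamma (((2 : ℝ) : ℂ) + (y : ℂ) * I)‖ := by
    intro n y
    simp only [hG, norm_mul]
    congr 2
    · have h1 : ((n : ℂ) + 1) = (((n : ℝ) + 1 : ℝ) : ℂ) := by push_cast; rfl
      rw [h1, Complex.norm_cpow_eq_rpow_re_of_pos (by positivity)]
      simp
    · rw [Complex.norm_cpow_eq_rpow_re_of_pos hM]
      simp
  have hcont : ∀ n, Continuous (G n) := by
    intro n
    simp only [hG]
    refine (Continuous.mul ?_ ?_).mul (gamma_line_cont 2 (by norm_num))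
    · exact Continuous.const_cpow (by fun_prop) (Or.inl (hn0 n))
    · exact Continuous.const_cpow (by fun_prop) (Or.inl hMc)
  have hint : ∀ n, Integrable (G n) := by
    intro n
    refine Integrable.mono' (exp_abs_integrable.const_mul (((n : ℝ) + 1) ^ (-2 : ℝ) * M ^ (2 : ℝ) * Cg))
      (hcont n).aestronglyMeasurable (Eventually.of_forall fun y => ?_)
    rw [hnormG, mul_assoc (((n : ℝ) + 1) ^ (-2 : ℝ) * M ^ (2 : ℝ))]
    have := hCg 2 y (by norm_num) le_rfl
    gcongr
  have hsum : Summable (fun n => ∫ y, ‖G n y‖) := by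
    have h1 : ∀ n : ℕ, ∫ y, ‖G n y‖ = ((n : ℝ) + 1) ^ (-2 : ℝ) * (M ^ (2 : ℝ) *
        ∫ y : ℝ, ‖Complex.Gamma (((2 : ℝ) : ℂ) + (y : ℂ) * I)‖) := by
      intro n
      simp only [hnormG]
      rw [integral_const_mul]
      ring
    simp only [h1]
    apply Summable.mul_right
    have h2 := (summable_nat_add_iff (f := fun n : ℕ => (n : ℝ) ^ (-2 : ℝ)) 1).2
      (Real.summable_nat_rpow.2 (by norm_num))
    simpa using h2
  have h := hasSum_integral_of_summable_integral_norm hint hsum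
  have h1 : ∀ y : ℝ, ∑' n, G n y = Th M t ((2 : ℝ) + y * I) := by
    intro y
    simp only [hG, Th]
    rw [tsum_mul_right, tsum_mul_right]
    congr 2
    have hre : 1 < (((2 : ℝ) : ℂ) + (y : ℂ) * I + t * I).re := by simp
    rw [zeta_eq_tsum_one_div_nat_add_one_cpow hre]
    congr 1
    ext n
    rw [Complex.cpow_neg, one_div]
  have h2 : ∀ n : ℕ, (1 / (2 * Real.pi) : ℝ) • ∫ y, G n y =
      (Real.exp (-((n + 1) / M)) : ℂ) * ((n : ℂ) + 1) ^ (-(t * I)) := by
    intro n
    have hx : 0 < ((n : ℝ) + 1) / M := by positivity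
    have h3 := Pool.Agent.H777R2.SM.powexp_inversion 0 (((n : ℝ) + 1) / M) hx
    simp only [pow_zero, one_mul, Nat.cast_zero, add_zero] at h3
    have h4 : ∀ y : ℝ, G n y = ((((n : ℝ) + 1) / M : ℝ) : ℂ) ^ (-((2 : ℝ) + y * I : ℂ)) *
        Complex.Gamma ((2 : ℝ) + y * I) * ((n : ℂ) + 1) ^ (-(t * I)) := by
      intro y
      simp only [hG]
      have e1 : -(((2 : ℝ) : ℂ) + (y : ℂ) * I + t * I) = -(((2 : ℝ) : ℂ) + (y : ℂ) * I) + (-(t * I)) := by
        ring
      have e2 : ((((n : ℝ) + 1) / M : ℝ) : ℂ) ^ (-((2 : ℝ) + y * I : ℂ)) =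
          ((n : ℂ) + 1) ^ (-((2 : ℝ) + y * I : ℂ)) * (M : ℂ) ^ (((2 : ℝ) : ℂ) + (y : ℂ) * I) := by
        rw [div_eq_mul_inv, Complex.ofReal_mul, Complex.mul_cpow_ofReal_nonneg (by positivity)
          (by positivity)]
        congr 1
        · push_cast; rfl
        · rw [Complex.ofReal_inv, Complex.inv_cpow, Complex.cpow_neg, inv_inv]
          rw [Complex.arg_ofReal_of_nonneg hM.le]
          exact Real.pi_pos.ne
      rw [e1, Complex.cpow_add _ _ (hn0 n), e2]
      ring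
    rw [h3]
    simp_rw [h4]
    rw [integral_mul_const, smul_mul_assoc]
  have h5 := h.const_smul (1 / (2 * Real.pi) : ℝ)
  simp only [h1, h2] at h5
  unfold F
  exact h5.tsum_eq

theorem Th_diff {M t : ℝ} (hM : 0 < M) {s : ℂ} (h1 : 0 < s.re) (h2 : 0 < s.im + t) :
    DifferentiableAt ℂ (Th M t) s := by
  have hMc : (M : ℂ) ≠ 0 := by exact_mod_cast hM.ne'
  have e1 : DifferentiableAt ℂ (fun s : ℂ => riemannZeta (s + t * I)) s := by
    have h3 : DifferentiableAt ℂ riemannZeta (s + t * I) := by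
      apply differentiableAt_riemannZeta
      intro h
      have := congrArg Complex.im h
      simp at this
      linarith
    exact h3.comp s (by fun_prop)
  have e2 : DifferentiableAt ℂ (fun s : ℂ => (M : ℂ) ^ s) s :=
    differentiableAt_id.const_cpow (Or.inl hMc)
  have e3 : DifferentiableAt ℂ Complex.Gamma s := by
    apply Complex.differentiableAt_Gamma
    intro m hm
    have := congrArg Complex.re hm
    simp at this
    have h4 : (0 : ℝ) ≤ m := Nat.cast_nonneg m
    linarith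
  exact (e1.mul e2).mul e3

/-- The smoothed zeta polynomial is bounded by the values of zeta on a short vertical segment. -/
theorem F_bound : ∃ C : ℝ, 0 < C ∧ ∃ T₀ : ℝ, 1 ≤ T₀ ∧ ∀ T : ℝ, T₀ ≤ T → ∀ t M σ B : ℝ,
    Real.log T ^ 2 ≤ t → t ≤ T → 1 ≤ M → M ≤ T ^ 2 → 1 / 2 ≤ σ → σ ≤ 1 → 0 ≤ B →
    (∀ v : ℝ, |v| ≤ Real.log T ^ 2 / 2 → ‖riemannZeta (σ + ((t + v : ℝ) : ℂ) * I)‖ ≤ B) →
    ‖F M t‖ ≤ C * (1 + M ^ σ * B) := by
  obtain ⟨Cg, hCg1, hCg⟩ := gamma_decay
  obtain ⟨Z2, hZ2⟩ : ∃ Z2 : ℝ, 0 ≤ Z2 ∧ ∀ s : ℂ, 2 ≤ s.re → ‖riemannZeta s‖ ≤ Z2 := by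
    refine ⟨∑' n : ℕ, 1 / ((n : ℝ) + 1) ^ (2 : ℝ), tsum_nonneg fun n => by positivity, ?_⟩
    intro s hs
    have hsum : Summable (fun n : ℕ => 1 / ((n : ℝ) + 1) ^ (2 : ℝ)) := by
      have h2 := (summable_nat_add_iff (f := fun n : ℕ => 1 / (n : ℝ) ^ (2 : ℝ)) 1).2
        (Real.summable_one_div_nat_rpow.2 (by norm_num))
      simpa using h2
    rw [zeta_eq_tsum_one_div_nat_add_one_cpow (by linarith)]
    refine tsum_of_norm_bounded hsum.hasSum fun n => ?_
    rw [norm_div, norm_one]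
    have h1 : ((n : ℂ) + 1) = (((n : ℝ) + 1 : ℝ) : ℂ) := by push_cast; rfl
    rw [h1, Complex.norm_cpow_eq_rpow_re_of_pos (by positivity)]
    apply one_div_le_one_div_of_le (by positivity)
    apply Real.rpow_le_rpow_of_exponent_le _ hs
    have : (0 : ℝ) ≤ n := Nat.cast_nonneg n
    linarith
  obtain ⟨hZ20, hZ2⟩ := hZ2
  -- growth comparisons
  have hev : ∀ᶠ T : ℝ in atTop, T ^ 5 * Real.exp (-(Real.log T ^ 2 / 4)) ≤ 1 ∧ 12 ≤ Real.log T := by
    have h2 : ∀ᶠ T : ℝ in atTop, 20 ≤ Real.log T :=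
      Real.tendsto_log_atTop.eventually_ge_atTop _
    filter_upwards [h2, eventually_gt_atTop (0 : ℝ)] with T hT hT0
    refine ⟨?_, by linarith⟩
    have h3 : T ^ 5 = Real.exp (5 * Real.log T) := by
      rw [mul_comm, Real.exp_mul, Real.exp_log hT0]
      norm_cast
    rw [h3, ← Real.exp_add]
    apply Real.exp_le_one_iff.2
    nlinarith
  obtain ⟨T₁, hT₁⟩ := eventually_atTop.1 hev
  refine ⟨Cg * (Z2 + 40), by positivity, max T₁ 1, le_max_right _ _, ?_⟩
  intro T hT t M σ B ht1 ht2 hM1 hM2 hσ1 hσ2 hB hζ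
  obtain ⟨hTa, hTb⟩ := hT₁ T ((le_max_left _ _).trans hT)
  have hT1 : 1 ≤ T := (le_max_right _ _).trans hT
  have hM0 : 0 < M := by linarith
  set L := Real.log T with hL
  set W : ℝ := L ^ 2 / 2 with hW
  have hW1 : 72 ≤ W := by rw [hW]; nlinarith
  have hWt : 2 * W ≤ t := by rw [hW]; linarith
  have hfour : T ^ 5 * Real.exp (-(W / 2)) ≤ 1 := by
    have : -(W / 2) = -(L ^ 2 / 4) := by rw [hW]; ring
    rw [this]; exact hTa
  -- norm of the integrand
  have hnormTh : ∀ x y : ℝ, 1 / 2 ≤ x → x ≤ 2 → ‖Th M t ((x : ℂ) + (y : ℂ) * I)‖ ≤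
      ‖riemannZeta ((x : ℂ) + ((t + y : ℝ) : ℂ) * I)‖ * M ^ x * (Cg * Real.exp (-|y|)) := by
    intro x y hx1 hx2
    unfold Th
    rw [norm_mul, norm_mul, Complex.norm_cpow_eq_rpow_re_of_pos hM0]
    have e1 : (x : ℂ) + (y : ℂ) * I + t * I = (x : ℂ) + ((t + y : ℝ) : ℂ) * I := by
      push_cast; ring
    have e2 : ((x : ℂ) + (y : ℂ) * I).re = x := by simp
    rw [e1, e2]
    have := hCg x y hx1 hx2
    gcongr
  have hcontTh : ∀ x : ℝ, 1 / 2 ≤ x → ContinuousOn (fun y : ℝ => Th M t ((x : ℂ) + (y : ℂ) * I))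
      (Icc (-W) W) := by
    intro x hx y hy
    apply ContinuousAt.continuousWithinAt
    have h1 : ContinuousAt (Th M t) ((x : ℂ) + (y : ℂ) * I) := by
      apply (Th_diff hM0 _ _).continuousAt
      · simp; linarith
      · simp; linarith [hy.1]
    exact ContinuousAt.comp (f := fun y : ℝ => (x : ℂ) + (y : ℂ) * I) h1 (by fun_prop)
  have hM2' : M ^ (2 : ℝ) ≤ T ^ 4 := by
    rw [Real.rpow_two]
    calc M ^ 2 ≤ (T ^ 2) ^ 2 := by gcongr
      _ = T ^ 4 := by ring
  -- the full integral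
  have hcont2 : Continuous (fun y : ℝ => Th M t ((2 : ℝ) + (y : ℂ) * I)) := by
    rw [continuous_iff_continuousAt]
    intro y
    have hMc : (M : ℂ) ≠ 0 := by exact_mod_cast hM0.ne'
    unfold Th
    refine ContinuousAt.mul (ContinuousAt.mul ?_ ?_) ?_
    · have h3 : ContinuousAt riemannZeta (((2 : ℝ) : ℂ) + (y : ℂ) * I + t * I) := by
        apply (differentiableAt_riemannZeta _).continuousAt
        intro h
        have := congrArg Complex.re h
        simp at this
      exact ContinuousAt.comp (f := fun y : ℝ => ((2 : ℝ) : ℂ) + (y : ℂ) * I + t * I) h3 (by fun_prop)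
    · exact (Continuous.const_cpow (by fun_prop) (Or.inl hMc)).continuousAt
    · exact (gamma_line_cont 2 (by norm_num)).continuousAt
  have hint2 : Integrable (fun y : ℝ => Th M t ((2 : ℝ) + (y : ℂ) * I)) := by
    refine Integrable.mono' (exp_abs_integrable.const_mul (Z2 * M ^ (2 : ℝ) * Cg))
      hcont2.aestronglyMeasurable (Eventually.of_forall fun y => ?_)
    refine (hnormTh 2 y (by norm_num) le_rfl).trans ?_
    have := hZ2 (((2 : ℝ) : ℂ) + ((t + y : ℝ) : ℂ) * I) (by simp)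
    rw [mul_assoc (Z2 * M ^ (2 : ℝ))]
    gcongr
  have hsplit := integral_add_compl (measurableSet_Icc (a := -W) (b := W)) hint2
  have htail : ‖∫ y in (Icc (-W) W)ᶜ, Th M t ((2 : ℝ) + (y : ℂ) * I)‖ ≤ 4 * Z2 * Cg := by
    have hi : Integrable (fun y : ℝ => Real.exp (-(|y| / 2))) := by
      have h := exp_abs_integrable.comp_mul_left' (show (1 / 2 : ℝ) ≠ 0 by norm_num)
      refine h.congr (Eventually.of_forall fun y => ?_)
      simp only
      rw [abs_mul, abs_of_pos (show (0 : ℝ) < 1 / 2 by norm_num)]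
      congr 1; ring
    have hi2 : ∫ y : ℝ, Real.exp (-(|y| / 2)) = 4 := by
      have h := Measure.integral_comp_mul_left (fun y : ℝ => Real.exp (-|y|)) (1 / 2 : ℝ)
      rw [integral_exp_abs] at h
      have e : ∀ y : ℝ, Real.exp (-|1 / 2 * y|) = Real.exp (-(|y| / 2)) := by
        intro y
        rw [abs_mul, abs_of_pos (show (0 : ℝ) < 1 / 2 by norm_num)]
        congr 1; ring
      simp_rw [e] at h
      rw [h]
      norm_num
    calc ‖∫ y in (Icc (-W) W)ᶜ, Th M t ((2 : ℝ) + (y : ℂ) * I)‖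
        ≤ ∫ y in (Icc (-W) W)ᶜ, (Z2 * Cg) * Real.exp (-(|y| / 2)) := by
          apply norm_integral_le_of_norm_le (hi.const_mul _).integrableOn
          rw [ae_restrict_iff' measurableSet_Icc.compl]
          refine Eventually.of_forall fun y hy => ?_
          have hy' : W ≤ |y| := by
            by_contra hcon
            push Not at hcon
            apply hy
            have := abs_lt.1 hcon
            exact ⟨this.1.le, this.2.le⟩
          refine (hnormTh 2 y (by norm_num) le_rfl).trans ?_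
          have h1 := hZ2 (((2 : ℝ) : ℂ) + ((t + y : ℝ) : ℂ) * I) (by simp)
          have h2 := tail_exp_abs y hy'
          have h3 : M ^ (2 : ℝ) * Real.exp (-(W / 2)) ≤ 1 := by
            calc M ^ (2 : ℝ) * Real.exp (-(W / 2)) ≤ T ^ 4 * Real.exp (-(W / 2)) := by gcongr
              _ ≤ T ^ 5 * Real.exp (-(W / 2)) := by
                  have : T ^ 4 ≤ T ^ 5 := pow_le_pow_right₀ hT1 (by norm_num)
                  gcongr
              _ ≤ 1 := hfour
          calc _ ≤ Z2 * M ^ (2 : ℝ) * (Cg * (Real.exp (-(W / 2)) * Real.exp (-(|y| / 2)))) := by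
                gcongr
            _ = (Z2 * Cg * Real.exp (-(|y| / 2))) * (M ^ (2 : ℝ) * Real.exp (-(W / 2))) := by ring
            _ ≤ (Z2 * Cg * Real.exp (-(|y| / 2))) * 1 := by gcongr
            _ = _ := by ring
      _ ≤ ∫ y : ℝ, (Z2 * Cg) * Real.exp (-(|y| / 2)) := by
          apply setIntegral_le_integral (hi.const_mul _)
          exact Eventually.of_forall fun y => by positivity
      _ = 4 * Z2 * Cg := by
          rw [integral_const_mul, hi2]; ring
  -- the rectangle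
  have hrect := Complex.integral_boundary_rect_eq_zero_of_differentiableOn (Th M t)
    ⟨σ, -W⟩ ⟨2, W⟩ (by
      intro s hs
      simp only at hs
      rw [Complex.mem_reProdIm] at hs
      have h2 := hs.1
      have h3 := hs.2
      rw [Set.uIcc_of_le (by linarith)] at h2 h3
      exact (Th_diff hM0 (by linarith [h2.1]) (by linarith [h3.1])).differentiableWithinAt)
  simp only [smul_eq_mul] at hrect
  -- horizontal sides
  have hhor : ∀ ε : ℝ, |ε| = 1 → ‖∫ x : ℝ in σ..2, Th M t ((x : ℂ) + ((ε * W : ℝ) : ℂ) * I)‖ ≤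
      36 * Cg := by
    intro ε hε
    have hbd : ∀ x ∈ Set.uIoc σ 2, ‖Th M t ((x : ℂ) + ((ε * W : ℝ) : ℂ) * I)‖ ≤ 24 * Cg := by
      intro x hx
      rw [Set.uIoc_of_le (by linarith)] at hx
      obtain ⟨hx1, hx2⟩ := hx
      refine (hnormTh x (ε * W) (by linarith) hx2).trans ?_
      have habs : |ε * W| = W := by rw [abs_mul, hε, one_mul, abs_of_pos (by linarith)]
      have hεW := abs_le.1 habs.le
      have h1 : ‖riemannZeta ((x : ℂ) + ((t + ε * W : ℝ) : ℂ) * I)‖ ≤ 24 * T := by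
        refine (Pool.Agent.H388LH.zeta_growth (by simp; linarith) (by
          simp; linarith)).trans ?_
        have h2 : ‖(x : ℂ) + ((t + ε * W : ℝ) : ℂ) * I‖ ≤ 2 + 2 * T := by
          refine (norm_add_le _ _).trans ?_
          rw [norm_mul, Complex.norm_I, mul_one, Complex.norm_real, Complex.norm_real,
            Real.norm_eq_abs, Real.norm_eq_abs, abs_of_pos (by linarith : 0 < x)]
          have : |t + ε * W| ≤ 2 * T := by
            rw [abs_le]; constructor <;> linarith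
          linarith
        linarith
      have h2 : M ^ x ≤ T ^ 4 := (Real.rpow_le_rpow_of_exponent_le hM1 hx2).trans hM2'
      rw [habs]
      have h3 : Real.exp (-W) ≤ Real.exp (-(W / 2)) := Real.exp_le_exp.2 (by linarith)
      calc _ ≤ (24 * T) * T ^ 4 * (Cg * Real.exp (-(W / 2))) := by gcongr
        _ = 24 * Cg * (T ^ 5 * Real.exp (-(W / 2))) := by ring
        _ ≤ 24 * Cg * 1 := by gcongr
        _ = 24 * Cg := by ring
    refine (intervalIntegral.norm_integral_le_of_norm_le_const hbd).trans ?_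
    rw [abs_of_pos (by linarith)]
    nlinarith
  have hh1 := hhor (-1) (by simp)
  have hh2 := hhor 1 (by simp)
  -- left side
  have hleft : ‖∫ y : ℝ in (-W)..W, Th M t ((σ : ℂ) + (y : ℂ) * I)‖ ≤ 2 * Cg * (M ^ σ * B) := by
    have h1 : ‖∫ y : ℝ in (-W)..W, Th M t ((σ : ℂ) + (y : ℂ) * I)‖ ≤
        ∫ y : ℝ in (-W)..W, (B * M ^ σ * Cg) * Real.exp (-|y|) := by
      apply intervalIntegral.norm_integral_le_of_norm_le (by linarith)
      · refine Eventually.of_forall fun y hy => ?_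
        refine (hnormTh σ y hσ1 (by linarith)).trans ?_
        have h2 := hζ y (abs_le.2 ⟨hy.1.le, hy.2⟩)
        rw [mul_assoc (B * M ^ σ)]
        gcongr
      · exact (exp_abs_integrable.const_mul _).intervalIntegrable
    refine h1.trans ?_
    rw [intervalIntegral.integral_const_mul, intervalIntegral.integral_of_le (by linarith)]
    have h2 : ∫ y in Ioc (-W) W, Real.exp (-|y|) ≤ 2 := by
      rw [← integral_exp_abs]
      exact setIntegral_le_integral exp_abs_integrable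
        (Eventually.of_forall fun y => (Real.exp_pos _).le)
    calc B * M ^ σ * Cg * ∫ y in Ioc (-W) W, Real.exp (-|y|) ≤ B * M ^ σ * Cg * 2 := by gcongr
      _ = _ := by ring
  -- the right side
  have hright : ‖∫ y : ℝ in (-W)..W, Th M t (((2 : ℝ) : ℂ) + (y : ℂ) * I)‖ ≤
      72 * Cg + 2 * Cg * (M ^ σ * B) := by
    have h1 : I * (∫ y : ℝ in (-W)..W, Th M t (((2 : ℝ) : ℂ) + (y : ℂ) * I)) =
        I * (∫ y : ℝ in (-W)..W, Th M t ((σ : ℂ) + (y : ℂ) * I)) -
        (∫ x : ℝ in σ..2, Th M t ((x : ℂ) + ((-1 * W : ℝ) : ℂ) * I)) +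
        (∫ x : ℝ in σ..2, Th M t ((x : ℂ) + ((1 * W : ℝ) : ℂ) * I)) := by
      simp only [neg_mul, one_mul]
      linear_combination hrect
    have h2 := congrArg norm h1
    rw [norm_mul, Complex.norm_I, one_mul] at h2
    rw [h2]
    refine (norm_add_le _ _).trans ?_
    refine (add_le_add_left (norm_sub_le _ _) _).trans ?_
    rw [norm_mul, Complex.norm_I, one_mul]
    linarith
  -- conclusion
  rw [F_eq M t hM0, norm_smul, Real.norm_of_nonneg (by positivity)]
  have h6 : ‖∫ y : ℝ, Th M t ((2 : ℝ) + (y : ℂ) * I)‖ ≤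
      72 * Cg + 2 * Cg * (M ^ σ * B) + 4 * Z2 * Cg := by
    rw [← hsplit]
    refine (norm_add_le _ _).trans ?_
    refine add_le_add ?_ htail
    rw [intervalIntegral.integral_of_le (by linarith)] at hright
    rwa [integral_Icc_eq_integral_Ioc]
  have h7 : 1 / (2 * Real.pi) ≤ 1 / 6 := by
    apply one_div_le_one_div_of_le (by norm_num)
    linarith [Real.pi_gt_three]
  have h8 : 0 ≤ M ^ σ * B := by positivity
  calc 1 / (2 * Real.pi) * ‖∫ y : ℝ, Th M t ((2 : ℝ) + (y : ℂ) * I)‖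
      ≤ 1 / 6 * (72 * Cg + 2 * Cg * (M ^ σ * B) + 4 * Z2 * Cg) := by gcongr
    _ ≤ Cg * (Z2 + 40) * (1 + M ^ σ * B) := by
        have h9 : 0 ≤ Cg * Z2 := by positivity
        have h10 : 0 ≤ Cg * (M ^ σ * B) := by positivity
        have h11 : 0 ≤ Cg * Z2 * (M ^ σ * B) := by positivity
        nlinarith

end Pool.Agent.Y751.DH
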