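import Pool.Agent.Y751.DH.Base
import Pool.Agent.Y751.DH.Mel
import Pool.Agent.TH572.Saw4846

set_option autoImplicit false

/-!
# Zeta in terms of the smoothed zeta polynomials
-/

open Complex MeasureTheory Set Filter Topology

namespace Pool.Agent.Y751.DH

/-- the sharp partial sums are close to zeta -/
theorem err_bound {s : ℂ} (h1 : 1 / 2 ≤ s.re) (h2 : s.re ≤ 1) (h3 : 1 ≤ s.im) {c : ℝ} (hc : 0 < c) :
    ‖∑ n ∈ Finset.Icc 1 ⌊c⌋₊, (n : ℂ) ^ (-s) - riemannZeta s - (c : ℂ) ^ (1 - s) / (1 - s)‖ ≤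
      (7 * ‖s‖ + 1) * c ^ (-(1 / 2) : ℝ) := by
  have hs0 : 0 < s.re := by linarith
  have hs1 : s ≠ 1 := by
    intro h; rw [h] at h3; norm_num at h3
  have hsn : 1 ≤ ‖s‖ := h3.trans (Complex.im_le_norm s)
  rcases lt_or_ge c 1 with h | h
  · have h4 : ⌊c⌋₊ = 0 := Nat.floor_eq_zero.2 h
    rw [h4]
    simp only [Finset.Icc_eq_empty (by norm_num : ¬ (1 : ℕ) ≤ 0), Finset.sum_empty, zero_sub]
    have h5 : ‖riemannZeta s‖ ≤ 6 * ‖s‖ := Pool.Agent.H388LH.zeta_growth (by linarith) h3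
    have h6 : ‖(c : ℂ) ^ (1 - s) / (1 - s)‖ ≤ 1 := by
      rw [norm_div, Complex.norm_cpow_eq_rpow_re_of_pos hc]
      have h7 : 1 ≤ ‖1 - s‖ := by
        have := Complex.abs_im_le_norm (1 - s)
        simp only [sub_im, one_im, zero_sub, abs_neg] at this
        rw [abs_of_pos (by linarith)] at this
        linarith
      have h8 : c ^ (1 - s).re ≤ 1 := Real.rpow_le_one hc.le h.le (by simp; exact h2)
      rw [div_le_one (by linarith)]
      linarith
    have h9 : 1 ≤ c ^ (-(1 / 2) : ℝ) := Real.one_le_rpow_of_pos_of_le_one_of_nonpos hc h.le (by norm_num)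
    have h10 : ‖-riemannZeta s - (c : ℂ) ^ (1 - s) / (1 - s)‖ ≤ 7 * ‖s‖ + 1 := by
      refine (norm_sub_le _ _).trans ?_
      rw [norm_neg]
      linarith
    nlinarith
  · have hem := Pool.Agent.TH572.Saw.em hs0 hs1 hc
    have e1 : ∑ n ∈ Finset.Icc 1 ⌊c⌋₊, (n : ℂ) ^ (-s) - riemannZeta s - (c : ℂ) ^ (1 - s) / (1 - s) =
        s * (∫ u in Ioi c, ((Int.fract u - 1 / 2 : ℝ) : ℂ) * (u : ℂ) ^ (-s - 1)) -
        ((Int.fract c - 1 / 2 : ℝ) : ℂ) * (c : ℂ) ^ (-s) := by
      linear_combination hem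
    rw [e1]
    have hfr : ∀ u : ℝ, |Int.fract u - 1 / 2| ≤ 1 / 2 := by
      intro u
      rw [abs_le]
      have := Int.fract_nonneg u
      have := (Int.fract_lt_one u).le
      constructor <;> linarith
    have h4 : ‖∫ u in Ioi c, ((Int.fract u - 1 / 2 : ℝ) : ℂ) * (u : ℂ) ^ (-s - 1)‖ ≤
        c ^ (-(1 / 2) : ℝ) := by
      have h5 : ∫ u in Ioi c, (1 / 2 : ℝ) * (u : ℝ) ^ (-(3 / 2) : ℝ) = c ^ (-(1 / 2) : ℝ) := by
        rw [integral_const_mul, integral_Ioi_rpow_of_lt (by norm_num) hc]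
        norm_num
        ring
      rw [← h5]
      apply norm_integral_le_of_norm_le
      · exact (integrableOn_Ioi_rpow_of_lt (by norm_num) hc).const_mul _
      · rw [ae_restrict_iff' measurableSet_Ioi]
        refine Filter.Eventually.of_forall (fun u hu => ?_)
        have hu1 : (1 : ℝ) ≤ u := h.trans (le_of_lt hu)
        have hu0 : (0 : ℝ) < u := by linarith
        rw [norm_mul, Complex.norm_real, Real.norm_eq_abs, Complex.norm_cpow_eq_rpow_re_of_pos hu0]
        have h6 : (-s - 1).re ≤ -(3 / 2) := by simp; linarith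
        exact mul_le_mul (hfr u) (Real.rpow_le_rpow_of_exponent_le hu1 h6) (by positivity)
          (by norm_num)
    have h5 : ‖((Int.fract c - 1 / 2 : ℝ) : ℂ) * (c : ℂ) ^ (-s)‖ ≤ 1 * c ^ (-(1 / 2) : ℝ) := by
      rw [norm_mul, Complex.norm_real, Real.norm_eq_abs, Complex.norm_cpow_eq_rpow_re_of_pos hc]
      have h6 : (-s).re ≤ -(1 / 2) := by simp; linarith
      exact mul_le_mul ((hfr c).trans (by norm_num)) (Real.rpow_le_rpow_of_exponent_le h h6)
        (by positivity) (by norm_num)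
    refine (norm_sub_le _ _).trans ?_
    rw [norm_mul]
    have h6 : 0 < c ^ (-(1 / 2) : ℝ) := by positivity
    have h7 : ‖s‖ * ‖∫ u in Ioi c, ((Int.fract u - 1 / 2 : ℝ) : ℂ) * (u : ℂ) ^ (-s - 1)‖ ≤
        ‖s‖ * c ^ (-(1 / 2) : ℝ) := by gcongr
    nlinarith

/-- the smoothed Dirichlet series as an average of the sharp partial sums -/
theorem smooth_eq {s : ℂ} (h1 : 1 / 2 ≤ s.re) {M : ℝ} (hM : 0 < M) :
    ∑' n : ℕ, ((n : ℂ) + 1) ^ (-s) * (Real.exp (-((n + 1) / M)) : ℂ) =
      ∫ c in Ioi (0 : ℝ), (∑ n ∈ Finset.Icc 1 ⌊c⌋₊, (n : ℂ) ^ (-s)) *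
        ((Real.exp (-(c / M)) / M : ℝ) : ℂ) := by
  set f : ℕ → ℝ → ℂ := fun n => (Ioi ((n : ℝ) + 1)).indicator
    (fun c => ((n : ℂ) + 1) ^ (-s) * ((Real.exp (-(c / M)) / M : ℝ) : ℂ)) with hf
  have hint : ∀ a : ℝ, IntegrableOn (fun c : ℝ => Real.exp (-(c / M)) / M) (Ioi a) := by
    intro a
    have h : IntegrableOn (fun c : ℝ => Real.exp (-(1 / M) * c) / M) (Ioi a) :=
      (integrableOn_exp_mul_Ioi (a := -(1 / M)) (by
      have : 0 < 1 / M := by positivity
      linarith) a).div_const M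
    refine IntegrableOn.congr_fun h (fun c _ => ?_) measurableSet_Ioi
    rw [show -(1 / M) * c = -(c / M) by ring]
  have hval : ∀ a : ℝ, ∫ c in Ioi a, Real.exp (-(c / M)) / M = Real.exp (-(a / M)) := by
    intro a
    have h := integral_exp_mul_Ioi (a := -(1 / M)) (by
      have : 0 < 1 / M := by positivity
      linarith) a
    have e : ∀ c : ℝ, Real.exp (-(c / M)) / M = (1 / M) * Real.exp (-(1 / M) * c) := by
      intro c
      rw [show -(1 / M) * c = -(c / M) by ring]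
      ring
    simp_rw [e]
    rw [integral_const_mul, h, show -(1 / M) * a = -(a / M) by ring]
    field_simp
  have hfint : ∀ n : ℕ, ∫ c in Ioi (0 : ℝ), f n c =
      ((n : ℂ) + 1) ^ (-s) * (Real.exp (-((n + 1) / M)) : ℂ) := by
    intro n
    simp only [hf]
    rw [setIntegral_indicator measurableSet_Ioi]
    have : Ioi (0 : ℝ) ∩ Ioi ((n : ℝ) + 1) = Ioi ((n : ℝ) + 1) := by
      apply inter_eq_self_of_subset_right
      apply Ioi_subset_Ioi
      positivity
    rw [this, integral_const_mul, integral_complex_ofReal, hval]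
  have hfi : ∀ n : ℕ, Integrable (f n) (volume.restrict (Ioi (0 : ℝ))) := by
    intro n
    simp only [hf]
    apply Integrable.indicator _ measurableSet_Ioi
    exact ((hint 0).ofReal (𝕜 := ℂ)).const_mul _
  have hnorm : ∀ n : ℕ, ∫ c in Ioi (0 : ℝ), ‖f n c‖ =
      ((n : ℝ) + 1) ^ (-s.re) * Real.exp (-((n + 1) / M)) := by
    intro n
    have e : ∀ c : ℝ, ‖f n c‖ = (Ioi ((n : ℝ) + 1)).indicator
        (fun c => ((n : ℝ) + 1) ^ (-s.re) * (Real.exp (-(c / M)) / M)) c := by
      intro c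
      simp only [hf]
      rw [norm_indicator_eq_indicator_norm]
      congr 1
      funext c
      rw [norm_mul, Complex.norm_real, Real.norm_of_nonneg (by positivity)]
      have h1 : ((n : ℂ) + 1) = (((n : ℝ) + 1 : ℝ) : ℂ) := by push_cast; rfl
      rw [h1, Complex.norm_cpow_eq_rpow_re_of_pos (by positivity), neg_re]
    simp_rw [e]
    rw [setIntegral_indicator measurableSet_Ioi]
    have : Ioi (0 : ℝ) ∩ Ioi ((n : ℝ) + 1) = Ioi ((n : ℝ) + 1) := by
      apply inter_eq_self_of_subset_right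
      apply Ioi_subset_Ioi
      positivity
    rw [this, integral_const_mul, hval]
  have hsumexp : Summable (fun n : ℕ => Real.exp (-(((n : ℝ) + 1) / M))) := by
    have h2 : Real.exp (-(1 / M)) < 1 := by
      rw [Real.exp_lt_one_iff]
      have : 0 < 1 / M := by positivity
      linarith
    have h3 := (summable_geometric_of_lt_one (Real.exp_pos _).le h2).mul_left (Real.exp (-(1 / M)))
    refine h3.congr fun n => ?_
    rw [← Real.exp_nat_mul, ← Real.exp_add]
    congr 1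
    ring
  have hsum : Summable (fun n : ℕ => ∫ c in Ioi (0 : ℝ), ‖f n c‖) := by
    refine Summable.of_nonneg_of_le (fun n => by positivity) (fun n => ?_) hsumexp
    rw [hnorm]
    have h2 : ((n : ℝ) + 1) ^ (-s.re) ≤ 1 := by
      apply Real.rpow_le_one_of_one_le_of_nonpos
      · have : (0 : ℝ) ≤ n := Nat.cast_nonneg n
        linarith
      · linarith
    have h3 := Real.exp_pos (-(((n : ℝ) + 1) / M))
    nlinarith
  have hmain := (hasSum_integral_of_summable_integral_norm hfi hsum).tsum_eq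
  simp_rw [hfint] at hmain
  rw [hmain]
  have hae : ∀ᵐ c : ℝ ∂(volume.restrict (Ioi (0 : ℝ))), ∀ m : ℕ, c ≠ m := by
    rw [ae_all_iff]
    intro m
    have : ∀ᵐ c : ℝ ∂volume, c ≠ (m : ℝ) := by
      rw [ae_iff]
      simp
    exact ae_restrict_of_ae this
  apply integral_congr_ae
  filter_upwards [hae, ae_restrict_mem measurableSet_Ioi] with c hc hc0
  rw [tsum_eq_sum (s := Finset.range ⌊c⌋₊)]
  · rw [Finset.sum_mul]
    have e : Finset.Icc 1 ⌊c⌋₊ = (Finset.range ⌊c⌋₊).image (fun n => n + 1) := by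
      ext k
      simp only [Finset.mem_Icc, Finset.mem_image, Finset.mem_range]
      constructor
      · rintro ⟨h2, h3⟩
        exact ⟨k - 1, by omega, by omega⟩
      · rintro ⟨j, h2, h3⟩
        omega
    rw [e, Finset.sum_image (by intro a _ b _ h; simpa using h)]
    apply Finset.sum_congr rfl
    intro n hn
    rw [Finset.mem_range] at hn
    simp only [hf]
    rw [indicator_of_mem]
    · push_cast
      rfl
    · have h2 : n + 1 ≤ ⌊c⌋₊ := hn
      have h3 : ((n + 1 : ℕ) : ℝ) ≤ c := (Nat.cast_le.2 h2).trans (Nat.floor_le (le_of_lt hc0))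
      have h4 := hc (n + 1)
      rw [mem_Ioi]
      push_cast at h3 h4
      exact lt_of_le_of_ne h3 (Ne.symm h4)
  · intro n hn
    rw [Finset.mem_range, not_lt] at hn
    simp only [hf]
    rw [indicator_of_notMem]
    rw [mem_Ioi, not_lt]
    have h2 := (Nat.lt_floor_add_one c).le
    have h3 : ((⌊c⌋₊ : ℕ) : ℝ) ≤ n := Nat.cast_le.2 hn
    linarith

/-- zeta is close to its smoothed Dirichlet series of length `T ^ 2` -/
theorem zeta_smooth : ∃ C : ℝ, 0 < C ∧ ∃ T₀ : ℝ, ∀ T : ℝ, T₀ ≤ T → ∀ s : ℂ, 1 / 2 ≤ s.re → s.re ≤ 1 →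
    Real.log T ^ 2 ≤ s.im → s.im ≤ T →
    ‖riemannZeta s - ∑' n : ℕ, ((n : ℂ) + 1) ^ (-s) * (Real.exp (-((n + 1) / T ^ 2)) : ℂ)‖ ≤ C := by
  obtain ⟨Cg, hCg1, hCg⟩ := gamma_decay
  refine ⟨Cg + 60, by linarith, 3, ?_⟩
  intro T hT s h1 h2 h3 h4
  have hT0 : 0 < T := by linarith
  have hlog : 1 ≤ Real.log T := by
    rw [Real.le_log_iff_exp_le (by linarith)]
    linarith [Real.exp_one_lt_d9]
  have hlog2 : Real.log T ≤ Real.log T ^ 2 := by nlinarith
  have him : 1 ≤ s.im := by linarith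
  have hs0 : 0 < s.re := by linarith
  have hs1 : s ≠ 1 := by
    intro h; rw [h] at him; norm_num at him
  set M : ℝ := T ^ 2 with hM
  have hM0 : 0 < M := by positivity
  have hM0' : (M : ℂ) ≠ 0 := by exact_mod_cast hM0.ne'
  have hTc : ((T : ℂ) ^ 2) = (M : ℂ) := by rw [hM]; push_cast; rfl
  have hsn : ‖s‖ ≤ 1 + T := by
    refine (Complex.norm_le_abs_re_add_abs_im s).trans ?_
    rw [abs_of_pos hs0, abs_of_pos (by linarith)]
    linarith
  rw [smooth_eq h1 hM0]
  -- the weights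
  have hw : ∫ c in Ioi (0 : ℝ), Real.exp (-(c / M)) / M = 1 := by
    have h := integral_exp_mul_Ioi (a := -(1 / M)) (by
      have : 0 < 1 / M := by positivity
      linarith) 0
    have e : ∀ c : ℝ, Real.exp (-(c / M)) / M = (1 / M) * Real.exp (-(1 / M) * c) := by
      intro c
      rw [show -(1 / M) * c = -(c / M) by ring]
      ring
    simp_rw [e]
    rw [integral_const_mul, h, mul_zero, Real.exp_zero]
    field_simp
  have hwi : IntegrableOn (fun c : ℝ => Real.exp (-(c / M)) / M) (Ioi 0) := by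
    have h : IntegrableOn (fun c : ℝ => Real.exp (-(1 / M) * c) / M) (Ioi 0) :=
      (integrableOn_exp_mul_Ioi (a := -(1 / M)) (by
      have : 0 < 1 / M := by positivity
      linarith) 0).div_const M
    refine IntegrableOn.congr_fun h (fun c _ => ?_) measurableSet_Ioi
    rw [show -(1 / M) * c = -(c / M) by ring]
  -- power integrals
  have hcp : ∫ c in Ioi (0 : ℝ), (c : ℂ) ^ (1 - s) * ((Real.exp (-(c / M)) / M : ℝ) : ℂ) =
      (M : ℂ) ^ (2 - s) * Complex.Gamma (2 - s) / M := by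
    have h := Complex.integral_cpow_mul_exp_neg_mul_Ioi (a := 2 - s) (r := 1 / M)
      (by simp; linarith) (by positivity)
    have e : ∀ c : ℝ, (c : ℂ) ^ (1 - s) * ((Real.exp (-(c / M)) / M : ℝ) : ℂ) =
        (1 / (M : ℂ)) * ((c : ℂ) ^ (2 - s - 1) * Complex.exp (-(((1 / M : ℝ) : ℂ) * c))) := by
      intro c
      push_cast
      rw [show -(1 / (M : ℂ) * c) = -((c : ℂ) / M) by ring, show (2 : ℂ) - s - 1 = 1 - s by ring]
      ring
    simp_rw [e]
    rw [integral_const_mul, h]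
    push_cast
    rw [one_div_one_div]
    ring
  have hcpi : IntegrableOn (fun c : ℝ => (c : ℂ) ^ (1 - s) * ((Real.exp (-(c / M)) / M : ℝ) : ℂ))
      (Ioi 0) := by
    have h5 : IntegrableOn (fun c : ℝ => c ^ (1 - s.re) * Real.exp (-(1 / M) * c)) (Ioi 0) :=
      integrableOn_rpow_mul_exp_neg_mul_rpow (p := 1) (s := 1 - s.re) (b := 1 / M) (by linarith)
        one_pos (by positivity) |>.congr_fun (fun c hc => by simp [Real.rpow_one]) measurableSet_Ioi
    refine Integrable.mono' (h5.const_mul (1 / M)) ?_ ?_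
    · apply ContinuousOn.aestronglyMeasurable _ measurableSet_Ioi
      intro c hc
      apply ContinuousAt.continuousWithinAt
      apply ContinuousAt.mul
      · exact Complex.continuousAt_ofReal_cpow_const _ _ (Or.inr (ne_of_gt hc))
      · apply Continuous.continuousAt
        fun_prop
    · rw [ae_restrict_iff' measurableSet_Ioi]
      refine Eventually.of_forall fun c hc => ?_
      rw [norm_mul, Complex.norm_real, Real.norm_of_nonneg (by positivity),
        Complex.norm_cpow_eq_rpow_re_of_pos hc]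
      simp only [sub_re, one_re]
      rw [show -(1 / M) * c = -(c / M) by ring]
      apply le_of_eq
      ring
  have hhalf : ∫ c in Ioi (0 : ℝ), c ^ (-(1 / 2) : ℝ) * (Real.exp (-(c / M)) / M) =
      Real.sqrt Real.pi / T := by
    have h := Real.integral_rpow_mul_exp_neg_mul_Ioi (a := 1 / 2) (r := 1 / M) (by norm_num)
      (by positivity)
    have e : ∀ c : ℝ, c ^ (-(1 / 2) : ℝ) * (Real.exp (-(c / M)) / M) =
        (1 / M) * (c ^ ((1 / 2 : ℝ) - 1) * Real.exp (-(1 / M * c))) := by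
      intro c
      rw [show -(1 / M * c) = -(c / M) by ring, show (1 / 2 : ℝ) - 1 = -(1 / 2) by norm_num]
      ring
    simp_rw [e]
    rw [integral_const_mul, h, one_div_one_div, Real.Gamma_one_half_eq, ← Real.sqrt_eq_rpow, hM,
      Real.sqrt_sq hT0.le]
    field_simp
  have hhalfi : IntegrableOn (fun c : ℝ => c ^ (-(1 / 2) : ℝ) * (Real.exp (-(c / M)) / M))
      (Ioi 0) := by
    by_contra hcon
    have := integral_undef hcon
    rw [hhalf] at this
    have h5 : 0 < Real.sqrt Real.pi / T := by positivity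
    linarith
  -- the error
  set g : ℝ → ℂ := fun c => (∑ n ∈ Finset.Icc 1 ⌊c⌋₊, (n : ℂ) ^ (-s) - riemannZeta s -
    (c : ℂ) ^ (1 - s) / (1 - s)) * ((Real.exp (-(c / M)) / M : ℝ) : ℂ) with hg
  have hgb : ‖∫ c in Ioi (0 : ℝ), g c‖ ≤ (7 * ‖s‖ + 1) * (Real.sqrt Real.pi / T) := by
    rw [← hhalf, ← integral_const_mul]
    apply norm_integral_le_of_norm_le (hhalfi.const_mul _)
    rw [ae_restrict_iff' measurableSet_Ioi]
    refine Eventually.of_forall fun c hc => ?_
    simp only [hg]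
    rw [norm_mul, Complex.norm_real, Real.norm_of_nonneg (by positivity)]
    have h5 := err_bound h1 h2 him hc
    have h6 : 0 ≤ Real.exp (-(c / M)) / M := by positivity
    calc _ ≤ ((7 * ‖s‖ + 1) * c ^ (-(1 / 2) : ℝ)) * (Real.exp (-(c / M)) / M) := by gcongr
      _ = _ := by ring
  have hSi : IntegrableOn (fun c : ℝ => (∑ n ∈ Finset.Icc 1 ⌊c⌋₊, (n : ℂ) ^ (-s)) *
      ((Real.exp (-(c / M)) / M : ℝ) : ℂ)) (Ioi 0) := by
    have hmeas : Measurable (fun c : ℝ => ∑ n ∈ Finset.Icc 1 ⌊c⌋₊, (n : ℂ) ^ (-s)) :=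
      (measurable_from_nat (f := fun k : ℕ => ∑ n ∈ Finset.Icc 1 k, (n : ℂ) ^ (-s))).comp
        Nat.measurable_floor
    have h6 : IntegrableOn g (Ioi 0) := by
      refine Integrable.mono' (hhalfi.const_mul (7 * ‖s‖ + 1)) ?_ ?_
      · apply AEStronglyMeasurable.mul
        · apply AEStronglyMeasurable.sub
          · exact (hmeas.sub measurable_const).aestronglyMeasurable
          · apply ContinuousOn.aestronglyMeasurable _ measurableSet_Ioi
            intro c hc
            apply ContinuousAt.continuousWithinAt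
            exact (Complex.continuousAt_ofReal_cpow_const _ _ (Or.inr (ne_of_gt hc))).div_const _
        · apply Continuous.aestronglyMeasurable
          fun_prop
      · rw [ae_restrict_iff' measurableSet_Ioi]
        refine Eventually.of_forall fun c hc => ?_
        simp only [hg]
        rw [norm_mul, Complex.norm_real, Real.norm_of_nonneg (by positivity)]
        have h5 := err_bound h1 h2 him hc
        have h6 : 0 ≤ Real.exp (-(c / M)) / M := by positivity
        calc _ ≤ ((7 * ‖s‖ + 1) * c ^ (-(1 / 2) : ℝ)) * (Real.exp (-(c / M)) / M) := by gcongr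
          _ = _ := by ring
    have h7 : IntegrableOn (fun c : ℝ => g c + (riemannZeta s *
        ((Real.exp (-(c / M)) / M : ℝ) : ℂ) + (1 / (1 - s)) *
        ((c : ℂ) ^ (1 - s) * ((Real.exp (-(c / M)) / M : ℝ) : ℂ)))) (Ioi 0) :=
      h6.add (((hwi.ofReal (𝕜 := ℂ)).const_mul _).add (hcpi.const_mul _))
    refine IntegrableOn.congr_fun h7 (fun c _ => ?_) measurableSet_Ioi
    simp only [hg]
    ring
  have hsplit : ∫ c in Ioi (0 : ℝ), g c =
      (∫ c in Ioi (0 : ℝ), (∑ n ∈ Finset.Icc 1 ⌊c⌋₊, (n : ℂ) ^ (-s)) *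
        ((Real.exp (-(c / M)) / M : ℝ) : ℂ)) -
      (riemannZeta s + (1 / (1 - s)) * ((M : ℂ) ^ (2 - s) * Complex.Gamma (2 - s) / M)) := by
    have e : ∀ c : ℝ, g c = (∑ n ∈ Finset.Icc 1 ⌊c⌋₊, (n : ℂ) ^ (-s)) *
        ((Real.exp (-(c / M)) / M : ℝ) : ℂ) - (riemannZeta s *
        ((Real.exp (-(c / M)) / M : ℝ) : ℂ) + (1 / (1 - s)) *
        ((c : ℂ) ^ (1 - s) * ((Real.exp (-(c / M)) / M : ℝ) : ℂ))) := by
      intro c
      simp only [hg]
      ring
    simp_rw [e]
    have iA : IntegrableOn (fun c : ℝ => riemannZeta s * ((Real.exp (-(c / M)) / M : ℝ) : ℂ))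
        (Ioi 0) := (hwi.ofReal (𝕜 := ℂ)).const_mul _
    have iB : IntegrableOn (fun c : ℝ => (1 / (1 - s)) *
        ((c : ℂ) ^ (1 - s) * ((Real.exp (-(c / M)) / M : ℝ) : ℂ))) (Ioi 0) := hcpi.const_mul _
    have iAB : IntegrableOn (fun c : ℝ => riemannZeta s * ((Real.exp (-(c / M)) / M : ℝ) : ℂ) +
        (1 / (1 - s)) * ((c : ℂ) ^ (1 - s) * ((Real.exp (-(c / M)) / M : ℝ) : ℂ))) (Ioi 0) :=
      iA.add iB
    rw [integral_sub hSi iAB, integral_add iA iB,
      integral_const_mul, integral_const_mul, hcp, integral_complex_ofReal, hw]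
    simp
  -- the main term is small
  have hmain : ‖(1 / (1 - s)) * ((M : ℂ) ^ (2 - s) * Complex.Gamma (2 - s) / M)‖ ≤ Cg := by
    have h5 : 1 ≤ ‖1 - s‖ := by
      have := Complex.abs_im_le_norm (1 - s)
      simp only [sub_im, one_im, zero_sub, abs_neg] at this
      rw [abs_of_pos (by linarith)] at this
      linarith
    have h6 : ‖(1 / (1 - s) : ℂ)‖ ≤ 1 := by
      rw [norm_div, norm_one, div_le_one (by linarith)]
      exact h5
    have h7 : ‖Complex.Gamma (2 - s)‖ ≤ Cg * Real.exp (-s.im) := by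
      have h8 := hCg (2 - s.re) (-s.im) (by linarith) (by linarith)
      have h9 : (((2 - s.re : ℝ) : ℂ) + ((-s.im : ℝ) : ℂ) * I) = 2 - s := by
        apply Complex.ext <;> simp
      rw [h9, abs_neg, abs_of_pos (by linarith)] at h8
      exact h8
    have h8 : ‖(M : ℂ) ^ (2 - s)‖ / M ≤ T := by
      rw [Complex.norm_cpow_eq_rpow_re_of_pos hM0]
      have h9 : (2 - s).re = 2 - s.re := by simp
      rw [h9]
      have h10 : M ^ (2 - s.re) / M = M ^ (1 - s.re) := by
        rw [show (2 : ℝ) - s.re = (1 - s.re) + 1 by ring, Real.rpow_add hM0, Real.rpow_one]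
        field_simp
      rw [h10]
      calc M ^ (1 - s.re) ≤ M ^ (1 / 2 : ℝ) := by
            apply Real.rpow_le_rpow_of_exponent_le
            · rw [hM]; nlinarith
            · linarith
        _ = T := by rw [← Real.sqrt_eq_rpow, hM, Real.sqrt_sq hT0.le]
    have h9 : T * Real.exp (-s.im) ≤ 1 := by
      have h10 : Real.exp (-s.im) ≤ Real.exp (-Real.log T) := Real.exp_le_exp.2 (by linarith)
      rw [Real.exp_neg (Real.log T), Real.exp_log hT0] at h10
      calc T * Real.exp (-s.im) ≤ T * T⁻¹ := by gcongr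
        _ = 1 := mul_inv_cancel₀ hT0.ne'
    rw [norm_mul, norm_div ((M : ℂ) ^ (2 - s) * Complex.Gamma (2 - s)) (M : ℂ),
      norm_mul ((M : ℂ) ^ (2 - s))]
    have hMn : ‖(M : ℂ)‖ = M := by rw [Complex.norm_real, Real.norm_of_nonneg hM0.le]
    rw [hMn]
    have h10 : ‖(M : ℂ) ^ (2 - s)‖ * ‖Complex.Gamma (2 - s)‖ / M =
        (‖(M : ℂ) ^ (2 - s)‖ / M) * ‖Complex.Gamma (2 - s)‖ := by ring
    rw [h10]
    calc ‖(1 / (1 - s) : ℂ)‖ * ((‖(M : ℂ) ^ (2 - s)‖ / M) * ‖Complex.Gamma (2 - s)‖)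
        ≤ 1 * (T * (Cg * Real.exp (-s.im))) := by gcongr
      _ = Cg * (T * Real.exp (-s.im)) := by ring
      _ ≤ Cg * 1 := by gcongr
      _ = Cg := mul_one _
  have hfin : riemannZeta s - ∫ c in Ioi (0 : ℝ), (∑ n ∈ Finset.Icc 1 ⌊c⌋₊, (n : ℂ) ^ (-s)) *
        ((Real.exp (-(c / M)) / M : ℝ) : ℂ) = -(∫ c in Ioi (0 : ℝ), g c) -
        (1 / (1 - s)) * ((M : ℂ) ^ (2 - s) * Complex.Gamma (2 - s) / M) := by
    rw [hsplit]
    ring
  rw [hfin]
  refine (norm_sub_le _ _).trans ?_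
  rw [norm_neg]
  have hsqrt : Real.sqrt Real.pi ≤ 2 := by
    rw [Real.sqrt_le_left (by norm_num)]
    linarith [Real.pi_lt_d2]
  have h5 : (7 * ‖s‖ + 1) * (Real.sqrt Real.pi / T) ≤ 60 := by
    have h6 : 7 * ‖s‖ + 1 ≤ 10 * T := by linarith
    calc (7 * ‖s‖ + 1) * (Real.sqrt Real.pi / T) ≤ (10 * T) * (2 / T) := by gcongr
      _ = 20 := by field_simp; norm_num
      _ ≤ 60 := by norm_num
  linarith

end Pool.Agent.Y751.DH
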