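import Pool.Agent.Y751.DH.Base
import Pool.Agent.Y751.DH.Area

set_option autoImplicit false

/-!
# From the measure of the large values of zeta on vertical lines to large values at separated points
-/

open Complex MeasureTheory Set Filter Topology Metric

namespace Pool.Agent.Y751.DH

theorem zeta_an {s : ℂ} (hs : s ≠ 1) : AnalyticAt ℂ riemannZeta s := by
  have : DifferentiableOn ℂ riemannZeta ({1}ᶜ : Set ℂ) := fun z hz =>
    (differentiableAt_riemannZeta hz).differentiableWithinAt
  exact this.analyticAt (isOpen_compl_singleton.mem_nhds hs)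

theorem ne_one_of_im {s : ℂ} (h : 0 < s.im) : s ≠ 1 := by
  intro h1
  rw [h1] at h
  simp at h

/-- the area of a set in terms of its vertical sections -/
theorem area_le {a B : ℝ} {E : Set ℂ} (hE : MeasurableSet E) (ha : 0 ≤ a)
    (h1 : ∀ w ∈ E, a ≤ w.re ∧ w.re ≤ 1)
    (h2 : ∀ x ∈ Icc a 1, volume {y : ℝ | (x : ℂ) + y * I ∈ E} ≤ ENNReal.ofReal B) :
    volume E ≤ ENNReal.ofReal B := by
  have h3 : volume E = volume (Complex.measurableEquivRealProd.symm ⁻¹' E) :=
    (Complex.volume_preserving_equiv_real_prod.symm _ |>.measure_preimage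
      hE.nullMeasurableSet).symm
  have hm : MeasurableSet (Complex.measurableEquivRealProd.symm ⁻¹' E) :=
    Complex.measurableEquivRealProd.symm.measurable hE
  rw [h3, Measure.volume_eq_prod, Measure.prod_apply hm]
  have h4 : ∀ x : ℝ, volume (Prod.mk x ⁻¹' (Complex.measurableEquivRealProd.symm ⁻¹' E)) ≤
      (Icc a 1).indicator (fun _ => ENNReal.ofReal B) x := by
    intro x
    have h5 : Prod.mk x ⁻¹' (Complex.measurableEquivRealProd.symm ⁻¹' E) =
        {y : ℝ | (x : ℂ) + y * I ∈ E} := by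
      ext y
      have h6 : Complex.measurableEquivRealProd.symm (x, y) = (x : ℂ) + y * I := by
        apply Complex.ext <;> simp [Complex.measurableEquivRealProd_symm_apply]
      simp only [mem_preimage, mem_setOf_eq, h6]
    rw [h5]
    by_cases hx : x ∈ Icc a 1
    · rw [indicator_of_mem hx]
      exact h2 x hx
    · rw [indicator_of_notMem hx]
      have : {y : ℝ | (x : ℂ) + y * I ∈ E} = ∅ := by
        ext y
        simp only [mem_setOf_eq, mem_empty_iff_false, iff_false]
        intro h
        have := h1 _ h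
        simp at this
        exact hx this
      rw [this, measure_empty]
  refine (lintegral_mono h4).trans ?_
  rw [lintegral_indicator measurableSet_Icc, setLIntegral_const, Real.volume_Icc]
  calc ENNReal.ofReal B * ENNReal.ofReal (1 - a) ≤ ENNReal.ofReal B * 1 := by
        gcongr
        rw [← ENNReal.ofReal_one]
        exact ENNReal.ofReal_le_ofReal (by linarith)
    _ = _ := mul_one _

/-- the doubled height -/
theorem two_pow {φ : ℝ → ℝ} (hφ : AntitoneOn φ (Icc (1 / 2) 1)) {x e T : ℝ} (hx : x ∈ Icc (1 / 2) 1)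
    (hT : 1 ≤ T) : (2 * T) ^ (φ x + e) ≤ (2 : ℝ) ^ (|φ (1 / 2)| + |e|) * T ^ (φ x + e) := by
  rw [Real.mul_rpow (by norm_num) (by linarith)]
  have h1 : φ x ≤ φ (1 / 2) := hφ ⟨le_rfl, by norm_num⟩ hx hx.1
  have h2 := le_abs_self (φ (1 / 2))
  have h3 := le_abs_self e
  gcongr
  · norm_num
  · linarith

open Classical in
/-- The number of the unit intervals which contain the ordinate of a point at which zeta is large. -/
theorem win {φ : ℝ → ℝ} (hφ : AntitoneOn φ (Icc (1 / 2) 1)) (hL : LargeZeta φ) {r η ε : ℝ}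
    (hr : 0 < r) (hr1 : r ≤ 1 / 12) (hη : 0 < η) (hε : 0 < ε) :
    ∃ C : ℝ, 0 < C ∧ ∃ T₀ : ℝ, ∀ T : ℝ, T₀ ≤ T → ∀ x₁ : ℝ, 1 / 2 + r ≤ x₁ → x₁ ≤ 1 →
      ∀ (W : Finset ℕ) (z : ℕ → ℂ), (∀ n ∈ W, x₁ ≤ (z n).re ∧ (z n).re ≤ 2 ∧ (n : ℝ) ≤ (z n).im ∧
        (z n).im ≤ n + 1 ∧ 3 ≤ (z n).im ∧ (z n).im ≤ T ∧ T ^ η ≤ ‖riemannZeta (z n)‖) →
        (W.card : ℝ) ≤ C * T ^ (φ (x₁ - r) + ε) := by
  obtain ⟨C₁, hC₁, T₁, hT₁⟩ := hL ε hε (η / 4) (by positivity)
  set c₀ : ℝ := Real.pi * ((η - η / 2) / 3) * r ^ 2 with hc₀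
  have hc₀0 : 0 < c₀ := by
    have : 0 < (η - η / 2) / 3 := by linarith
    positivity
  set K : ℝ := (2 : ℝ) ^ (|φ (1 / 2)| + |ε|) with hK
  have hK0 : 0 < K := by positivity
  have hev1 := ev_pow 1 1 (show (0 : ℝ) < η / 4 by positivity)
  have hev2 : ∀ᶠ T : ℝ in atTop, (20 : ℝ) ≤ T ^ (η / 4) :=
    (tendsto_rpow_atTop (by positivity)).eventually_ge_atTop 20
  obtain ⟨T₂, hT₂⟩ := eventually_atTop.1 (hev1.and hev2)
  refine ⟨3 * (C₁ * K) / c₀, by positivity, max (max T₁ T₂) 10, ?_⟩
  intro T hT x₁ hx1 hx2 W z hz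
  have hTT₁ : T₁ ≤ T := (le_max_left _ _).trans ((le_max_left _ _).trans hT)
  have hTT₂ : T₂ ≤ T := (le_max_right _ _).trans ((le_max_left _ _).trans hT)
  have hT10 : 10 ≤ T := (le_max_right _ _).trans hT
  have hT0 : 0 < T := by linarith
  obtain ⟨h5, h6⟩ := hT₂ T hTT₂
  rw [one_mul, pow_one] at h5
  set L := Real.log T with hLdef
  have hL1 : 2 ≤ L := by
    rw [hLdef, Real.le_log_iff_exp_le hT0]
    have h7 : Real.exp 2 = Real.exp 1 * Real.exp 1 := by rw [← Real.exp_add]; norm_num
    rw [h7]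
    nlinarith [Real.exp_one_lt_d9, Real.exp_pos 1]
  have hL0 : 0 < L := by linarith
  have hexp : ∀ a : ℝ, Real.exp (a * L) = T ^ a := by
    intro a
    rw [Real.rpow_def_of_pos hT0, mul_comm]
  -- the set of large values
  set S : Set ℂ := {w : ℂ | (x₁ - r ≤ w.re ∧ w.re ≤ 3) ∧ (2 ≤ w.im ∧ w.im ≤ T + 1)} with hS
  have hScl : IsClosed S := by
    apply IsClosed.inter
    · exact (isClosed_le continuous_const Complex.continuous_re).inter
        (isClosed_le Complex.continuous_re continuous_const)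
    · exact (isClosed_le continuous_const Complex.continuous_im).inter
        (isClosed_le Complex.continuous_im continuous_const)
  set E : Set ℂ := S ∩ (fun w => ‖riemannZeta w‖) ⁻¹' (Ici (T ^ (η / 2))) with hE
  have hEcl : IsClosed E := by
    have h1 : ContinuousOn (fun w => ‖riemannZeta w‖) S := by
      intro w hw
      exact ((zeta_an (ne_one_of_im (by linarith [hw.2.1]))).continuousAt.norm).continuousWithinAt
    exact h1.preimage_isClosed_of_isClosed hScl isClosed_Ici
  -- no large values to the right of 1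
  have hsmall : ∀ w : ℂ, 1 ≤ w.re → 1 ≤ w.im → w.im ≤ T + 1 → w.re ≤ 3 →
      ‖riemannZeta w‖ < T ^ (η / 2) := by
    intro w h7 h8 h9 h10
    have h11 : Real.log (T + 1) ≤ 2 * L := by
      calc Real.log (T + 1) ≤ Real.log (T ^ 2) := Real.log_le_log (by linarith) (by nlinarith)
        _ = 2 * L := by rw [Real.log_pow, hLdef]; norm_num
    have h12 : T ^ (η / 2) = T ^ (η / 4) * T ^ (η / 4) := by
      rw [← Real.rpow_add hT0]; congr 1; ring
    have h13 : 2 * L + 8 < T ^ (η / 2) := by
      rw [h12]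
      nlinarith
    rcases le_or_gt w.re 2 with h14 | h14
    · have := zeta_right h7 h14 h8 h9
      linarith
    · have h15 : ‖riemannZeta w‖ ≤ 2 := by
        rw [zeta_eq_tsum_one_div_nat_add_one_cpow (by linarith)]
        have hsum : HasSum (fun n : ℕ => 1 / ((n : ℝ) + 1) ^ (2 : ℕ)) (Real.pi ^ 2 / 6) := by
          have := hasSum_zeta_two
          rw [← hasSum_nat_add_iff' 1] at this
          simpa using this
        refine (tsum_of_norm_bounded hsum fun n => ?_).trans ?_
        · rw [norm_div, norm_one]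
          have h1 : ((n : ℂ) + 1) = (((n : ℝ) + 1 : ℝ) : ℂ) := by push_cast; rfl
          rw [h1, Complex.norm_cpow_eq_rpow_re_of_pos (by positivity), ← Real.rpow_natCast]
          apply one_div_le_one_div_of_le (by positivity)
          apply Real.rpow_le_rpow_of_exponent_le _ (by push_cast; exact h14.le)
          have : (0 : ℝ) ≤ n := Nat.cast_nonneg n
          linarith
        · nlinarith [Real.pi_lt_d2, Real.pi_pos]
      linarith
  -- the area
  have harea : volume E ≤ ENNReal.ofReal (C₁ * K * T ^ (φ (x₁ - r) + ε)) := by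
    apply area_le hEcl.measurableSet (a := x₁ - r) (by linarith)
    · rintro w ⟨⟨⟨h7, h8⟩, h9, h10⟩, h11⟩
      refine ⟨h7, ?_⟩
      by_contra hcon
      push Not at hcon
      have := hsmall w hcon.le (by linarith) h10 h8
      exact absurd h11 (not_le.2 this)
    · intro x hx
      have hx' : x ∈ Icc (1 / 2 : ℝ) 1 := ⟨by linarith [hx.1], hx.2⟩
      have hxr : x₁ - r ∈ Icc (1 / 2 : ℝ) 1 := ⟨by linarith, by linarith⟩
      have h7 := hT₁ (2 * T) (by linarith) x hx'.1 hx'.2
      refine le_trans (measure_mono ?_) (h7.trans (ENNReal.ofReal_le_ofReal ?_))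
      · rintro y ⟨⟨_, h9, h10⟩, h11⟩
        simp only [add_im, ofReal_im, mul_im, ofReal_re, I_im, mul_one, I_re, mul_zero, add_zero,
          zero_add] at h9 h10
        refine ⟨by linarith, by linarith, ?_⟩
        refine le_trans ?_ h11
        calc (2 * T) ^ (η / 4) ≤ (T ^ (2 : ℝ)) ^ (η / 4) := by
              apply Real.rpow_le_rpow (by positivity) _ (by positivity)
              rw [Real.rpow_two]; nlinarith
          _ = T ^ (η / 2) := by rw [← Real.rpow_mul hT0.le]; congr 1; ring
      · calc C₁ * (2 * T) ^ (φ x + ε) ≤ C₁ * (K * T ^ (φ x + ε)) := by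
              have := two_pow hφ (e := ε) hx' (show 1 ≤ T by linarith)
              gcongr
          _ ≤ C₁ * (K * T ^ (φ (x₁ - r) + ε)) := by
              have h8 : φ x ≤ φ (x₁ - r) := hφ hxr hx' hx.1
              have h9 : (1 : ℝ) ≤ T := by linarith
              gcongr
          _ = _ := by ring
  -- the local sets
  set D : ℕ → Set ℂ := fun n => {w : ℂ | w ∈ closedBall (z n) r ∧
    Real.exp (η / 2 * L) ≤ ‖riemannZeta w‖} with hD
  have hball : ∀ n ∈ W, ∀ w ∈ closedBall (z n) r, x₁ - r ≤ w.re ∧ w.re ≤ 3 ∧ 2 ≤ w.im ∧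
      w.im ≤ T + 1 ∧ |w.im - (z n).im| ≤ 1 / 12 := by
    intro n hn w hw
    rw [mem_closedBall, dist_eq_norm] at hw
    have h7 := (Complex.abs_re_le_norm (w - z n)).trans hw
    have h8 := (Complex.abs_im_le_norm (w - z n)).trans hw
    rw [sub_re] at h7
    rw [sub_im] at h8
    obtain ⟨h9, h10⟩ := abs_le.1 h7
    obtain ⟨h11, h12⟩ := abs_le.1 h8
    obtain ⟨k1, k2, k3, k4, k5, k6, k7⟩ := hz n hn
    exact ⟨by linarith, by linarith, by linarith, by linarith, h8.trans hr1⟩
  have hDarea : ∀ n ∈ W, ENNReal.ofReal c₀ ≤ volume (D n) := by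
    intro n hn
    obtain ⟨k1, k2, k3, k4, k5, k6, k7⟩ := hz n hn
    have h7 := area_large (f := riemannZeta) (c := z n) (r := r) (L := L) (a := η) (b := η / 2)
      (A := 3) hr (fun w hw => zeta_an (ne_one_of_im (by linarith [(hball n hn w hw).2.2.1]))) hL0
      (by positivity) (by norm_num) (by linarith) (by rw [hexp]; exact k7) (by
        intro w hw
        obtain ⟨j1, j2, j3, j4, j5⟩ := hball n hn w hw
        rw [hexp]
        refine (Pool.Agent.H388LH.zeta_growth (by linarith) (by linarith)).trans ?_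
        have h8 : ‖w‖ ≤ 3 + (T + 1) := by
          refine (Complex.norm_le_abs_re_add_abs_im w).trans ?_
          rw [abs_of_pos (by linarith), abs_of_pos (by linarith)]
          linarith
        have h9 : T ^ (3 : ℝ) = T ^ 3 := by norm_cast
        rw [h9]
        have h10 : 100 * T ≤ T ^ 3 := by
          have : T ^ 3 = T * T * T := by ring
          rw [this]
          nlinarith
        linarith)
    exact h7
  have hDm : ∀ n ∈ W, MeasurableSet (D n) := by
    intro n hn
    have h1 : ContinuousOn (fun w => ‖riemannZeta w‖) (closedBall (z n) r) := by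
      intro w hw
      exact ((zeta_an (ne_one_of_im (by
        linarith [(hball n hn w hw).2.2.1]))).continuousAt.norm).continuousWithinAt
    have h2 : D n = closedBall (z n) r ∩
        (fun w => ‖riemannZeta w‖) ⁻¹' (Ici (Real.exp (η / 2 * L))) := rfl
    rw [h2]
    exact (h1.preimage_isClosed_of_isClosed isClosed_closedBall isClosed_Ici).measurableSet
  have hsum : ∑ n ∈ W, volume (D n) ≤ 3 * volume E := by
    have h7 : ∀ n ∈ W, volume (D n) = ∫⁻ w, (D n).indicator (fun _ => (1 : ENNReal)) w := by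
      intro n hn
      rw [lintegral_indicator (hDm n hn), setLIntegral_const, one_mul]
    rw [Finset.sum_congr rfl h7, ← lintegral_finsetSum' _ (fun n hn =>
      (measurable_const.indicator (hDm n hn)).aemeasurable)]
    have h8 : 3 * volume E = ∫⁻ w, E.indicator (fun _ => (3 : ENNReal)) w := by
      rw [lintegral_indicator hEcl.measurableSet, setLIntegral_const]
    rw [h8]
    apply lintegral_mono
    intro w
    simp only
    have h9 : ∑ n ∈ W, (D n).indicator (fun _ => (1 : ENNReal)) w =
        ((W.filter (fun n => w ∈ D n)).card : ENNReal) := by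
      rw [Finset.card_filter, Nat.cast_sum]
      apply Finset.sum_congr rfl
      intro n _
      by_cases h : w ∈ D n
      · rw [indicator_of_mem h, if_pos h, Nat.cast_one]
      · rw [indicator_of_notMem h, if_neg h, Nat.cast_zero]
    rw [h9]
    by_cases hne : (W.filter (fun n => w ∈ D n)).Nonempty
    · obtain ⟨n, hn⟩ := hne
      rw [Finset.mem_filter] at hn
      obtain ⟨j1, j2, j3, j4, j5⟩ := hball n hn.1 w hn.2.1
      have hwE : w ∈ E := by
        refine ⟨⟨⟨j1, j2⟩, j3, j4⟩, ?_⟩
        have := hn.2.2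
        rw [hexp] at this
        exact this
      rw [indicator_of_mem hwE]
      have h10 : W.filter (fun n => w ∈ D n) ⊆ Finset.Icc (⌊w.im⌋₊ - 1) (⌊w.im⌋₊ + 1) := by
        intro m hm
        rw [Finset.mem_filter] at hm
        obtain ⟨i1, i2, i3, i4, i5⟩ := hball m hm.1 w hm.2.1
        obtain ⟨k1, k2, k3, k4, k5, k6, k7⟩ := hz m hm.1
        obtain ⟨i6, i7⟩ := abs_le.1 i5
        rw [Finset.mem_Icc]
        have h11 := Nat.floor_le (show 0 ≤ w.im by linarith)
        have h12 := Nat.lt_floor_add_one w.im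
        constructor
        · have : ⌊w.im⌋₊ < m + 1 + 1 := by
            have h13 : ((⌊w.im⌋₊ : ℕ) : ℝ) < ((m + 1 + 1 : ℕ) : ℝ) := by
              push_cast
              linarith
            exact_mod_cast h13
          omega
        · have : m < ⌊w.im⌋₊ + 1 + 1 := by
            have h13 : ((m : ℕ) : ℝ) < ((⌊w.im⌋₊ + 1 + 1 : ℕ) : ℝ) := by
              push_cast
              linarith
            exact_mod_cast h13
          omega
      have h11 := Finset.card_le_card h10
      rw [Nat.card_Icc] at h11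
      have h12 : (W.filter (fun n => w ∈ D n)).card ≤ 3 := by omega
      calc ((W.filter (fun n => w ∈ D n)).card : ENNReal) ≤ ((3 : ℕ) : ENNReal) := by
            exact_mod_cast h12
        _ = 3 := by norm_num
    · rw [Finset.not_nonempty_iff_eq_empty] at hne
      rw [hne]
      simp
  have hfin : ENNReal.ofReal (W.card * c₀) ≤
      ENNReal.ofReal (3 * (C₁ * K * T ^ (φ (x₁ - r) + ε))) := by
    calc ENNReal.ofReal (W.card * c₀) = ∑ n ∈ W, ENNReal.ofReal c₀ := by
          rw [Finset.sum_const, nsmul_eq_mul, ENNReal.ofReal_mul (Nat.cast_nonneg _),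
            ENNReal.ofReal_natCast]
      _ ≤ ∑ n ∈ W, volume (D n) := Finset.sum_le_sum hDarea
      _ ≤ 3 * volume E := hsum
      _ ≤ 3 * ENNReal.ofReal (C₁ * K * T ^ (φ (x₁ - r) + ε)) := by gcongr
      _ = _ := by
          rw [ENNReal.ofReal_mul (by norm_num : (0 : ℝ) ≤ 3)]
          norm_num
  have h7 := (ENNReal.ofReal_le_ofReal_iff (by positivity)).1 hfin
  rw [div_mul_eq_mul_div, le_div_iff₀ hc₀0]
  linarith

end Pool.Agent.Y751.DH
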